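import Pool.Agent.P.MP_26ce3f_co.Lift

/-! Absorption inside an arbitrary submonoid, reduction to the top degree, inverse families. -/

namespace Pool.Agent.P.MP_26ce3f_co

open Ser

variable {α ι : Type}

/-- A set of words containing the empty word and closed under concatenation. -/
structure Mon (M : List α → Prop) : Prop where
  nil : M []
  app : ∀ {u v}, M u → M v → M (u ++ v)

theorem Mon.wpow {M : List α → Prop} (hM : Mon M) {u : List α} (h : M u) (n : ℕ) :
    M (wpow u n) := by
  induction n with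
  | zero => exact hM.nil
  | succ n ih =>
    have : MP_26ce3f_co.wpow u (n + 1) = u ++ MP_26ce3f_co.wpow u n := by
      simp [MP_26ce3f_co.wpow, List.replicate_succ]
    rw [this]; exact hM.app h ih

theorem Mon.flatMap {M : List α → Prop} (hM : Mon M) {κ : Type} (l : List κ) {f : κ → List α}
    (h : ∀ i, M (f i)) : M (l.flatMap f) := by
  induction l with
  | nil => exact hM.nil
  | cons i l ih => rw [List.flatMap_cons]; exact hM.app (h i) ih

variable [DecidableEq α]

theorem switchM {M : List α → Prop} (hM : Mon M) {t : ℕ} {U V : List α} (hU : M U) (hV : M V)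
    {z : Ser α} (h : Sh t (ws U) (ws V) z) (R : ℕ) (r : ℤ)
    (hr : |r| ≤ R) : ∃ q, M q ∧ Sh t (ws q) (ws (wpow U R ++ wpow V R)) (r • z) := by
  rw [ws_append, ws_wpow, ws_wpow]
  have o : ∀ (W : List α) (n : ℕ), Sh t (ws W ^ n) (ws W ^ n) 0 := fun W n =>
    Sh.refl t (by rw [← ws_wpow]; simp)
  obtain ⟨m, rfl | rfl⟩ := Int.eq_nat_or_neg r
  · obtain ⟨k, rfl⟩ := Nat.exists_eq_add_of_le (show m ≤ R by simpa using hr)
    refine ⟨wpow U (m + k) ++ (wpow U m ++ wpow V k),
      hM.app (hM.wpow hU _) (hM.app (hM.wpow hU _) (hM.wpow hV _)), ?_⟩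
    rw [ws_append, ws_append, ws_wpow, ws_wpow, ws_wpow, pow_add (ws V)]
    exact ((o U _).mul ((h.pow m).mul (o V k))).congr fun u _ => by simp [natCast_mul]
  · obtain ⟨k, rfl⟩ := Nat.exists_eq_add_of_le' (show m ≤ R by simpa using hr)
    refine ⟨wpow U k ++ wpow V m ++ wpow V (k + m),
      hM.app (hM.app (hM.wpow hU _) (hM.wpow hV _)) (hM.wpow hV _), ?_⟩
    rw [ws_append, ws_append, ws_wpow, ws_wpow, ws_wpow, pow_add (ws U)]
    exact (((o U k).mul (h.symm.pow m)).mul (o V _)).congr fun u _ => by simp [natCast_mul]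

/-- Absorption of differences in the top degree inside a submonoid. -/
theorem absorbM [Fintype α] {M : List α → Prop} (hM : Mon M) (t : ℕ) : ∃ Q0 : ℕ → List α,
    (∀ D, M (Q0 D)) ∧
    (∀ {ι : Type} (n : (ι → ℕ) → ℕ), (Nice fun p => (n p : ℤ)) → NiceS fun p => ws (Q0 (n p))) ∧
    ∀ (D : ℕ) (U V : List α), M U → M V → Eqv t (ws U) (ws V) →
      (∀ u : List α, u.length = t + 1 → |ws U u - ws V u| ≤ D) →
      ∃ Q, M Q ∧ Sh t (ws Q) (ws (Q0 D)) (ws U - ws V) := by
  classical
  let I := List.Vector α (t + 1)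
  let A : AddSubgroup (I → ℤ) :=
    { carrier := {d | ∃ U V : List α, M U ∧ M V ∧ Eqv t (ws U) (ws V) ∧
        ∀ i : I, d i = ws U i.1 - ws V i.1}
      zero_mem' := ⟨[], [], hM.nil, hM.nil, Eqv.refl _ _, fun i => by simp⟩
      neg_mem' := by
        rintro d ⟨U, V, hU, hV, h, hd⟩
        exact ⟨V, U, hV, hU, h.symm, fun i => by simp [hd i]⟩
      add_mem' := by
        rintro d d' ⟨U, V, hU, hV, h, hd⟩ ⟨U', V', hU', hV', h', hd'⟩
        have := (Sh.of_eqv (ws_one _) h).mul (Sh.of_eqv (ws_one _) h')
        rw [← ws_append, ← ws_append] at this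
        refine ⟨U ++ U', V ++ V', hM.app hU hU', hM.app hV hV', this.eqv, fun i => ?_⟩
        rw [this.top i.1 i.2]; simp [hd i, hd' i] }
  obtain ⟨n, snf⟩ := (AddSubgroup.toIntSubmodule A).smithNormalForm (Pi.basisFun ℤ I)
  have hb : ∀ i : Fin n, ∃ U V : List α, M U ∧ M V ∧ Eqv t (ws U) (ws V) ∧
      ∀ j : I, (snf.bN i : I → ℤ) j = ws U j.1 - ws V j.1 := fun i => (snf.bN i).2
  choose U V hU hV hUV hd using hb
  let φ : Fin n → (I → ℤ) →ₗ[ℤ] ℤ := fun i => snf.bM.coord (snf.f i)
  let C : ℕ := ∑ i, ∑ j : I, (φ i fun j' => if j = j' then 1 else 0).natAbs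
  refine ⟨fun D => (List.finRange n).flatMap fun i => wpow (U i) (C * D) ++ wpow (V i) (C * D),
    fun D => hM.flatMap _ fun i => hM.app (hM.wpow (hU i) _) (hM.wpow (hV i) _),
    fun m hm => ?_, fun D U' V' hU' hV' h hD => ?_⟩
  · have hm' : Nice fun p => ((C * m p : ℕ) : ℤ) :=
      ((Nice.const C).mul hm).of_eq fun p => by push_cast; rfl
    refine (NiceS.listProd (List.finRange n) (f := fun i p => ws (U i) ^ (C * m p) *
      ws (V i) ^ (C * m p)) fun i _ => (NiceS.pow (ws_one _) hm').mul
        (NiceS.pow (ws_one _) hm')).of_eq fun p => ?_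
    simp only [ws_flatMap, ws_append, ws_wpow]
  · let d : AddSubgroup.toIntSubmodule A :=
      ⟨fun i => ws U' i.1 - ws V' i.1, U', V', hU', hV', h, fun _ => rfl⟩
    have hr : ∀ i, |snf.bN.repr d i| ≤ ((C * D : ℕ) : ℤ) := by
      intro i
      have h1 : φ i d = snf.a i * snf.bN.repr d i := by
        simp [φ]
      have h2 : snf.a i ≠ 0 := by
        intro h0
        have := snf.snf i
        rw [h0, zero_smul] at this
        exact snf.bN.ne_zero i (Subtype.ext this)
      have h3 : |snf.bN.repr d i| ≤ |φ i d| := by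
        rw [h1, abs_mul]
        exact le_mul_of_one_le_left (abs_nonneg _) (Int.one_le_abs h2)
      refine h3.trans ?_
      rw [LinearMap.pi_apply_eq_sum_univ]
      refine (Finset.abs_sum_le_sum_abs _ _).trans ?_
      have h4 : ∑ j : I, (φ i fun j' => if j = j' then 1 else 0).natAbs ≤ C :=
        Finset.single_le_sum (f := fun i => ∑ j : I, (φ i fun j' => if j = j' then 1 else 0).natAbs)
          (fun _ _ => Nat.zero_le _) (Finset.mem_univ i)
      calc _ ≤ ∑ j : I, ((φ i fun j' => if j = j' then 1 else 0).natAbs : ℤ) * D := by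
            refine Finset.sum_le_sum fun j _ => ?_
            rw [smul_eq_mul, abs_mul, mul_comm, Int.natCast_natAbs]
            exact mul_le_mul_of_nonneg_left (hD j.1 j.2) (abs_nonneg _)
        _ = ((∑ j : I, (φ i fun j' => if j = j' then 1 else 0).natAbs) * D : ℕ) := by
            push_cast; rw [Finset.sum_mul]
        _ ≤ _ := by exact_mod_cast Nat.mul_le_mul_right D h4
    choose q hqM hq using fun i =>
      switchM hM (hU i) (hV i) (Sh.of_eqv (ws_one _) (hUV i)) (C * D) _ (hr i)
    refine ⟨(List.finRange n).flatMap q, hM.flatMap _ hqM, ?_⟩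
    rw [ws_flatMap, ws_flatMap]
    refine (Sh.listProd _ _ _ _ fun i _ => hq i).congr fun u hu => ?_
    rw [← Fin.sum_univ_def, sum_apply]
    have h5 := congrArg (fun x : AddSubgroup.toIntSubmodule A => (x : I → ℤ) ⟨u, hu⟩)
      (snf.bN.sum_repr d)
    simp only [AddSubmonoidClass.coe_finsetSum, Finset.sum_apply, SetLike.val_smul,
      Pi.smul_apply, hd, smul_eq_mul] at h5
    simpa [d] using h5

theorem Eqv.length_eq [Fintype α] {t : ℕ} (ht : 1 ≤ t) {u v : List α} (h : Eqv t (ws u) (ws v)) :
    u.length = v.length := by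
  have : (u.length : ℤ) = v.length := by
    rw [length_eq_sum, length_eq_sum]
    exact Finset.sum_congr rfl fun a _ => h [a] (by simpa using ht)
  exact_mod_cast this

/-- Every short word of a submonoid can be completed, inside the submonoid, to a word with a
prescribed spectrum. -/
theorem absorbAll [Fintype α] {M : List α → Prop} (hM : Mon M) (t : ℕ) : ∃ W0 : ℕ → List α,
    (∀ B, M (W0 B)) ∧
    (∀ {ι : Type} (n : (ι → ℕ) → ℕ), (Nice fun p => (n p : ℤ)) → NiceS fun p => ws (W0 (n p))) ∧
    ∀ (B : ℕ) (u : List α), M u → u.length ≤ B →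
      ∃ Q, M Q ∧ Eqv t (ws (Q ++ u)) (ws (W0 B)) := by
  suffices h : ∃ (W0 : ℕ → List α) (l : ℕ → ℕ), (∀ B, M (W0 B)) ∧
      (∀ {ι : Type} (n : (ι → ℕ) → ℕ), (Nice fun p => (n p : ℤ)) →
        NiceS (fun p => ws (W0 (n p))) ∧ Nice fun p => (l (n p) : ℤ)) ∧
      (∀ B, (W0 B).length ≤ l B) ∧
      ∀ (B : ℕ) (u : List α), M u → u.length ≤ B →
        ∃ Q, M Q ∧ Eqv t (ws (Q ++ u)) (ws (W0 B)) ∧ (Q ++ u).length ≤ l B by
    obtain ⟨W0, l, h1, h2, _, h4⟩ := h
    exact ⟨W0, h1, fun n hn => (h2 n hn).1, fun B u hu hB => by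
      obtain ⟨Q, a, b, _⟩ := h4 B u hu hB
      exact ⟨Q, a, b⟩⟩
  induction t with
  | zero =>
    refine ⟨fun _ => [], id, fun _ => hM.nil, fun n hn => ⟨NiceS.const _, hn⟩, fun B => by simp,
      fun B u _ hB => ⟨[], hM.nil, fun v hv => ?_, by simpa using hB⟩⟩
    have : v = [] := List.length_eq_zero_iff.1 (by omega)
    subst this; simp
  | succ t ih =>
    obtain ⟨W0, l, h1, h2, h3, h4⟩ := ih
    obtain ⟨Q0, g1, g2, g3⟩ := absorbM hM t
    refine ⟨fun B => Q0 (l B ^ (t + 1)) ++ W0 B, fun B => (Q0 (l B ^ (t + 1)) ++ W0 B).length,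
      fun B => hM.app (g1 _) (h1 _), fun n hn => ?_, fun B => le_rfl, fun B u hu hB => ?_⟩
    · have e1 : NiceS fun p => ws (Q0 (l (n p) ^ (t + 1)) ++ W0 (n p)) :=
        ((g2 (fun p => l (n p) ^ (t + 1)) (((h2 n hn).2.pow (t + 1)).of_eq fun p => by
          push_cast; rfl)).mul (h2 n hn).1).of_eq fun p => (ws_append _ _).symm
      exact ⟨e1, (Nice.sum Finset.univ fun a _ => e1 [a]).of_eq fun p => (length_eq_sum _).symm⟩
    · obtain ⟨Q, a1, a2, a3⟩ := h4 B u hu hB
      obtain ⟨Q1, b1, b2⟩ := g3 (l B ^ (t + 1)) (W0 B) (Q ++ u) (h1 B) (hM.app a1 hu) a2.symm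
        fun v hv => by
          have c1 := (occ_le_pow (W0 B) v).trans (Nat.pow_le_pow_left (h3 B) _)
          have c2 := (occ_le_pow (Q ++ u) v).trans (Nat.pow_le_pow_left a3 _)
          rw [hv] at c1 c2
          rw [ws_apply, ws_apply, abs_le]
          constructor <;> omega
      have e : Eqv (t + 1) (ws ((Q1 ++ Q) ++ u)) (ws (Q0 (l B ^ (t + 1)) ++ W0 B)) := by
        rw [List.append_assoc, ws_append Q1, ws_append (Q0 _)]
        exact (b2.mul (Sh.of_eqv (ws_one _) a2)).eqv_succ fun v _ => by simp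
      exact ⟨Q1 ++ Q, hM.app b1 a1, e, (e.length_eq (by omega)).le⟩

section Deg
variable [Fintype α]

/-- Insertion of one letter in all possible ways. -/
def insF (f : Ser α) : List α → ℤ
  | [] => ∑ a, f [a]
  | b :: u => ∑ a, f (a :: b :: u) + insF (der b f) u

/-- The derivation which multiplies the series of a word by its length. -/
def Dop (f : Ser α) : Ser α := fun u => insF f u + u.length * f u

/-- Sum of the left derivatives. -/
def dsum (f : Ser α) : Ser α := ∑ a, der a f

omit [DecidableEq α] in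
theorem dsum_apply (f : Ser α) (u : List α) : dsum f u = ∑ a, f (a :: u) := by
  simp [dsum, sum_apply]

omit [DecidableEq α] in
theorem Dop_nil (f : Ser α) : Dop f [] = dsum f [] := by simp [Dop, insF, dsum_apply]

omit [DecidableEq α] in
theorem der_Dop (b : α) (f : Ser α) :
    der b (Dop f) = der b (dsum f) + Dop (der b f) + der b f := by
  ext u
  simp [Dop, insF, dsum_apply]; ring

omit [DecidableEq α] in
theorem insF_lin (z : ℤ) (f g : Ser α) (u : List α) :
    insF (z • f + g) u = z * insF f u + insF g u := by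
  induction u generalizing f g with
  | nil => simp only [insF, Ser.add_apply, zsmul_apply, Finset.sum_add_distrib, Finset.mul_sum]
  | cons b u ih =>
    simp only [insF, der_add, der_smul, ih, Ser.add_apply, zsmul_apply, Finset.sum_add_distrib,
      ← Finset.mul_sum]
    ring

omit [DecidableEq α] in
theorem Dop_lin (z : ℤ) (f g : Ser α) : Dop (z • f + g) = z • Dop f + Dop g := by
  ext u
  simp only [Dop, insF_lin, Ser.add_apply, zsmul_apply]; ring

omit [DecidableEq α] in
theorem dsum_mul (f g : Ser α) : dsum (f * g) = f [] • dsum g + dsum f * g := by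
  simp only [dsum, der_mul, Finset.sum_add_distrib, Finset.smul_sum, Finset.sum_mul]

omit [DecidableEq α] in
theorem Dop_mul (f g : Ser α) : Dop (f * g) = Dop f * g + f * Dop g := by
  ext u
  induction u generalizing f with
  | nil => simp only [Dop_nil, dsum_mul, Ser.add_apply, zsmul_apply, mul_nil]; ring
  | cons b u ih =>
    have e1 : ∀ h : Ser α, Dop h (b :: u) = dsum h (b :: u) + Dop (der b h) u + h (b :: u) :=
      fun h => congrFun (der_Dop b h) u
    have ih' := ih (der b f)
    simp only [Ser.add_apply, mul_cons, e1, der_Dop, der_mul, Dop_lin, dsum_mul, add_mul, Dop_nil,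
      zsmul_apply] at ih' ⊢
    rw [ih']; ring

omit [DecidableEq α] in
theorem Dop_one : Dop (1 : Ser α) = 0 := by
  have := Dop_mul (1 : Ser α) 1
  simpa using this

omit [DecidableEq α] in
theorem Dop_zero : Dop (0 : Ser α) = 0 := by
  have := Dop_mul (0 : Ser α) 1
  simp only [Dop_one, mul_one, mul_zero, add_zero] at this
  have h2 := Dop_lin (-1) (0 : Ser α) 0
  simpa using h2

theorem Dop_single (a : α) : Dop (ws [a]) = ws [a] := by
  have h1 : dsum (ws [a]) = 1 := by
    simp only [dsum, der_ws_single]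
    simp
  ext u
  cases u with
  | nil => simp [Dop_nil, h1]
  | cons b u =>
    show der b (Dop (ws [a])) u = der b (ws [a]) u
    rw [der_Dop, h1, der_one, der_ws_single]
    split_ifs <;> simp [Dop_one, Dop_zero]

theorem Dop_ws (w : List α) : Dop (ws w) = (w.length : ℤ) • ws w := by
  induction w with
  | nil => simp [Dop_one]
  | cons a w ih =>
    rw [ws_cons, Dop_mul, ih, Dop_single, mul_smul_comm, List.length_cons]
    push_cast
    rw [add_smul, one_smul, add_comm]

omit [DecidableEq α] in
theorem insF_congr {f g : Ser α} (u : List α)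
    (h : ∀ v : List α, v.length = u.length + 1 → f v = g v) : insF f u = insF g u := by
  induction u generalizing f g with
  | nil => exact Finset.sum_congr rfl fun a _ => h _ rfl
  | cons b u ih =>
    simp only [insF]
    rw [ih (f := der b f) (g := der b g) fun v hv => h _ (by simp [hv])]
    congr 1
    exact Finset.sum_congr rfl fun a _ => h _ rfl

omit [DecidableEq α] in
theorem scale_congr {f g : Ser α} {n m : ℤ} (hf : Dop f = n • f) (hg : Dop g = m • g) (t : ℕ)
    (h : ∀ u : List α, u.length = t → f u = g u) (j : ℕ) : ∀ u : List α, u.length + j = t →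
      (∏ i ∈ Finset.range j, (n - (t - 1 - i))) * f u =
        (∏ i ∈ Finset.range j, (m - (t - 1 - i))) * g u := by
  induction j with
  | zero => intro u hu; simpa using h u hu
  | succ j ih =>
    intro u hu
    have a1 : insF f u = (n - u.length) * f u := by
      have := congrFun hf u
      simp only [Dop, zsmul_apply] at this
      linear_combination this
    have a2 : insF g u = (m - u.length) * g u := by
      have := congrFun hg u
      simp only [Dop, zsmul_apply] at this
      linear_combination this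
    have a3 := insF_congr (f := (∏ i ∈ Finset.range j, (n - (t - 1 - i))) • f + 0)
      (g := (∏ i ∈ Finset.range j, (m - (t - 1 - i))) • g + 0) u fun v hv => by
        simp only [Ser.add_apply, zsmul_apply, ih v (by omega)]
    rw [insF_lin, insF_lin, a1, a2] at a3
    have e : (u.length : ℤ) = t - 1 - j := by omega
    rw [Finset.prod_range_succ, Finset.prod_range_succ, ← e]
    linear_combination a3

theorem prod_desc (n t : ℕ) :
    ∏ i ∈ Finset.range t, ((n : ℤ) - (t - 1 - i)) = (n.descFactorial t : ℤ) := by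
  rw [← Finset.prod_range_reflect]
  have : ∀ t, ∏ i ∈ Finset.range t, ((n : ℤ) - i) = (n.descFactorial t : ℤ) := by
    intro t
    induction t with
    | zero => simp
    | succ k ih =>
      rw [Finset.prod_range_succ, ih, Nat.descFactorial_succ]
      rcases Nat.lt_or_ge n k with h2 | h2
      · simp [Nat.descFactorial_eq_zero_iff_lt.2 h2]
      · push_cast [h2]; ring
  rw [← this]
  refine Finset.prod_congr rfl fun i hi => ?_
  have := Finset.mem_range.1 hi
  congr 1
  omega

/-- The coefficients of degree `t` determine those of lower degree. -/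
theorem eqv_of_top {g : Ser α} {n t : ℕ} (ht : 1 ≤ t) (hn : t ≤ n) (h1 : g [] = 1)
    (hg : Dop g = (n : ℤ) • g) (w : List α) (h : ∀ u : List α, u.length = t → ws w u = g u) :
    Eqv t (ws w) g := by
  have key := scale_congr (Dop_ws w) hg t h
  have e : w.length = n := by
    have := key t [] (by simp)
    rw [prod_desc, prod_desc, ws_one, h1, mul_one, mul_one] at this
    have h2 : w.length.descFactorial t = n.descFactorial t := by exact_mod_cast this
    rw [Nat.descFactorial_eq_factorial_mul_choose, Nat.descFactorial_eq_factorial_mul_choose]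
      at h2
    have h3 := Nat.eq_of_mul_eq_mul_left t.factorial_pos h2
    have h4 : t ≤ w.length := by
      by_contra h5
      rw [Nat.choose_eq_zero_of_lt (by omega)] at h3
      exact absurd h3 (Nat.choose_pos hn).ne
    have mono : ∀ a b, t ≤ a → a < b → a.choose t < b.choose t := fun a b ha hab => by
      obtain ⟨s, rfl⟩ : ∃ s, t = s + 1 := ⟨t - 1, by omega⟩
      have := Nat.choose_le_choose (s + 1) (show a + 1 ≤ b from hab)
      rw [Nat.choose_succ_succ'] at this
      have := Nat.choose_pos (show s ≤ a by omega)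
      omega
    rcases lt_trichotomy w.length n with h5 | h5 | h5
    · have := mono _ _ h4 h5; omega
    · exact h5
    · have := mono _ _ hn h5; omega
  intro u hu
  have := key (t - u.length) u (by omega)
  rw [e] at this
  refine mul_left_cancel₀ (Finset.prod_ne_zero_iff.2 fun i hi => ?_) this
  omega

end Deg

/-- Families of words whose series have `Nice` inverses. -/
def NI (h : (ι → ℕ) → List α) : Prop :=
  ∃ g : (ι → ℕ) → Ser α, NiceS g ∧ ∀ p, g p * ws (h p) = 1

theorem NI.const (w : List α) : NI fun _ : ι → ℕ => w := by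
  obtain ⟨g, hg⟩ := exists_inv (ws_one w)
  exact ⟨fun _ => g, NiceS.const _, fun _ => hg⟩

theorem NI.append {u v : (ι → ℕ) → List α} (hu : NI u) (hv : NI v) : NI fun p => u p ++ v p := by
  obtain ⟨f, hf, hf'⟩ := hu
  obtain ⟨g, hg, hg'⟩ := hv
  refine ⟨fun p => g p * f p, hg.mul hf, fun p => ?_⟩
  rw [ws_append, mul_assoc, ← mul_assoc (f p), hf', one_mul, hg']

theorem NI.wpow (w : List α) {n : (ι → ℕ) → ℕ} (hn : Nice fun p => (n p : ℤ)) :
    NI fun p => wpow w (n p) := by
  obtain ⟨g, hg⟩ := exists_inv (ws_one w)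
  have h1 : g [] = 1 := by simpa using congrFun hg []
  refine ⟨fun p => g ^ n p, NiceS.pow h1 hn, fun p => ?_⟩
  rw [ws_wpow]
  beta_reduce
  induction n p with
  | zero => simp
  | succ m ih => rw [pow_succ g, pow_succ' (ws w), mul_assoc, ← mul_assoc g, hg, one_mul, ih]

theorem NI.flatMap {κ : Type} (l : List κ) {f : κ → (ι → ℕ) → List α} (h : ∀ i, NI (f i)) :
    NI fun p => l.flatMap fun i => f i p := by
  induction l with
  | nil => exact NI.const []
  | cons i l ih => simpa only [List.flatMap_cons] using (h i).append ih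

end Pool.Agent.P.MP_26ce3f_co
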