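import Pool.Agent.P.MP_26ce3f_co.PS.Mem

/-! Degree two: words with few blocks suffice, and membership is in `NP`. -/

namespace Pool.Agent.P.MP_26ce3f_co

open Finset Pool.Agent.Lib.helper21 Pool.Agent.Lib.helper77

section
variable {α : Type} [DecidableEq α]

/-- The word with blocks `(c i) ^ (e i)`, `i < L`. -/
def bw (c : ℕ → α) (e : ℕ → ℕ) (L : ℕ) : List α :=
  (List.range L).flatMap fun i => List.replicate (e i) (c i)

theorem bw_count (c : ℕ → α) (e : ℕ → ℕ) (L : ℕ) (b : α) :
    (bw c e L).count b = ∑ i ∈ range L, if c i = b then e i else 0 := by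
  induction L with
  | zero => rfl
  | succ L ih =>
    rw [sum_range_succ, ← ih]
    simp [bw, List.range_succ, List.count_replicate]

theorem bw_occ (c : ℕ → α) (e : ℕ → ℕ) (L : ℕ) {a b : α} (h : b ≠ a) :
    occ (bw c e L) [b, a] = ∑ j ∈ range L, if c j = a then e j * (bw c e j).count b else 0 := by
  induction L with
  | zero => simp [bw]
  | succ L ih =>
    have : bw c e (L + 1) = bw c e L ++ List.replicate (e L) (c L) := by
      simp [bw, List.range_succ]
    rw [sum_range_succ, ← ih, this, occ2_append, occ2_replicate _ _ h, List.count_replicate]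
    by_cases h : c L = a <;> simp [h, mul_comm]

omit [DecidableEq α] in
theorem bw_length (c : ℕ → α) (e : ℕ → ℕ) (L : ℕ) : (bw c e L).length = ∑ i ∈ range L, e i := by
  induction L with
  | zero => rfl
  | succ L ih =>
    rw [sum_range_succ, ← ih]
    simp [bw, List.range_succ]

theorem eqv_two {v w : List α} (a : α) (h1 : ∀ b, v.count b = w.count b)
    (h2 : ∀ b, b ≠ a → ∀ b', b ≠ b' → occ v [b, b'] = occ w [b, b']) : Eqv 2 (ws v) (ws w) := by
  intro u hu
  match u, hu with
  | [], _ => simp
  | [b], _ => simp [ws_apply, occ_single, h1]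
  | [b, b'], _ =>
    simp only [ws_apply, Nat.cast_inj]
    by_cases e : b = b'
    · subst e; rw [occ2_diag, occ2_diag, h1]
    by_cases e' : b = a
    · subst e'
      have := occ2_swap v e
      have := occ2_swap w e
      have := h2 b' (Ne.symm e) b (Ne.symm e)
      simp only [h1] at *; omega
    · exact h2 b e' b' e

theorem shrink [Fintype α] (c : ℕ → α) (e : ℕ → ℕ) (L : ℕ) (a : α)
    (h : ((bw c e L).length ^ 2 + 1) ^ Fintype.card α <
      2 ^ #{i ∈ range L | e i ≠ 0 ∧ c i = a}) :
    ∃ e', Eqv 2 (ws (bw c e' L)) (ws (bw c e L)) ∧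
      #{i ∈ range L | e' i ≠ 0} < #{i ∈ range L | e i ≠ 0} := by
  set T := {i ∈ range L | e i ≠ 0 ∧ c i = a} with hT
  set n := (bw c e L).length with hn
  let v : ℕ → α → ℕ := fun j b => if b = a then 1 else (bw c e j).count b
  have hTn : #T ≤ n := by
    rw [hn, bw_length, card_eq_sum_ones]
    exact (sum_le_sum fun i hi => Nat.pos_of_ne_zero (mem_filter.1 hi).2.1).trans
      (sum_le_sum_of_subset (filter_subset _ _))
  have hv : ∀ j ∈ T, ∀ b, v j b ≤ n := fun j hj b => by
    simp only [v]
    split_ifs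
    · exact (card_pos.2 ⟨j, hj⟩).trans_le hTn
    · rw [hn, bw_length]
      refine List.count_le_length.trans ?_
      rw [bw_length]
      exact sum_le_sum_of_subset (range_subset_range.2 (mem_range.1 (mem_filter.1 hj).1).le)
  obtain ⟨S, hS, S', hS', hne, hE⟩ := exists_ne_map_eq_of_card_lt_of_maps_to (s := T.powerset)
    (t := Fintype.piFinset fun _ : α => range (n ^ 2 + 1)) (f := fun S b => ∑ j ∈ S, v j b)
    (by simpa using h) fun S hS => by
      have hS : S ⊆ T := mem_powerset.1 hS
      simp only [Fintype.coe_piFinset, Set.mem_pi, Set.mem_univ, coe_range, Set.mem_Iio,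
        true_imp_iff]
      intro b
      refine Nat.lt_succ_of_le ((sum_le_card_nsmul _ _ n fun j hj => hv j (hS hj) b).trans ?_)
      rw [sq]; exact Nat.mul_le_mul_right _ ((card_le_card hS).trans hTn)
  rw [mem_powerset] at hS hS'
  have hc : #S = #S' := by simpa [v] using congrFun hE a
  obtain ⟨j0, hj0, hmin⟩ := exists_min_image (S \ S') e (sdiff_nonempty.2 fun h =>
    hne (eq_of_subset_of_card_le h hc.ge))
  let e' : ℕ → ℕ := fun j => e j + (if j ∈ S' then e j0 else 0) - if j ∈ S then e j0 else 0
  have h1 : ∀ j, e' j + (if j ∈ S then e j0 else 0) = e j + if j ∈ S' then e j0 else 0 := fun j => by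
    have := hmin j
    simp only [mem_sdiff] at this
    by_cases h2 : j ∈ S <;> by_cases h3 : j ∈ S' <;> simp [e', h2, h3] at this ⊢
    omega
  have h2 : ∀ j, j ∉ T → e' j = e j := fun j hj => by
    have := h1 j
    rwa [if_neg fun h => hj (hS h), if_neg fun h => hj (hS' h), add_left_inj] at this
  have h3 : ∀ j b, b ≠ a → c j = b → e' j = e j := fun j b hb hj =>
    h2 j fun h => hb (hj.symm.trans (mem_filter.1 h).2.2)
  have h4 : ∀ j b, b ≠ a → (bw c e' j).count b = (bw c e j).count b := fun j b hb => by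
    rw [bw_count, bw_count]
    exact sum_congr rfl fun i _ => by split_ifs with h; exacts [h3 i b hb h, rfl]
  have h5 : ∀ b, ∀ S ⊆ T, ∑ j ∈ range L, (if c j = a then (if j ∈ S then e j0 else 0) * v j b
      else 0) = e j0 * ∑ j ∈ S, v j b := fun b S hS => by
    rw [mul_sum, ← sum_subset (hS.trans (filter_subset _ _)) fun j _ hj => by simp [hj]]
    exact sum_congr rfl fun j hj => by simp [hj, (mem_filter.1 (hS hj)).2.2]
  have key : ∀ b, ∑ j ∈ range L, (if c j = a then e' j * v j b else 0) =
      ∑ j ∈ range L, if c j = a then e j * v j b else 0 := fun b => by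
    have h6 : ∑ j ∈ S, v j b = ∑ j ∈ S', v j b := congrFun hE b
    refine add_right_cancel (b := e j0 * ∑ j ∈ S, v j b) ?_
    conv_rhs => rw [h6, ← h5 b S' hS']
    rw [← h5 b S hS, ← sum_add_distrib, ← sum_add_distrib]
    refine sum_congr rfl fun j _ => ?_
    by_cases h : c j = a
    · simp only [if_pos h, ← add_mul, h1]
    · simp only [if_neg h]
  refine ⟨e', eqv_two a (fun b => ?_) fun b hb b' hb' => ?_, card_lt_card ⟨fun i hi => ?_,
    fun h => ?_⟩⟩
  · by_cases hb : b = a
    · subst hb; simpa [v, bw_count] using key b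
    · exact h4 L b hb
  · simp only [bw_occ _ _ _ hb', h4 _ b hb]
    by_cases h : b' = a
    · subst h; simpa only [v, if_neg hb] using key b
    · exact sum_congr rfl fun i _ => by split_ifs with h'; exacts [by rw [h3 i b' h h'], rfl]
  · rw [mem_filter] at hi ⊢
    exact ⟨hi.1, fun h => hi.2 ((h2 i fun h' => (mem_filter.1 h').2.1 h).trans h)⟩
  · rw [mem_sdiff] at hj0
    have := mem_filter.1 (hS hj0.1)
    exact (mem_filter.1 (h (mem_filter.2 ⟨this.1, this.2.1⟩))).2 (by simp [e', hj0.1, hj0.2])

theorem Eqv.length [Fintype α] {v w : List α} (h : Eqv 2 (ws v) (ws w)) : v.length = w.length :=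
  List.Perm.length_eq (List.perm_iff_count.2 fun a => by
    simpa [ws_apply, occ_single] using h [a] (by simp))

theorem few_blocks [Fintype α] (w : List α) {r : ℕ}
    (hr : (w.length ^ 2 + 1) ^ Fintype.card α < 2 ^ (r + 1)) :
    ∃ l : List (α × ℕ), l.length ≤ Fintype.card α * r ∧
      Eqv 2 (ws (l.flatMap fun p => List.replicate p.2 p.1)) (ws w) := by
  rcases w with _ | ⟨a0, w⟩
  · exact ⟨[], Nat.zero_le _, Eqv.refl _ _⟩
  generalize a0 :: w = w at hr
  let c : ℕ → α := fun i => w.getD i a0
  have h0 : bw c (fun _ => 1) w.length = w := by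
    simp only [bw, List.replicate_one, ← List.map_eq_flatMap]
    exact List.ext_getElem (by simp) fun i h1 h2 => by simp [c, h2]
  obtain ⟨e, he, hmin⟩ := exists_minimalFor_of_wellFoundedLT
    (fun e => Eqv 2 (ws (bw c e w.length)) (ws w))
    (fun e : ℕ → ℕ => #{i ∈ range w.length | e i ≠ 0}) ⟨fun _ => 1, by rw [h0]; exact Eqv.refl _ _⟩
  have h1 : ∀ a, #{i ∈ range w.length | e i ≠ 0 ∧ c i = a} ≤ r := fun a => by
    by_contra h
    obtain ⟨e', h2, h3⟩ := shrink c e w.length a (by
      rw [he.length]; exact hr.trans_le (Nat.pow_le_pow_right (by omega) (by omega)))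
    exact absurd (hmin (h2.trans he) h3.le) (not_le.2 h3)
  refine ⟨((List.range w.length).filter fun i => e i ≠ 0).map fun i => (c i, e i), ?_, ?_⟩
  · have h2 := card_le_mul_card_image_of_maps_to (f := c) (s := {i ∈ range w.length | e i ≠ 0})
      (t := univ) (fun _ _ => mem_univ _) r fun a _ => by simpa only [filter_filter] using h1 a
    rw [List.length_map, mul_comm]
    exact h2
  · convert he using 2
    rw [List.flatMap_map, bw]
    induction List.range w.length with
    | nil => rfl
    | cons i l ih => by_cases h : e i = 0 <;> simp_all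

end

theorem range_flatMap {β γ : Type} (f : β → List γ) (d : β) (hd : f d = []) (l : List β) :
    ∀ L, l.length ≤ L → ((List.range L).flatMap fun i => f (l.getD i d)) = l.flatMap f := by
  induction l with
  | nil => intro L _; simp [hd]
  | cons x l ih =>
    intro L hL
    obtain ⟨L, rfl⟩ := Nat.exists_eq_add_of_le' (Nat.one_le_of_lt hL)
    rw [List.range_succ_eq_map, List.flatMap_cons, List.flatMap_map, List.flatMap_cons,
      ← ih L (by simpa using hL)]
    rfl

theorem sum_testBit (x m : ℕ) : ∑ j ∈ range m, 2 ^ j * (x.testBit j).toNat = x % 2 ^ m := by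
  induction m with
  | zero => simp [Nat.mod_one]
  | succ m ih => rw [sum_range_succ, ih, Nat.mod_pow_succ, Nat.toNat_testBit]

theorem cast_sum (f : ℕ → ℕ) (n : ℕ) :
    ((∑ i ∈ range n, f i : ℕ) : ℤ) = ((List.range n).map fun i => (f i : ℤ)).sum := by
  induction n with
  | zero => rfl
  | succ n ih => simp [sum_range_succ, List.range_succ, ← ih]

theorem pair_prelude {R : List Bool × List Bool → Bool} (h : PT R) : N68a2faeb.IsPolyTime R := by
  have h1 := (Rl.comp (Rl.fstW (fun a : List Bool × List Bool => N487b59b3.bitEncode a.1)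
    fun a => N487b59b3.bitEncode a.2) (rl_dec.reindex Prod.fst)).fork
    (Rl.comp (Rl.sndW (fun a : List Bool × List Bool => N487b59b3.bitEncode a.1)
    fun a => N487b59b3.bitEncode a.2) (rl_dec.reindex Prod.snd))
  have e : (fun a : List Bool × List Bool => pairW (N487b59b3.bitEncode a.1)
      (N487b59b3.bitEncode a.2)) = N487b59b3.bitEncode := funext fun a => by
    show _ = N487b59b3.delimit (N487b59b3.bitEncode a.1) ++ _
    rw [delimit_eq, List.append_assoc]; rfl
  rw [e] at h1
  exact Rl.toTM2 (Rl.comp h1 h)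

theorem two_np (k : ℕ) (hk : 0 < k) : specLang k 2 ∈ N68a2faeb.NP := by
  let J : List Bool → ℕ := fun y => y.length + k + 2 + 1
  let L : List Bool → ℕ := fun y => k * (k * (2 * J y + 1))
  let num : List Bool × List Bool → ℕ → ℕ := fun x i =>
    ∑ j ∈ range (J x.1 + 1), 2 ^ j * (x.2.getD (i * (J x.1 + 1) + j) false).toNat
  let c : List Bool × List Bool → ℕ → Fin k := fun x i => ⟨num x (2 * i) % k, Nat.mod_lt _ hk⟩
  let W : List Bool × List Bool → ℕ → List (Fin k) := fun x => bw (c x) fun i => num x (2 * i + 1)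
  have hJ : PT J := by fun_prop
  have hL : PT L := by fun_prop
  have hn : PT fun q : (List Bool × List Bool) × ℕ => (num q.1 q.2 : ℤ) := by
    have : PT fun q : (List Bool × List Bool) × ℕ => ((List.range (J q.1.1 + 1)).map fun j =>
        (2 : ℤ) ^ j * cond (q.1.2.getD (q.2 * (J q.1.1 + 1) + j) false) 1 0).sum := by fun_prop
    refine this.of_eq fun q => (cast_sum _ _).symm ▸ congrArg _ (List.map_congr_left fun j _ => ?_)
    cases q.1.2.getD (q.2 * (J q.1.1 + 1) + j) false <;> simp
  have he : PT fun q : (List Bool × List Bool) × ℕ => (num q.1 (2 * q.2 + 1) : ℤ) :=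
    hn.comp (g := fun q : (List Bool × List Bool) × ℕ => (q.1, 2 * q.2 + 1)) (by fun_prop)
  have hc : ∀ a, PT fun q : (List Bool × List Bool) × ℕ => decide (c q.1 q.2 = a) := fun a =>
    ((PT.divMod (g := fun _ => k) (hn.comp (g := fun q : (List Bool × List Bool) × ℕ =>
      (q.1, 2 * q.2)) (by fun_prop)) (PT.const _) fun _ => hk).snd.intEq
      (PT.const (a.val : ℤ))).of_eq fun q => by
        simp only [c, Fin.ext_iff, Nat.cast_inj]
  have h1 : ∀ b, PT fun q : (List Bool × List Bool) × ℕ => ((W q.1 q.2).count b : ℤ) := fun b => by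
    have h := (hc b).cond he (PT.const 0)
    refine (PT.map (l := fun q : (List Bool × List Bool) × ℕ => List.range q.2)
      (g := fun q i => cond (decide (c q.1 i = b)) (num q.1 (2 * i + 1) : ℤ) 0) (by fun_prop)
      (h.comp (g := fun p : ((List Bool × List Bool) × ℕ) × ℕ => (p.1.1, p.2))
        (by fun_prop))).intSum.of_eq fun q => ?_
    rw [bw_count, cast_sum]
    exact congrArg _ (List.map_congr_left fun j _ => by by_cases h : c q.1 j = b <;> simp [h])
  have h2 : ∀ u ∈ words k 2, PT fun x => ws (W x (L x.1)) u := fun u hu => by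
    obtain ⟨b, a, rfl⟩ := List.length_eq_two.1 (mem_words.1 hu)
    by_cases h : b = a
    · subst h
      have h4 : PT fun x : List Bool × List Bool => (x, L x.1) := by fun_prop
      have h5 := (h1 b).comp h4
      have h6 := Nice.pt (P := fun (x : List Bool × List Bool) (_ : Unit) => (W x (L x.1)).count b)
        (fun _ => h5) (Nice.choose (n := fun p => p ()) (Nice.var ()) 2)
      exact h6.of_eq fun x => by rw [ws_apply, occ2_diag]
    · refine (PT.map (l := fun x : List Bool × List Bool => List.range (L x.1))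
        (g := fun x i => cond (decide (c x i = a)) ((num x (2 * i + 1) : ℤ) * (W x i).count b) 0)
        (by fun_prop) ((hc a).cond (he.intMul (h1 b)) (PT.const 0))).intSum.of_eq fun x => ?_
      rw [ws_apply, bw_occ _ _ _ h, cast_sum]
      exact congrArg _ (List.map_congr_left fun j _ => by
        by_cases h : c x j = a <;> simp [h, W])
  have h3 : ∀ l : List (List (Fin k)), (∀ u ∈ l, u ∈ words k 2) →
      PT fun x => l.map (ws (W x (L x.1))) := fun l hl => by
    induction l with
    | nil => exact PT.const []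
    | cons u l ih => exact (h2 u (hl u (by simp))).cons (ih fun v hv => hl v (by simp [hv]))
  have b0 : Bd List.length J := (Bd.self _).add (Bd.const _ (k + 2 + 1))
  obtain ⟨p, hp⟩ : Bd List.length fun y => 2 * L y * (J y + 1) := ((Bd.const _ _).mul
    ((Bd.const _ _).mul ((Bd.const _ _).mul (((Bd.const _ _).mul b0).add (Bd.const _ _))))).mul
    (b0.add (Bd.const _ _))
  refine ⟨p, fun x => decide (encZ ((words k 2).map (ws (W x (L x.1)))) = x.1), pair_prelude
    (PT.bitsEq (pt_encZ.comp (h3 _ fun _ h => h)) (by fun_prop)), fun y => ?_⟩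
  simp only [specLang, decide_eq_true_eq]
  refine ⟨?_, fun ⟨z, _, h⟩ => ⟨_, (spec_enc _).trans h⟩⟩
  rintro ⟨w, hw⟩
  have h4 : w.length ≤ 2 ^ J y := hw ▸ length_le_two_pow (by omega) w
  obtain ⟨l, h5, h6⟩ := few_blocks w (r := k * (2 * J y + 1)) (by
    have : w.length ^ 2 + 1 ≤ 2 ^ (2 * J y + 1) := by
      have := Nat.pow_le_pow_left h4 2
      rw [← pow_mul, mul_comm] at this
      have := Nat.one_le_two_pow (n := 2 * J y)
      omega
    refine (Nat.pow_le_pow_left this _).trans_lt ?_
    rw [← pow_mul, Fintype.card_fin, mul_comm]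
    exact Nat.pow_lt_pow_right (by omega) (Nat.lt_succ_self _))
  rw [Fintype.card_fin] at h5
  let d : ℕ → Fin k × ℕ := fun i => l.getD i (⟨0, hk⟩, 0)
  let val : ℕ → ℕ := fun i => if i % 2 = 0 then (d (i / 2)).1 else (d (i / 2)).2
  have h7 : ∀ i, val i < 2 ^ (J y + 1) := fun i => by
    have h8 : k < 2 ^ J y := Nat.lt_two_pow_self.trans_le
      (Nat.pow_le_pow_right (by omega) (by simp only [J]; omega))
    have h9 : (d (i / 2)).2 ≤ w.length := by
      rcases Nat.lt_or_ge (i / 2) l.length with h | h
      · rw [← h6.length, List.length_flatMap]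
        refine List.single_le_sum (by simp) _ (List.mem_map.2 ⟨_, List.getElem_mem h, ?_⟩)
        simp [d, h]
      · simp [d, h]
    have := (d (i / 2)).1.2
    simp only [val]
    split_ifs <;> omega
  let z := (List.range (2 * L y * (J y + 1))).map fun q =>
    (val (q / (J y + 1))).testBit (q % (J y + 1))
  have h8 : ∀ i < 2 * L y, num (y, z) i = val i := fun i hi => by
    rw [← Nat.mod_eq_of_lt (h7 i), ← sum_testBit]
    refine sum_congr rfl fun j hj => ?_
    have hj := mem_range.1 hj
    have : i * (J y + 1) + j < 2 * L y * (J y + 1) := by nlinarith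
    simp only [z, List.getD_eq_getElem?_getD, List.getElem?_map, List.getElem?_range this,
      Option.map_some, Option.getD_some, ← (divmod_eq rfl hj).1, ← (divmod_eq rfl hj).2]
  refine ⟨z, by simpa [z] using hp y, ?_⟩
  refine Eq.trans (congrArg _ (List.map_congr_left fun u hu =>
    Eq.trans ?_ (h6 u (mem_words.1 hu).le))) ((spec_enc w).symm.trans hw)
  rw [← range_flatMap (fun p => List.replicate p.2 p.1) (⟨0, hk⟩, 0) rfl l _ h5]
  congr 1
  refine List.flatMap_congr fun i hi => ?_
  have hi : i < L y := List.mem_range.1 hi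
  simp only [c, h8 (2 * i) (by omega), h8 (2 * i + 1) (by omega), val, Nat.mul_mod_right, if_true,
    Nat.mul_add_mod, Nat.mul_div_cancel_left i two_pos, show (2 * i + 1) / 2 = i by omega,
    Nat.mod_eq_of_lt (d i).1.2]
  rfl

theorem np_complete : ∃ k0 : ℕ, ∀ k, k0 ≤ k → specLang k 2 ∈ N68a2faeb.NP ∧
    ∀ L ∈ N68a2faeb.NP, ∃ f : List Bool → List Bool,
      N68a2faeb.IsPolyTime f ∧ ∀ x, L x = specLang k 2 (f x) := by
  obtain ⟨k0, h⟩ := pres_qs.final le_rfl
  refine ⟨k0 + 1, fun k hk => ⟨two_np k (by omega), fun L hL => ?_⟩⟩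
  obtain ⟨K, H, M, ρ, hK, hH, hM, hρ, hq⟩ := quad_hard L hL
  refine Expr.reduce' (h k (by omega)) (P := fun x => ![K x, K x, H x, 0, M x, ρ x])
    (fun i => ?_) hq
  fin_cases i
  exacts [hK, hK, hH, PT.const 0, hM, hρ]

theorem few_blocks_size (k : ℕ) (w : List (Fin k)) : ∃ l : List (Fin k × ℕ),
    l.length ≤ 2 * k ^ 2 * Nat.size w.length ∧ ∀ u : List (Fin k), u.length ≤ 2 →
      occ (l.flatMap fun p => List.replicate p.2 p.1) u = occ w u := by
  obtain ⟨l, h1, h2⟩ := few_blocks w (r := 2 * w.length.size * k) (by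
    have := Nat.pow_lt_pow_left (Nat.lt_size_self w.length) two_ne_zero
    rw [← pow_mul, mul_comm] at this
    refine (Nat.pow_le_pow_left this _).trans_lt ?_
    rw [← pow_mul, Fintype.card_fin]
    exact Nat.pow_lt_pow_right (by omega) (Nat.lt_succ_self _))
  refine ⟨l, h1.trans (le_of_eq ?_), fun u hu => by simpa [ws_apply] using h2 u hu⟩
  rw [Fintype.card_fin]; ring

end Pool.Agent.P.MP_26ce3f_co
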