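import Pool.Agent.P.MP_26ce3f_co.PS.Lin

/-! Reachability in guarded systems is expressed by spectra. -/

namespace Pool.Agent.P.MP_26ce3f_co

open Ser

variable {α ι G : Type}

/-- The predicate `φ` is expressed by the `t`-spectra over an alphabet. -/
def Expr (φ : (ι → ℕ) → Prop) (A : Type) [DecidableEq A] (t : ℕ) : Prop :=
  ∃ g : (ι → ℕ) → Ser A, NiceS g ∧ ∀ p, (φ p → ∃ w, Eqv t (ws w) (g p)) ∧
    ((∃ w, ∀ u : List A, u.length = t → ws w u = g p u) → φ p)

theorem length_flatMap_const {A : Type} {e : α → List A} {l : ℕ} (h : ∀ c, (e c).length = l)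
    (w : List α) : (w.flatMap e).length = l * w.length := by
  induction w with
  | nil => simp
  | cons c w ih => rw [List.flatMap_cons, List.length_append, ih, h, List.length_cons]; ring

theorem flatMap_inj {A : Type} {e : α → List A} (he : Function.Injective e) {l : ℕ} (hl : 0 < l)
    (h : ∀ c, (e c).length = l) {v w : List α} (hvw : v.flatMap e = w.flatMap e) : v = w := by
  induction v generalizing w with
  | nil =>
    have := length_flatMap_const h w
    rw [← hvw] at this
    cases w with
    | nil => rfl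
    | cons d w => simp at this; omega
  | cons c v ih =>
    cases w with
    | nil =>
      have := length_flatMap_const h (c :: v)
      rw [hvw] at this
      simp at this; omega
    | cons d w =>
      rw [List.flatMap_cons, List.flatMap_cons] at hvw
      obtain ⟨h1, h2⟩ := List.append_inj hvw (by rw [h, h])
      rw [he h1, ih h2]

theorem flatMap_wpow {A : Type} (e : α → List A) (w : List α) (n : ℕ) :
    (wpow w n).flatMap e = wpow (w.flatMap e) n := by
  induction n with
  | zero => rfl
  | succ n ih => simp only [wpow, List.replicate_succ, List.flatten_cons, List.flatMap_append] at ih ⊢; rw [ih]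

theorem length_wpow (w : List α) (n : ℕ) : (wpow w n).length = n * w.length := by
  simp [wpow]

theorem GS.expr (S : GS α G) {A : Type} [DecidableEq A] [Fintype A] {e : α → List A} {t : ℕ}
    (ht : 1 ≤ t) (he : S.Rigid e t) (h : (ι → ℕ) → List α) (hN : NI fun p => (h p).flatMap e)
    (B : (ι → ℕ) → ℕ) (hB : Nice fun p => (B p : ℤ)) (hhB : ∀ p, (h p).length ≤ B p)
    {l0 : List α} (hl0 : S.Loop l0) (hl1 : l0 ≠ []) {φ : (ι → ℕ) → Prop}
    (hc : ∀ p, φ p → ∃ v, S.Loop (v ++ h p) ∧ (v ++ h p).length ≤ B p)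
    (hs : ∀ p v, S.Loop (v ++ h p) → φ p) : Expr φ A t := by
  obtain ⟨l, hl, hlen⟩ := he.len
  have hM : Mon fun z : List A => ∃ w, S.Loop w ∧ z = w.flatMap e := ⟨⟨[], S.mon.nil, rfl⟩, by
    rintro _ _ ⟨u, hu, rfl⟩ ⟨v, hv, rfl⟩
    exact ⟨u ++ v, S.mon.app hu hv, List.flatMap_append.symm⟩⟩
  obtain ⟨W0, w1, w2, w3⟩ := absorbAll hM t
  obtain ⟨g, g1, g2⟩ := hN
  have g3 : ∀ p, g p [] = 1 := fun p => by simpa using congrFun (g2 p) []
  have g4 : ∀ p, ws ((h p).flatMap e) * g p = 1 := fun p => by
    obtain ⟨g', hg'⟩ := exists_inv (g3 p)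
    have : g' = ws ((h p).flatMap e) := by
      rw [← one_mul (ws _), ← hg', mul_assoc, g2, mul_one]
    rw [← this, hg']
  have n1 : Nice fun p => ((l * B p : ℕ) : ℤ) :=
    ((Nice.const l).mul hB).of_eq fun p => by push_cast; rfl
  have n2 : Nice fun p => ((B p + t : ℕ) : ℤ) :=
    (hB.add (Nice.const t)).of_eq fun p => by push_cast; rfl
  refine ⟨fun p => ws (wpow (l0.flatMap e) (B p + t) ++ W0 (l * B p)) * g p,
    (((NiceS.pow (ws_one (l0.flatMap e)) n2).mul (w2 _ n1)).mul g1).of_eq fun p => by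
      rw [ws_append, ws_wpow], fun p => ⟨fun hp => ?_, ?_⟩⟩
  · obtain ⟨v, hv, hvl⟩ := hc p hp
    obtain ⟨Q, _, hQ⟩ := w3 (l * B p) _ ⟨_, hv, rfl⟩ (by
      rw [length_flatMap_const hlen]; exact Nat.mul_le_mul_left _ hvl)
    refine ⟨wpow (l0.flatMap e) (B p + t) ++ (Q ++ v.flatMap e), ?_⟩
    have := ((Eqv.refl t (ws (wpow (l0.flatMap e) (B p + t)))).mul hQ).mul (Eqv.refl t (g p))
    rw [List.flatMap_append, ← List.append_assoc, ws_append _ ((h p).flatMap e), ← mul_assoc,
      mul_assoc _ _ (g p), g4, mul_one, ← ws_append, ← ws_append] at this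
    exact this
  · rintro ⟨w, hw⟩
    obtain ⟨W, hW, eW⟩ := hM.app (hM.wpow ⟨l0, hl0, rfl⟩ (B p + t)) (w1 (l * B p))
    beta_reduce at hw
    have hlong : ((h p).flatMap e).length + t ≤ (W.flatMap e).length := by
      rw [← eW, List.length_append, length_wpow, length_flatMap_const hlen,
        length_flatMap_const hlen]
      have h1 : 1 ≤ l0.length := List.length_pos_iff.2 hl1
      have h2 := hhB p
      have h3 : l * (h p).length ≤ l * B p := Nat.mul_le_mul_left _ h2
      have h4 : (B p + t) * l ≤ (B p + t) * (l * l0.length) :=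
        Nat.mul_le_mul_left _ (Nat.le_mul_of_pos_right _ h1)
      nlinarith
    rw [eW] at hw
    obtain ⟨n, hn⟩ := Nat.exists_eq_add_of_le (le_trans (Nat.le_add_right _ _) hlong)
    have e1 : ws (W.flatMap e) * g p * ws ((h p).flatMap e) = ws (W.flatMap e) := by
      rw [mul_assoc, g2, mul_one]
    have hD : Dop (ws (W.flatMap e) * g p) = (n : ℤ) • (ws (W.flatMap e) * g p) := by
      have := congrArg Dop e1
      rw [Dop_mul, Dop_ws, Dop_ws, mul_smul_comm, e1, hn] at this
      have h2 := congrArg (· * g p) this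
      simp only [add_mul, mul_assoc, g4, mul_one, smul_mul_assoc] at h2
      push_cast at h2
      rw [add_smul, add_comm] at h2
      exact add_left_cancel h2
    have h3 := (eqv_of_top ht (by omega) (by simp [g3]) hD w hw).mul
      (Eqv.refl t (ws ((h p).flatMap e)))
    rw [e1, ← ws_append] at h3
    obtain ⟨v, hv, hv'⟩ := he.rig _ W hW h3
    have h4 := congrArg List.length hv
    rw [List.length_append, length_flatMap_const hlen, length_flatMap_const hlen] at h4
    have h5 : (h p).length ≤ v.length := Nat.le_of_mul_le_mul_left (by omega) hl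
    rw [← List.take_append_drop (v.length - (h p).length) v, List.flatMap_append] at hv
    have h6 := (List.append_inj' hv (by
      rw [length_flatMap_const hlen, length_flatMap_const hlen, List.length_drop]
      congr 1; omega)).2
    have h7 := flatMap_inj he.inj hl hlen h6
    refine hs p (v.take (v.length - (h p).length)) ?_
    have h8 := List.take_append_drop (v.length - (h p).length) v
    rw [← h7] at h8
    rw [h8]
    exact hv'

/-- The predicate is expressed by spectra in all but finitely many cases. -/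
def Large (φ : (ι → ℕ) → Prop) : Prop :=
  ∃ N, ∀ k t, 2 ≤ k → 3 ≤ t → N ≤ k + t → Expr φ (Fin k) t

theorem GS.large [Fintype α] (S : GS α G) (h : (ι → ℕ) → List α)
    (hN : ∀ (k : ℕ) (e : α → List (Fin k)), NI fun p => (h p).flatMap e)
    (B : (ι → ℕ) → ℕ) (hB : Nice fun p => (B p : ℤ)) (hhB : ∀ p, (h p).length ≤ B p)
    {l0 : List α} (hl0 : S.Loop l0) (hl1 : l0 ≠ []) {φ : (ι → ℕ) → Prop}
    (hc : ∀ p, φ p → ∃ v, S.Loop (v ++ h p) ∧ (v ++ h p).length ≤ B p)
    (hs : ∀ p v, S.Loop (v ++ h p) → φ p) : Large φ := by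
  refine ⟨5 * Fintype.card α + 3, fun k t hk ht hkt => ?_⟩
  rcases Nat.lt_or_ge k (Fintype.card α) with h1 | h1
  · exact S.expr (by omega) (S.rigid_binary (a := (⟨0, by omega⟩ : Fin k)) (b := ⟨1, by omega⟩)
      (Fintype.equivFin α) (by simp) (by omega)) h (hN _ _) B hB hhB hl0 hl1 hc hs
  · obtain ⟨e⟩ : Nonempty (α ↪ Fin k) :=
      Function.Embedding.nonempty_of_card_le (by simpa using h1)
    exact S.expr (by omega) (S.rigid_unary e.injective ht) h (hN _ _) B hB hhB hl0 hl1 hc hs

section Ext
variable [DecidableEq α] [DecidableEq G] (S : GS α G) (a : α)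

/-- The mode counter. -/
def mu : α ⊕ Option (G × Bool) → ℤ
  | .inl c => if c = a then 1 else 0
  | .inr none => -1
  | .inr (some _) => 0

/-- The system with helper letters, which are available after the letter `a`. -/
def GS.ext : GS (α ⊕ Option (G × Bool)) (G ⊕ (G × Bool)) where
  x := Sum.elim (fun g => .inl (S.x g)) fun b => .inr (some b)
  lam := Sum.elim (fun g => Sum.elim (S.lam g) fun o =>
    o.elim 0 fun b => if b.1 = g then cond b.2 1 (-1) else 0) fun _ => mu a

variable [Fintype G]

/-- Words of helper letters. -/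
noncomputable def Hw (α : Type) (P N : G → ℕ) : List (α ⊕ Option (G × Bool)) :=
  (Finset.univ : Finset G).toList.flatMap fun g =>
    List.replicate (P g) (.inr (some (g, true))) ++ List.replicate (N g) (.inr (some (g, false)))

omit [DecidableEq α] [DecidableEq G] in
theorem mem_Hw {P N : G → ℕ} {c : α ⊕ Option (G × Bool)} (h : c ∈ Hw α P N) :
    ∃ b, c = .inr (some b) := by
  simp only [Hw, List.mem_flatMap, List.mem_append, List.mem_replicate] at h
  obtain ⟨g, _, h | h⟩ := h <;> exact ⟨_, h.2⟩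

theorem wt_flatMap {κ : Type} (l : α → ℤ) (s : List κ) (f : κ → List α) :
    wt l (s.flatMap f) = (s.map fun k => wt l (f k)).sum := by
  induction s with
  | nil => rfl
  | cons k s ih => simp [ih]

theorem wt_Hw (P N : G → ℕ) (g : G) :
    wt ((S.ext a).lam (.inl g)) (Hw α P N) = P g - N g := by
  classical
  rw [Hw, wt_flatMap, Finset.sum_map_toList, Finset.sum_eq_single g]
  · simp [GS.ext]; ring
  · intro b _ hb
    simp [GS.ext, hb]
  · simp

omit [DecidableEq α] [DecidableEq G] in
theorem length_Hw (P N : G → ℕ) : (Hw α P N).length = ∑ g, (P g + N g) := by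
  rw [Hw, List.length_flatMap, Finset.sum_map_toList]
  simp

omit [Fintype G] in
theorem valid_help (w : List (α ⊕ Option (G × Bool))) (hw : ∀ c ∈ w, ∃ b, c = .inr (some b))
    (o : G ⊕ (G × Bool) → ℤ) (ho : ∀ b, o (.inr b) = 0) :
    (S.ext a).Valid o w ∧ wt (mu a) w = 0 := by
  induction w with
  | nil => exact ⟨trivial, rfl⟩
  | cons c w ih =>
    obtain ⟨h1, h2⟩ := ih fun c hc => hw c (List.mem_cons_of_mem _ hc)
    obtain ⟨b, rfl⟩ := hw c List.mem_cons_self
    refine ⟨⟨h1, ?_⟩, by simp [h2, mu]⟩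
    rintro (g | g) hg
    · simp [GS.ext] at hg
    · simp [GS.ext, ho, h2]

omit [Fintype G] in
theorem valid_inl (v : List α) (o : G ⊕ (G × Bool) → ℤ) (hv : S.Valid (fun g => o (.inl g)) v) :
    (S.ext a).Valid o (v.map .inl) ∧
      (∀ g, wt ((S.ext a).lam (.inl g)) (v.map .inl) = wt (S.lam g) v) ∧
      (a ∉ v → wt (mu (G := G) a) (v.map .inl) = 0) := by
  induction v with
  | nil => exact ⟨trivial, fun _ => rfl, fun _ => rfl⟩
  | cons c v ih =>
    obtain ⟨h1, h2, h3⟩ := ih hv.1
    refine ⟨⟨h1, ?_⟩, fun g => by rw [List.map_cons, wt_cons, wt_cons, h2]; rfl, fun ha => ?_⟩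
    · rintro (g | g) hg
      · rw [h2]
        exact hv.2 g (by simpa [GS.ext] using hg)
      · simp [GS.ext] at hg
    · simp only [List.mem_cons, not_or] at ha
      simp [h3 ha.2, mu, Ne.symm ha.1]

omit [Fintype G] in
theorem sound_ext (w : List (α ⊕ Option (G × Bool))) (o : G ⊕ (G × Bool) → ℤ)
    (ho : ∀ b, o (.inr b) = -1) (hw : (S.ext a).Valid o w) :
    (∃ v, a ∉ v ∧ S.Valid (fun g => o (.inl g)) v ∧
      (∀ g, wt ((S.ext a).lam (.inl g)) w = wt (S.lam g) v) ∧ wt (mu (G := G) a) w ≤ 0) ∨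
    ∃ v, a ∉ v ∧ S.Valid (fun g => o (.inl g)) (a :: v) := by
  induction w with
  | nil => exact Or.inl ⟨[], by simp, trivial, fun _ => rfl, le_rfl⟩
  | cons c w ih =>
    rcases ih hw.1 with ⟨v, h1, h2, h3, h4⟩ | h
    swap
    · exact Or.inr h
    rcases c with c | _ | b
    · have h5 : S.Valid (fun g => o (.inl g)) (c :: v) := ⟨h2, fun g hg => by
        rw [← h3]
        exact hw.2 (.inl g) (by simp [GS.ext, hg])⟩
      by_cases hc : c = a
      · exact Or.inr ⟨v, h1, hc ▸ h5⟩
      · refine Or.inl ⟨c :: v, by simp [h1, Ne.symm hc], h5, fun g => ?_, by simpa [mu, hc] using h4⟩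
        rw [wt_cons, wt_cons, h3]; rfl
    · refine Or.inl ⟨v, h1, h2, fun g => ?_, by simp [mu]; omega⟩
      rw [wt_cons, h3]; simp [GS.ext]
    · have := hw.2 (.inr b) rfl
      rw [ho] at this
      simp only [GS.ext, Sum.elim_inr] at this
      omega

omit [DecidableEq α] [DecidableEq G] [Fintype G] in
theorem abs_wt_le (l : α → ℤ) (C : ℕ) (h : ∀ c, (l c).natAbs ≤ C) (v : List α) :
    (wt l v).natAbs ≤ C * v.length := by
  induction v with
  | nil => simp
  | cons c v ih =>
    have := h c
    rw [wt_cons, List.length_cons, Nat.mul_succ]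
    omega

/-- Reachability of the letter `a` from parametric initial values. -/
theorem GS.large_reach [Fintype α] [Nonempty G] (P N : (ι → ℕ) → G → ℕ)
    (hP : ∀ g, Nice fun p => (P p g : ℤ)) (hN : ∀ g, Nice fun p => (N p g : ℤ))
    (B : (ι → ℕ) → ℕ) (hB : Nice fun p => (B p : ℤ)) {φ : (ι → ℕ) → Prop}
    (hc : ∀ p, φ p → ∃ v, a ∉ v ∧ S.Valid (fun g => (P p g : ℤ) - N p g) (a :: v) ∧
      v.length ≤ B p)
    (hs : ∀ p v, a ∉ v → S.Valid (fun g => (P p g : ℤ) - N p g) (a :: v) → φ p) : Large φ := by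
  let C : ℕ := ∑ g, ∑ c, (S.lam g c).natAbs
  have hC : ∀ g c, (S.lam g c).natAbs ≤ C := fun g c =>
    (Finset.single_le_sum (f := fun c => (S.lam g c).natAbs) (fun _ _ => Nat.zero_le _)
      (Finset.mem_univ c)).trans (Finset.single_le_sum
        (f := fun g => ∑ c, (S.lam g c).natAbs) (fun _ _ => Nat.zero_le _) (Finset.mem_univ g))
  have hv : ∀ p, (S.ext a).Valid 0 (.inr none :: Hw α (P p) (N p)) := fun p =>
    ⟨(valid_help S a _ (fun _ => mem_Hw) 0 fun _ => rfl).1, by
      rintro (g | g) hg <;> simp [GS.ext] at hg⟩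
  have hm : ∀ P N : G → ℕ, wt (mu a) (Hw α P N) = 0 := fun P N =>
    (valid_help S a _ (fun _ => mem_Hw) 0 fun _ => rfl).2
  have ho1 : ∀ p g, wt ((S.ext a).lam (.inl g)) (.inr none :: Hw α (P p) (N p)) =
      (P p g : ℤ) - N p g := fun p g => by rw [wt_cons, wt_Hw]; simp [GS.ext]
  have ho2 : ∀ p b, wt ((S.ext a).lam (.inr b)) (.inr none :: Hw α (P p) (N p)) = -1 :=
    fun p b => by simp [GS.ext, hm, mu]
  obtain ⟨g0⟩ := ‹Nonempty G›
  refine (S.ext a).large (fun p => .inr none :: Hw α (P p) (N p)) (fun k e => ?_)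
    (fun p => ∑ g, (2 * (P p g + N p g) + C * (B p + 1)) + B p + 2) ?_ (fun p => ?_)
    (l0 := Hw α (fun _ => 1) fun _ => 1) ?_ ?_ (fun p hp => ?_) fun p w hw => ?_
  · have rp : ∀ (c : α ⊕ Option (G × Bool)) (n : ℕ),
        (List.replicate n c).flatMap e = wpow (e c) n := fun c n => by
      simp [wpow, List.flatMap_def]
    simp only [List.flatMap_cons, Hw, List.flatMap_assoc, List.flatMap_append, rp]
    exact (NI.const _).append (NI.flatMap _ fun g => (NI.wpow _ (hP g)).append (NI.wpow _ (hN g)))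
  · exact (((Nice.sum Finset.univ fun g _ => ((Nice.const 2).mul ((hP g).add (hN g))).add
      ((Nice.const C).mul (hB.add (Nice.const 1)))).add hB).add (Nice.const 2)).of_eq fun p => by
        push_cast; rfl
  · rw [List.length_cons, length_Hw]
    have := Finset.sum_le_sum (s := Finset.univ) (f := fun g => P p g + N p g)
      (g := fun g => 2 * (P p g + N p g) + C * (B p + 1)) fun g _ => by omega
    omega
  · refine ⟨(valid_help S a _ (fun _ => mem_Hw) 0 fun _ => rfl).1, ?_⟩
    rintro (g | g)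
    · rw [wt_Hw]; simp
    · exact hm _ _
  · intro h0
    have := length_Hw (α := α) (fun _ : G => 1) fun _ => 1
    rw [h0] at this
    have h2 := Finset.single_le_sum (f := fun _ : G => 1 + 1) (fun _ _ => Nat.zero_le _)
      (Finset.mem_univ g0)
    simp only [List.length_nil] at this
    omega
  · obtain ⟨v, h1, h2, h3⟩ := hc p hp
    let d : G → ℤ := fun g => (P p g : ℤ) - N p g + wt (S.lam g) (a :: v)
    obtain ⟨k1, k2, -⟩ := valid_inl S a (a :: v)
      (fun g => (0 : G ⊕ (G × Bool) → ℤ) g + wt ((S.ext a).lam g) (.inr none :: Hw α (P p) (N p)))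
      (by simpa only [ho1, Pi.zero_apply, zero_add] using h2)
    have k3 : wt (mu (G := G) a) ((a :: v).map .inl) = 1 := by
      rw [List.map_cons, wt_cons, (valid_inl S a v (Sum.elim _ 0) h2.1).2.2 h1]
      simp [mu]
    refine ⟨Hw α (fun g => (-d g).toNat) (fun g => (d g).toNat) ++ (a :: v).map .inl, ⟨?_, ?_⟩, ?_⟩
    · rw [List.append_assoc, GS.valid_append, GS.valid_append]
      refine ⟨⟨hv p, k1⟩, (valid_help S a _ (fun _ => mem_Hw) _ fun b => ?_).1⟩
      rw [wt_append, ho2]
      simp only [GS.ext, Sum.elim_inr, k3]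
      simp
    · rintro (g | g)
      · rw [wt_append, wt_append, wt_Hw, k2, ho1]
        simp only [d]
        omega
      · rw [wt_append, wt_append, ho2]
        simp only [GS.ext, Sum.elim_inr, k3, hm]
        simp
    · simp only [List.length_append, List.length_cons, List.length_map, length_Hw]
      have := Finset.sum_le_sum (s := Finset.univ)
        (f := fun g => ((-d g).toNat + (d g).toNat) + (P p g + N p g))
        (g := fun g => 2 * (P p g + N p g) + C * (B p + 1)) fun g _ => by
          have h4 := abs_wt_le _ C (hC g) (a :: v)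
          have h5 : C * (a :: v).length ≤ C * (B p + 1) :=
            Nat.mul_le_mul_left _ (by simpa using h3)
          simp only [d]
          omega
      rw [Finset.sum_add_distrib] at this
      omega
  · have h1 := ((S.ext a).valid_append _ _ _).1 hw.1
    rcases sound_ext S a w _ (fun b => by rw [ho2]; simp) h1.2 with ⟨v, _, _, _, h4⟩ | ⟨v, h2, h3⟩
    · have := hw.2 (.inr (g0, true))
      rw [wt_append, ho2] at this
      simp only [GS.ext, Sum.elim_inr] at this
      omega
    · exact hs p v h2 (by simpa only [ho1, Pi.zero_apply, zero_add] using h3)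

end Ext

end Pool.Agent.P.MP_26ce3f_co
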