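import Pool.Agent.P.MP_26ce3f_co.PS.Kat

/-! Iteration of a Diophantine step relation. -/

namespace Pool.Agent.P.MP_26ce3f_co

open Function

section
variable {A : Type} [AddCommGroup A]

/-- Repeated translation. -/
def rep (e : A) : Pg A := .star (.act 0 e)

theorem rep_den {e r s : A} (h : (rep e).Den r s) : ∃ m : ℕ, s = r + m • e := by
  induction h with
  | refl => exact ⟨0, by simp⟩
  | tail _ h ih =>
    obtain ⟨m, rfl⟩ := ih
    exact ⟨m + 1, by rw [h.2, succ_nsmul, add_assoc]⟩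

theorem star_run {p : Pg A} (f : ℕ → A) (c n : ℕ) (h : ∀ i < n, p.Run (f i) (f (i + 1)) c) :
    (Pg.star p).Run (f 0) (f n) (n * (c + 1) + 1) := by
  induction n generalizing f with
  | zero => exact Pg.Run.nil.mono (by simp)
  | succ n ih =>
    exact ((h 0 (by omega)).cons (ih (fun i => f (i + 1)) fun i hi => h _ (by omega))).mono
      (by rw [Nat.succ_mul]; omega)

theorem rep_run (e r : A) (m : ℕ) {s : A} (hs : s = r + m • e) : (rep e).Run r s (2 * m + 1) := by
  have := star_run (p := .act 0 e) (fun i => r + i • e) 1 m fun i _ =>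
    (Pg.Run.act rfl).cast (by rw [succ_nsmul, add_assoc]) le_rfl
  simp only [zero_nsmul, add_zero] at this
  exact this.cast hs.symm (by omega)

theorem tst_run {l : A →+ ℤ} {r : A} (h : l r = 0) : (Pg.act l 0).Run r r 1 :=
  (Pg.Run.act h).cast (add_zero _) le_rfl

end

variable {V ι : Type} [DecidableEq V]

/-- Registers: the variables and three auxiliary counters. -/
abbrev Rg (V : Type) := (V → ℤ) × ℤ × ℤ × ℤ

/-- The registers attached to a valuation. -/
def em (v : V → ℕ) : Rg V := (fun r => (v r : ℤ), 0, 0, 0)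

/-- Linear tests. -/
def gv (x y z : V) (a b c i j k : ℤ) : Rg V →+ ℤ where
  toFun s := a * s.1 x + b * s.1 y + c * s.1 z + i * s.2.1 + j * s.2.2.1 + k * s.2.2.2
  map_zero' := by simp
  map_add' s t := by simp only [Prod.fst_add, Prod.snd_add, Pi.add_apply]; ring

omit [DecidableEq V] in
@[simp] theorem gv_apply (x y z : V) (a b c i j k : ℤ) (s : Rg V) : gv x y z a b c i j k s =
    a * s.1 x + b * s.1 y + c * s.1 z + i * s.2.1 + j * s.2.2.1 + k * s.2.2.2 := rfl

/-- Assignment of an arbitrary natural number. -/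
def setv (r : V) : Pg (Rg V) := .seq (rep (Pi.single r (-1), 0, 0, 0))
  (.seq (.act (gv r r r 1 0 0 0 0 0) 0) (rep (Pi.single r 1, 0, 0, 0)))

theorem setv_den {r : V} {v : V → ℕ} {s : Rg V} (h : (setv r).Den (em v) s) :
    ∃ m, s = em (update v r m) := by
  obtain ⟨_, h1, _, ⟨h2, rfl⟩, h3⟩ := h
  obtain ⟨a, rfl⟩ := rep_den h1
  obtain ⟨m, rfl⟩ := rep_den h3
  refine ⟨m, Prod.ext (funext fun x => ?_) (by simp [em])⟩
  by_cases hx : x = r
  · subst hx
    simp [em] at h2 ⊢
    omega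
  · simp [em, hx]

theorem setv_run (r : V) (v : V → ℕ) (m : ℕ) :
    (setv r).Run (em v) (em (update v r m)) (2 * v r + 2 * m + 5) := by
  refine ((rep_run _ _ (v r) (s := em (update v r 0)) ?_).seq
    ((tst_run (by simp [em])).seq (rep_run _ _ m ?_))).mono (by omega)
  all_goals
    refine Prod.ext (funext fun x => ?_) (by simp [em])
    by_cases hx : x = r
    · subst hx; simp [em]
    · simp [em, hx]

/-- One round of the multiplication loop. -/
def mulB (y : V) : Pg (Rg V) := .seq (rep (0, 0, 1, 1)) (.seq (.act (gv y y y (-1) 0 0 0 1 0) 0)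
  (.seq (rep (0, 0, -1, 0)) (.act (gv y y y 0 0 0 0 1 0) (0, 1, 0, 0))))

/-- The test `z = x * y`. -/
def mulc (x y z : V) : Pg (Rg V) := .seq (.star (mulB y))
  (.seq (.act (gv x x x (-1) 0 0 1 0 0) 0) (.seq (.act (gv z z z (-1) 0 0 0 0 1) 0)
    (.seq (rep (0, -1, 0, 0)) (.seq (.act (gv x x x 0 0 0 1 0 0) 0)
      (.seq (rep (0, 0, 0, -1)) (.act (gv x x x 0 0 0 0 0 1) 0))))))

omit [DecidableEq V] in
theorem mulc_den {x y z : V} {v : V → ℕ} {s : Rg V} (h : (mulc x y z).Den (em v) s) :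
    s = em v ∧ v z = v x * v y := by
  obtain ⟨t, h0, _, ⟨h1, rfl⟩, _, ⟨h2, rfl⟩, _, h3, _, ⟨h4, rfl⟩, _, h5, h6, rfl⟩ := h
  have key : ∃ i : ℤ, t = (fun r => (v r : ℤ), i, 0, i * v y) := by
    clear h1 h2 h3
    induction h0 with
    | refl => exact ⟨0, by simp [em]⟩
    | tail _ h ih =>
      obtain ⟨i, rfl⟩ := ih
      obtain ⟨_, k1, _, ⟨k2, rfl⟩, _, k3, k4, rfl⟩ := h
      obtain ⟨a, rfl⟩ := rep_den k1
      obtain ⟨b, rfl⟩ := rep_den k3
      simp at k2 k4
      refine ⟨i + 1, ?_⟩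
      simp
      constructor <;> linarith
  obtain ⟨i, rfl⟩ := key
  obtain ⟨a, rfl⟩ := rep_den h3
  obtain ⟨b, rfl⟩ := rep_den h5
  simp at h1 h2 h4 h6
  refine ⟨by simp [em, h4, h6], ?_⟩
  have : (v z : ℤ) = v x * v y := by
    have : i = v x := by linarith
    subst this; linarith
  exact_mod_cast this

omit [DecidableEq V] in
theorem mulc_run {x y z : V} {v : V → ℕ} (h : v z = v x * v y) :
    (mulc x y z).Run (em v) (em v) (v x * (4 * v y + 10) + 2 * v z + 13) := by
  let g : ℤ → ℤ → ℤ → Rg V := fun i j k => (fun r => (v r : ℤ), i, j, k)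
  have h1 := star_run (p := mulB y) (fun i => g i 0 (i * v y)) (4 * v y + 7) (v x) fun i _ => by
    have a1 := rep_run ((0, 0, 1, 1) : Rg V) (g i 0 (i * v y)) (v y)
      (s := g i (v y) ((i + 1) * v y)) (by simp [g]; ring)
    have a2 := tst_run (l := gv y y y (-1) 0 0 0 1 0) (r := g i (v y) ((i + 1) * v y))
      (by simp [g])
    have a3 := rep_run ((0, 0, -1, 0) : Rg V) (g i (v y) ((i + 1) * v y)) (v y)
      (s := g i 0 ((i + 1) * v y)) (by simp [g])
    have a4 := Pg.Run.act (l := gv y y y 0 0 0 0 1 0) (e := ((0, 1, 0, 0) : Rg V))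
      (r := g i 0 ((i + 1) * v y)) (by simp [g])
    exact (a1.seq (a2.seq (a3.seq a4))).cast (by simp [g]) (by omega)
  simp only [Nat.cast_zero, zero_mul] at h1
  have a2 := tst_run (l := gv x x x (-1) 0 0 1 0 0) (r := g (v x) 0 (v x * v y)) (by simp [g])
  have a3 := tst_run (l := gv z z z (-1) 0 0 0 0 1) (r := g (v x) 0 (v x * v y)) (by simp [g, h])
  have a4 := rep_run ((0, -1, 0, 0) : Rg V) (g (v x) 0 (v x * v y)) (v x)
    (s := g 0 0 (v x * v y)) (by simp [g])
  have a5 := tst_run (l := gv x x x 0 0 0 1 0 0) (r := g 0 0 (v x * v y)) (by simp [g])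
  have a6 := rep_run ((0, 0, 0, -1) : Rg V) (g 0 0 (v x * v y)) (v z) (s := em v)
    (by simp [g, em, h])
  have a7 := tst_run (l := gv x x x 0 0 0 0 0 1) (r := em v) (by simp [em])
  refine (h1.seq (a2.seq (a3.seq (a4.seq (a5.seq (a6.seq a7)))))).mono ?_
  nlinarith

/-- Constraints `z = x * y` and `z = x + y`. -/
def Holds (v : V → ℕ) (c : V × V × V × Bool) : Prop :=
  v c.2.2.1 = cond c.2.2.2 (v c.1 * v c.2.1) (v c.1 + v c.2.1)

/-- The test of a list of constraints. -/
def chk : List (V × V × V × Bool) → Pg (Rg V)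
  | [] => .act 0 0
  | c :: C => .seq (cond c.2.2.2 (mulc c.1 c.2.1 c.2.2.1)
      (.act (gv c.1 c.2.1 c.2.2.1 1 1 (-1) 0 0 0) 0)) (chk C)

omit [DecidableEq V] in
theorem chk_den (C : List (V × V × V × Bool)) {v : V → ℕ} {s : Rg V} (h : (chk C).Den (em v) s) :
    s = em v ∧ ∀ c ∈ C, Holds v c := by
  induction C with
  | nil => exact ⟨by simpa using h.2, by simp⟩
  | cons c C ih =>
    obtain ⟨x, y, z, b⟩ := c
    obtain ⟨t, h1, h2⟩ := h
    cases b
    · obtain ⟨h3, rfl⟩ := h1
      rw [add_zero] at h2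
      simp [em] at h3
      exact ⟨(ih h2).1, List.forall_mem_cons.2 ⟨by simp only [Holds, cond_false]; omega, (ih h2).2⟩⟩
    · obtain ⟨rfl, h3⟩ := mulc_den h1
      exact ⟨(ih h2).1, List.forall_mem_cons.2 ⟨h3, (ih h2).2⟩⟩

omit [DecidableEq V] in
theorem chk_run (C : List (V × V × V × Bool)) {v : V → ℕ} {M : ℕ} (hM : ∀ r, v r ≤ M)
    (h : ∀ c ∈ C, Holds v c) :
    (chk C).Run (em v) (em v) (C.length * (M * (4 * M + 12) + 14) + 1) := by
  induction C with
  | nil => exact (tst_run rfl).mono (by simp)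
  | cons c C ih =>
    obtain ⟨x, y, z, b⟩ := c
    obtain ⟨h1, h2⟩ := List.forall_mem_cons.1 h
    rw [List.length_cons, Nat.succ_mul]
    cases b
    · simp only [Holds, cond_false] at h1
      exact ((tst_run (by simp [em, h1])).seq (ih h2)).mono (by omega)
    · refine ((mulc_run h1).seq (ih h2)).mono ?_
      have := Nat.mul_le_mul (hM x) (show 4 * v y + 10 ≤ 4 * M + 10 by have := hM y; omega)
      have := hM z
      nlinarith

/-- Assignment of arbitrary values to a list of variables. -/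
def gss : List V → Pg (Rg V)
  | [] => .act 0 0
  | r :: l => .seq (setv r) (gss l)

theorem gss_den (l : List V) {v : V → ℕ} {s : Rg V} (h : (gss l).Den (em v) s) :
    ∃ v', s = em v' ∧ ∀ r ∉ l, v' r = v r := by
  induction l generalizing v with
  | nil => exact ⟨v, by simpa using h.2, fun _ _ => rfl⟩
  | cons r l ih =>
    obtain ⟨t, h1, h2⟩ := h
    obtain ⟨m, rfl⟩ := setv_den h1
    obtain ⟨v', h3, h4⟩ := ih h2
    refine ⟨v', h3, fun x hx => ?_⟩
    simp only [List.mem_cons, not_or] at hx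
    rw [h4 x hx.2, update_of_ne hx.1]

theorem gss_run (l : List V) {v v' : V → ℕ} {M : ℕ} (hM : ∀ r, v r ≤ M) (hM' : ∀ r, v' r ≤ M)
    (h : ∀ r ∉ l, v' r = v r) : (gss l).Run (em v) (em v') (l.length * (4 * M + 6) + 1) := by
  induction l generalizing v with
  | nil =>
    obtain rfl : v' = v := funext fun r => h r (by simp)
    exact (tst_run rfl).mono (by simp)
  | cons r l ih =>
    refine ((setv_run r v (v' r)).seq (ih (fun x => ?_) fun x hx => ?_)).mono ?_
    · by_cases hx : x = r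
      · subst hx; simpa using hM' x
      · rw [update_of_ne hx]; exact hM x
    · by_cases hx' : x = r
      · subst hx'; simp
      · rw [update_of_ne hx', h x (by simp [hx, hx'])]
    · have := hM r
      have := hM' r
      rw [List.length_cons, Nat.succ_mul l.length]; omega

/-- One step: guess the variables of `l`, test the constraints, copy `w'` to `w`. -/
def DStep (l : List V) (C : List (V × V × V × Bool)) (w w' : V) (P : (V → ℕ) → Prop)
    (v v' : V → ℕ) : Prop :=
  ∃ v1, P v1 ∧ (∀ r ∉ l, v1 r = v r) ∧ (∀ c ∈ C, Holds v1 c) ∧ v' = update v1 w (v1 w')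

theorem dio_large [Fintype V] (l : List V) (C : List (V × V × V × Bool)) {w w' : V} (hw : w' ≠ w)
    (a : V) (n : (ι → ℕ) → V → ℕ) (hn : ∀ v, Nice fun p => (n p v : ℤ))
    (M N : (ι → ℕ) → ℕ) (hM : Nice fun p => (M p : ℤ)) (hN : Nice fun p => (N p : ℤ))
    {φ : (ι → ℕ) → Prop}
    (hc : ∀ p, φ p → ∃ m ≤ N p, ∃ f : ℕ → V → ℕ, f 0 = n p ∧ f m a = 0 ∧
      ∀ i < m, (∀ r, f i r ≤ M p) ∧ DStep l C w w' (fun v => ∀ r, v r ≤ M p) (f i) (f (i + 1)))
    (hs : ∀ p v, Relation.ReflTransGen (DStep l C w w' fun _ => True) (n p) v → v a = 0 → φ p) :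
    Large φ := by
  let st : Pg (Rg V) := .seq (gss l) (.seq (chk C) (.seq (setv w)
    (.act (gv w w' w 1 (-1) 0 0 0 0) 0)))
  let c : ℕ → ℕ := fun M => l.length * (4 * M + 6) + C.length * (M * (4 * M + 12) + 14) + 4 * M + 11
  have e : ∀ p, ∑ v, n p v • ((Pi.single v 1, 0, 0, 0) : Rg V) = em (n p) := fun p => by
    refine Prod.ext (funext fun x => ?_) ?_
    · simp [Prod.fst_sum, em, Finset.sum_apply, Pi.single_apply]
    · simp [Prod.snd_sum, em]
  refine Pg.large (.seq (.star st) (.act (gv a a a 1 0 0 0 0 0) 0))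
    (fun v => ((Pi.single v 1, 0, 0, 0) : Rg V)) n hn (fun p => N p * (c (M p) + 1) + 3) ?_
    (fun p hp => ?_) fun p s h => ?_
  · have k := fun z : ℤ => Nice.const (ι := ι) z
    exact ((hN.mul ((((((k l.length).mul (((k 4).mul hM).add (k 6))).add ((k C.length).mul
      ((hM.mul (((k 4).mul hM).add (k 12))).add (k 14)))).add ((k 4).mul hM)).add (k 11)).add
        (k 1))).add (k 3)).of_eq fun p => by simp only [c]; push_cast; rfl
  · obtain ⟨m, hm, f, h0, h1, h2⟩ := hc p hp
    have := star_run (p := st) (fun i => em (f i)) (c (M p)) m fun i hi => by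
      obtain ⟨b, v1, b1, b2, b3, b4⟩ := h2 i hi
      rw [b4]
      refine ((gss_run l b b1 b2).seq ((chk_run C b1 b3).seq ((setv_run w v1 (v1 w')).seq
        (tst_run (by simp [em, update_of_ne hw]))))).mono ?_
      have := b1 w
      have := b1 w'
      simp only [c]; omega
    rw [e, ← h0]
    refine ⟨_, (this.seq (tst_run (by simp [em, h1]))).mono ?_⟩
    have := Nat.mul_le_mul_right (c (M p) + 1) hm
    omega
  · rw [e] at h
    obtain ⟨t, h1, h2, -⟩ := h
    have key : ∃ v, t = em v ∧ Relation.ReflTransGen (DStep l C w w' fun _ => True) (n p) v := by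
      clear h2
      induction h1 with
      | refl => exact ⟨_, rfl, .refl⟩
      | tail _ h ih =>
        obtain ⟨v, rfl, hv⟩ := ih
        obtain ⟨_, k1, _, k2, _, k3, k4, rfl⟩ := h
        obtain ⟨v1, rfl, k5⟩ := gss_den l k1
        obtain ⟨rfl, k6⟩ := chk_den C k2
        obtain ⟨m, rfl⟩ := setv_den k3
        simp [em, update_of_ne hw] at k4
        obtain rfl : m = v1 w' := by omega
        exact ⟨_, add_zero _, hv.tail ⟨v1, trivial, k5, k6, rfl⟩⟩
    obtain ⟨v, rfl, hv⟩ := key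
    exact hs p v hv (by simpa [em] using h2)

end Pool.Agent.P.MP_26ce3f_co
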