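import Pool.Agent.P.MP_26ce3f_co.PS.Core

/-! Nondeterministic counter programs with linear tests. -/

namespace Pool.Agent.P.MP_26ce3f_co

variable {A ι : Type} [AddCommGroup A]

/-- Programs: guarded translations, composition, iteration. -/
inductive Pg (A : Type) [AddCommGroup A] : Type
  | act (l : A →+ ℤ) (e : A) : Pg A
  | seq (p q : Pg A) : Pg A
  | star (p : Pg A) : Pg A

/-- The relation computed by a program. -/
def Pg.Den : Pg A → A → A → Prop
  | .act l e => fun r s => l r = 0 ∧ s = r + e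
  | .seq p q => fun r s => ∃ t, p.Den r t ∧ q.Den t s
  | .star p => Relation.ReflTransGen p.Den

/-- Runs with a bound on the number of steps. -/
inductive Pg.Run : Pg A → A → A → ℕ → Prop
  | act {l : A →+ ℤ} {e r : A} : l r = 0 → Run (.act l e) r (r + e) 1
  | seq {p q : Pg A} {r s t : A} {m n : ℕ} : Run p r s m → Run q s t n →
      Run (.seq p q) r t (m + n + 1)
  | nil {p : Pg A} {r : A} : Run (.star p) r r 1
  | cons {p : Pg A} {r s t : A} {m n : ℕ} : Run p r s m → Run (.star p) s t n →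
      Run (.star p) r t (m + n + 1)
  | mono {p : Pg A} {r s : A} {m n : ℕ} : Run p r s m → m ≤ n → Run p r s n

theorem Pg.Run.cast {p : Pg A} {r s s' : A} {m n : ℕ} (h : p.Run r s m) (hs : s = s')
    (hn : m ≤ n) : p.Run r s' n := hs ▸ h.mono hn

/-- One step on continuations: the next continuation, the test and the translation. -/
def nxtK : List (Pg A) → Bool → List (Pg A) × (A →+ ℤ) × A
  | [], _ => ([], 0, 0)
  | .act l e :: k, _ => (k, l, e)
  | .seq p q :: k, _ => (p :: q :: k, 0, 0)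
  | .star _ :: k, false => (k, 0, 0)
  | .star p :: k, true => (p :: .star p :: k, 0, 0)

/-- Continuations met while running `p` and then `k`. -/
def reachK : Pg A → List (Pg A) → List (List (Pg A))
  | .act l e, k => [.act l e :: k]
  | .seq p q, k => (.seq p q :: k) :: (reachK p (q :: k) ++ reachK q k)
  | .star p, k => (.star p :: k) :: reachK p (.star p :: k)

theorem self_mem_reachK (p : Pg A) (k : List (Pg A)) : p :: k ∈ reachK p k := by
  cases p <;> simp [reachK]

/-- The relation computed by a continuation. -/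
def DenL : List (Pg A) → A → A → Prop
  | [], r, s => r = s
  | p :: k, r, s => ∃ t, p.Den r t ∧ DenL k t s

theorem denL_step (k : List (Pg A)) (b : Bool) (r s : A) (h1 : (nxtK k b).2.1 r = 0)
    (h2 : DenL (nxtK k b).1 (r + (nxtK k b).2.2) s) : DenL k r s := by
  rcases k with _ | ⟨_ | _ | p, k⟩
  · simpa [nxtK] using h2
  · exact ⟨_, ⟨h1, rfl⟩, h2⟩
  · simp only [nxtK, add_zero] at h2
    obtain ⟨t, h3, u, h4, h5⟩ := h2
    exact ⟨u, ⟨t, h3, h4⟩, h5⟩
  · cases b
    · simp only [nxtK, add_zero] at h2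
      exact ⟨r, Relation.ReflTransGen.refl, h2⟩
    · simp only [nxtK, add_zero] at h2
      obtain ⟨t, h3, u, h4, h5⟩ := h2
      exact ⟨u, Relation.ReflTransGen.head h3 h4, h5⟩

section
variable (L : List (List (Pg A))) (code : List (Pg A) → ℕ)

/-- Letters: the final letter and the transitions. -/
abbrev Lt := Option ({k // k ∈ L} × Bool)

/-- Source of a letter. -/
def srcL : Lt L → List (Pg A) := fun c => c.elim [] fun x => x.1.1

/-- Action of a letter. -/
def actL : Lt L → List (Pg A) × (A →+ ℤ) × A := fun c => c.elim ([], 0, 0) fun x => nxtK x.1.1 x.2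

/-- The guarded system attached to a list of continuations. -/
def sysL : GS (Lt L) (Lt L × Bool) where
  x g := g.1
  lam g c := cond g.2 ((actL L g.1).2.1 (actL L c).2.2) ((code (actL L c).1 : ℤ) - code (srcL L c))

variable (k0 : List (Pg A)) (r0 : A)

/-- Initial values of the guards. -/
def offL : Lt L × Bool → ℤ := fun g =>
  cond g.2 ((actL L g.1).2.1 r0) ((code k0 : ℤ) - code (srcL L g.1))

/-- The word is a run leading to the continuation `k` and the registers `r`. -/
def AtL (v : List (Lt L)) (k : List (Pg A)) (r : A) : Prop :=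
  ∀ g, offL L code k0 r0 g + wt ((sysL L code).lam g) v = offL L code k r g

variable {L code k0 r0}

theorem AtL.step {v : List (Lt L)} {r : A} (c : Lt L) (h : AtL L code k0 r0 v (srcL L c) r) :
    AtL L code k0 r0 (c :: v) (actL L c).1 (r + (actL L c).2.2) := by
  rintro ⟨g, b⟩
  have := h (g, b)
  cases b
  · simp only [offL, sysL, cond_false, wt_cons] at this ⊢; linarith
  · simp only [offL, sysL, cond_true, wt_cons, map_add] at this ⊢; linarith

theorem AtL.guard {v : List (Lt L)} {k : List (Pg A)} {r : A} (c : Lt L)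
    (h : AtL L code k0 r0 v k r) :
    (∀ g, (sysL L code).x g = c → offL L code k0 r0 g + wt ((sysL L code).lam g) v = 0) ↔
      code k = code (srcL L c) ∧ (actL L c).2.1 r = 0 := by
  constructor
  · intro h1
    have a := h1 (c, false) rfl
    have b := h1 (c, true) rfl
    rw [h] at a b
    simp only [offL, cond_false, cond_true] at a b
    exact ⟨by omega, b⟩
  · rintro ⟨h1, h2⟩ ⟨g, b⟩ rfl
    rw [h]
    cases b
    · simp only [offL, cond_false, h1]; simp [sysL]
    · exact h2

theorem run_valid {p : Pg A} {r s : A} {n : ℕ} (h : p.Run r s n) :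
    ∀ (k : List (Pg A)) (v : List (Lt L)), (∀ x ∈ reachK p k, x ∈ L) → none ∉ v →
      (sysL L code).Valid (offL L code k0 r0) v → AtL L code k0 r0 v (p :: k) r →
      ∃ w, w.length ≤ v.length + n ∧ none ∉ w ∧ (sysL L code).Valid (offL L code k0 r0) w ∧
        AtL L code k0 r0 w k s := by
  have one : ∀ (k : List (Pg A)) (hk : k ∈ L) (b : Bool) (v : List (Lt L)) (r : A), none ∉ v →
      (sysL L code).Valid (offL L code k0 r0) v → AtL L code k0 r0 v k r →
      (nxtK k b).2.1 r = 0 → none ∉ (some (⟨k, hk⟩, b) :: v : List (Lt L)) ∧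
        (sysL L code).Valid (offL L code k0 r0) (some (⟨k, hk⟩, b) :: v) ∧
        AtL L code k0 r0 (some (⟨k, hk⟩, b) :: v) (nxtK k b).1 (r + (nxtK k b).2.2) :=
    fun k hk b v r h1 h2 h3 h4 => ⟨by simpa using h1, ⟨h2, (h3.guard _).2 ⟨rfl, h4⟩⟩,
      AtL.step (some (⟨k, hk⟩, b)) h3⟩
  induction h with
  | act h =>
    intro k v hk h1 h2 h3
    exact ⟨_, by simp, one _ (hk _ (self_mem_reachK _ _)) true v _ h1 h2 h3 h⟩
  | @seq p q _ _ _ _ _ _ _ ih1 ih2 =>
    intro k v hk h1 h2 h3
    obtain ⟨a1, a2, a3⟩ := one _ (hk _ (self_mem_reachK _ _)) true v _ h1 h2 h3 rfl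
    obtain ⟨w, b0, b1, b2, b3⟩ := ih1 (q :: k) _ (fun x hx => hk x (by simp [reachK, hx])) a1 a2
      (by simpa [nxtK] using a3)
    obtain ⟨u, c0, c⟩ := ih2 _ _ (fun x hx => hk x (by simp [reachK, hx])) b1 b2 b3
    exact ⟨u, by simp at b0; omega, c⟩
  | nil =>
    intro k v hk h1 h2 h3
    obtain ⟨a1, a2, a3⟩ := one _ (hk _ (self_mem_reachK _ _)) false v _ h1 h2 h3 rfl
    exact ⟨_, by simp, a1, a2, by simpa [nxtK] using a3⟩
  | @cons p _ _ _ _ _ _ _ ih1 ih2 =>
    intro k v hk h1 h2 h3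
    obtain ⟨a1, a2, a3⟩ := one _ (hk _ (self_mem_reachK _ _)) true v _ h1 h2 h3 rfl
    obtain ⟨w, b0, b1, b2, b3⟩ := ih1 (.star p :: k) _ (fun x hx => hk x (by simp [reachK, hx])) a1 a2
      (by simpa [nxtK] using a3)
    obtain ⟨u, c0, c⟩ := ih2 _ _ hk b1 b2 b3
    exact ⟨u, by simp at b0; omega, c⟩
  | mono _ hmn ih =>
    intro k v hk h1 h2 h3
    obtain ⟨u, c0, c⟩ := ih k v hk h1 h2 h3
    exact ⟨u, by omega, c⟩

theorem valid_den {T : Set (List (Pg A))} (hT : Set.InjOn code T) (h0 : k0 ∈ T)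
    (h1 : ∀ c, srcL L c ∈ T) (h2 : ∀ c, (actL L c).1 ∈ T) (v : List (Lt L))
    (hv : (sysL L code).Valid (offL L code k0 r0) v) :
    ∃ k ∈ T, ∃ r, AtL L code k0 r0 v k r ∧ ∀ s, DenL k r s → DenL k0 r0 s := by
  induction v with
  | nil => exact ⟨k0, h0, r0, fun g => by simp, fun _ h => h⟩
  | cons c v ih =>
    obtain ⟨k, hk, r, h3, h4⟩ := ih hv.1
    obtain ⟨h5, h6⟩ := (h3.guard c).1 hv.2
    obtain rfl := hT hk (h1 c) h5
    refine ⟨_, h2 c, _, h3.step c, fun s hs => h4 s ?_⟩
    cases c with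
    | none => simpa [actL, srcL] using hs
    | some x => exact denL_step _ x.2 _ _ h6 hs

end

/-- Termination of a program from parametric initial values. -/
theorem Pg.large (q : Pg A) {V : Type} [Fintype V] (b : V → A) (n : (ι → ℕ) → V → ℕ)
    (hn : ∀ v, Nice fun p => (n p v : ℤ)) (B : (ι → ℕ) → ℕ) (hB : Nice fun p => (B p : ℤ))
    {φ : (ι → ℕ) → Prop} (hc : ∀ p, φ p → ∃ s, q.Run (∑ v, n p v • b v) s (B p))
    (hs : ∀ p s, q.Den (∑ v, n p v • b v) s → φ p) : Large φ := by
  classical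
  let L := reachK q []
  let T : Set (List (Pg A)) := insert [q] (Set.range (srcL L) ∪ Set.range fun c => (actL L c).1)
  have hT : T.Finite := ((Set.finite_range _).union (Set.finite_range _)).insert _
  obtain ⟨code, hcode⟩ := Set.countable_iff_exists_injOn.1 hT.countable
  let P : (ι → ℕ) → Lt L × Bool → ℕ := fun p g =>
    cond g.2 (∑ v, n p v * ((actL L g.1).2.1 (b v)).toNat) (code [q])
  let N : (ι → ℕ) → Lt L × Bool → ℕ := fun p g =>
    cond g.2 (∑ v, n p v * (-(actL L g.1).2.1 (b v)).toNat) (code (srcL L g.1))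
  have ho : ∀ p, (fun g => (P p g : ℤ) - N p g) = offL L code [q] (∑ v, n p v • b v) := by
    intro p
    funext ⟨g, c⟩
    cases c
    · rfl
    · simp only [P, N, offL, cond_true, map_sum, map_nsmul]
      push_cast
      rw [← Finset.sum_sub_distrib]
      refine Finset.sum_congr rfl fun v _ => ?_
      rw [← mul_sub, Int.toNat_sub_toNat_neg, nsmul_eq_mul]
  refine (sysL L code).large_reach none P N ?_ ?_ B hB (fun p hp => ?_) fun p v _ hv => ?_
  · rintro ⟨g, _ | _⟩
    · exact Nice.const (code [q])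
    · exact (Nice.sum Finset.univ fun v _ => (hn v).mul
        (Nice.const ((actL L g).2.1 (b v)).toNat)).of_eq fun p => by simp [P]
  · rintro ⟨g, _ | _⟩
    · exact Nice.const (code (srcL L g))
    · exact (Nice.sum Finset.univ fun v _ => (hn v).mul
        (Nice.const (-(actL L g).2.1 (b v)).toNat)).of_eq fun p => by simp [N]
  · obtain ⟨s, hs⟩ := hc p hp
    obtain ⟨w, h0, h1, h2, h3⟩ := run_valid (L := L) (code := code) (k0 := [q])
      (r0 := ∑ v, n p v • b v) hs [] []
      (fun _ h => h) (by simp) trivial fun g => by simp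
    rw [ho]
    exact ⟨w, h1, ⟨h2, (h3.guard none).2 ⟨rfl, rfl⟩⟩, by simpa using h0⟩
  · rw [ho] at hv
    obtain ⟨k, hk, r, h3, h4⟩ := valid_den hcode (Or.inl rfl) (fun c => Or.inr (Or.inl ⟨c, rfl⟩))
      (fun c => Or.inr (Or.inr ⟨c, rfl⟩)) v hv.1
    obtain rfl := hcode hk (Or.inr (Or.inl ⟨none, rfl⟩)) ((h3.guard none).1 hv.2).1
    obtain ⟨t, h5, -⟩ := h4 r rfl
    exact hs p t h5

end Pool.Agent.P.MP_26ce3f_co
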