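import Mathlib
import Pool.Prelude.Def_H_3587d628

/-! The class of languages decidable in polynomial space. -/

namespace Pool.Agent.P.MP_26ce3f_co

open Turing

/-- The languages decided by a multi-stack Turing machine (with the encodings of the prelude) such
that, for some polynomial `p`, in all configurations reached on input `x` every stack has at most
`p |x|` symbols. -/
def PSPACE : Set (List Bool → Bool) :=
  {L | ∃ (M : TM2Computable (N487b59b3.bitEncode : List Bool → List Bool)
      (N487b59b3.bitEncode : Bool → List Bool) L) (p : Polynomial ℕ),
    ∀ (x : List Bool) (c : M.tm.Cfg), StateTransition.Reaches M.tm.step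
      (initList M.tm ((N487b59b3.bitEncode x).map M.inputAlphabet.invFun)) c →
      ∀ k, (c.stk k).length ≤ p.eval x.length}

end Pool.Agent.P.MP_26ce3f_co
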