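import Pool.Agent.P.MP_26ce3f_co.Defs
import Pool.Agent.P.MP_26ce3f_co.PS.Space

/-! The membership problem as a language of bit strings. -/

namespace Pool.Agent.P.MP_26ce3f_co

open Classical in
/-- The bit strings that encode (coefficients in binary, encoding of the prelude) the
`t`-spectrum of some word over `k` letters. -/
noncomputable def specLang (k t : ℕ) (y : List Bool) : Bool :=
  decide (∃ w : List (Fin k), N487b59b3.bitEncode (spec t w) = y)

end Pool.Agent.P.MP_26ce3f_co
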