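import Pool.Agent.P.MP_26ce3f_co.PS.Abs

/-! Functions of words determined by the subword counts of bounded degree; guarded systems. -/

namespace Pool.Agent.P.MP_26ce3f_co

open Ser

variable {α ι : Type}

/-- Functions of words which are polynomial of degree at most `d`. -/
def Lin : ℕ → (List α → ℚ) → Prop
  | 0, F => ∀ c w, F (c :: w) = F w
  | d + 1, F => ∀ c, Lin d fun w => F (c :: w) - F w

theorem Lin.const (d : ℕ) (z : ℚ) : Lin d fun _ : List α => z := by
  induction d generalizing z with
  | zero => exact fun _ _ => rfl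
  | succ d ih => exact fun _ => ih _

theorem Lin.of_eq {d : ℕ} {F G : List α → ℚ} (h : Lin d F) (e : ∀ w, F w = G w) : Lin d G := by
  have : F = G := funext e
  exact this ▸ h

theorem Lin.add {d : ℕ} {F G : List α → ℚ} (hF : Lin d F) (hG : Lin d G) :
    Lin d fun w => F w + G w := by
  induction d generalizing F G with
  | zero => exact fun c w => by simp only [hF c w, hG c w]
  | succ d ih => exact fun c => (ih (hF c) (hG c)).of_eq fun w => by ring

theorem Lin.smul {d : ℕ} {F : List α → ℚ} (z : ℚ) (hF : Lin d F) : Lin d fun w => z * F w := by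
  induction d generalizing F with
  | zero => exact fun c w => by simp only [hF c w]
  | succ d ih => exact fun c => (ih (hF c)).of_eq fun w => by ring

theorem Lin.succ {d : ℕ} {F : List α → ℚ} (hF : Lin d F) : Lin (d + 1) F := by
  induction d generalizing F with
  | zero => exact fun c => (Lin.const 0 0).of_eq fun w => by rw [hF c w]; ring
  | succ d ih => exact fun c => ih (hF c)

theorem Lin.mono {d e : ℕ} {F : List α → ℚ} (hF : Lin d F) (h : d ≤ e) : Lin e F := by
  induction h with
  | refl => exact hF
  | step _ ih => exact ih.succ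

theorem Lin.zero_eq {F : List α → ℚ} (hF : Lin 0 F) (w : List α) : F w = F [] := by
  induction w with
  | nil => rfl
  | cons c w ih => rw [hF c w, ih]

theorem Lin.mul {d e : ℕ} {F G : List α → ℚ} (hF : Lin d F) (hG : Lin e G) :
    Lin (d + e) fun w => F w * G w := by
  induction hn : d + e using Nat.strong_induction_on generalizing d e F G with
  | _ n ih =>
    subst hn
    cases d with
    | zero =>
      rw [Nat.zero_add]
      exact (hG.smul (F [])).of_eq fun w => by rw [hF.zero_eq w]
    | succ d =>
      cases e with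
      | zero => exact (hF.smul (G [])).of_eq fun w => by rw [hG.zero_eq w, mul_comm]
      | succ e =>
        intro c
        have h1 := ih _ (by omega) (hF c) hG rfl
        have h2 := ih _ (by omega) hF (hG c) rfl
        have h3 := ih _ (by omega) (hF c) (hG c) rfl
        exact (((h1.mono (by omega)).add h2).add (h3.mono (by omega))).of_eq fun w => by ring

theorem Lin.sum {d : ℕ} {κ : Type} (s : Finset κ) {F : κ → List α → ℚ} (h : ∀ k, Lin d (F k)) :
    Lin d fun w => ∑ k ∈ s, F k w := by
  classical
  induction s using Finset.induction_on with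
  | empty => exact Lin.const d 0
  | insert k s hk ih => exact ((h k).add ih).of_eq fun w => by rw [Finset.sum_insert hk]

theorem Lin.prod {κ : Type} (s : Finset κ) {F : κ → List α → ℚ} (h : ∀ k, Lin 1 (F k)) :
    Lin s.card fun w => ∏ k ∈ s, F k w := by
  classical
  induction s using Finset.induction_on with
  | empty => exact Lin.const _ 1
  | insert k s hk ih =>
    rw [Finset.card_insert_of_notMem hk]
    exact (ih.mul (h k)).of_eq fun w => by rw [Finset.prod_insert hk, mul_comm]

/-- Additive weight of a word. -/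
def wt (l : α → ℤ) (w : List α) : ℤ := (w.map l).sum

@[simp] theorem wt_nil (l : α → ℤ) : wt l [] = 0 := rfl
@[simp] theorem wt_cons (l : α → ℤ) (c : α) (w : List α) : wt l (c :: w) = l c + wt l w := rfl
@[simp] theorem wt_append (l : α → ℤ) (u v : List α) : wt l (u ++ v) = wt l u + wt l v := by
  simp [wt]
@[simp] theorem wt_replicate (l : α → ℤ) (n : ℕ) (c : α) :
    wt l (List.replicate n c) = n * l c := by simp [wt]

theorem Lin.wt (l : α → ℤ) : Lin 1 fun w => (wt l w : ℚ) :=
  fun c => (Lin.const 0 (l c : ℚ)).of_eq fun w => by simp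

variable [DecidableEq α]

/-- Sum of the values of `F` on the parts of the word following an occurrence of `c`. -/
def Jc (c : α) (F : List α → ℚ) : List α → ℚ
  | [] => 0
  | a :: w => Jc c F w + if a = c then F w else 0

theorem Lin.Jc {d : ℕ} {F : List α → ℚ} (c : α) (hF : Lin d F) : Lin (d + 1) (Jc c F) := by
  intro a
  by_cases h : a = c
  · exact hF.of_eq fun w => by simp [MP_26ce3f_co.Jc, h]
  · exact (Lin.const d 0).of_eq fun w => by simp [MP_26ce3f_co.Jc, h]

theorem Lin.span [Fintype α] {d : ℕ} {F : List α → ℚ} (hF : Lin d F) : F ∈ Submodule.span ℚ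
    {G : List α → ℚ | ∃ u : List α, u.length ≤ d ∧ G = fun w => (occ w u : ℚ)} := by
  have c0 : ∀ (d : ℕ) (z : ℚ), (fun _ => z) ∈ Submodule.span ℚ
      {G : List α → ℚ | ∃ u : List α, u.length ≤ d ∧ G = fun w => (occ w u : ℚ)} := fun d z => by
    have := Submodule.smul_mem _ z (Submodule.subset_span (R := ℚ)
      (s := {G : List α → ℚ | ∃ u : List α, u.length ≤ d ∧ G = fun w => (occ w u : ℚ)})
      ⟨[], by simp, rfl⟩)
    convert this using 1
    funext w; simp
  induction d generalizing F with
  | zero =>
    have : F = fun _ => F [] := funext hF.zero_eq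
    rw [this]; exact c0 _ _
  | succ d ih =>
    have e : F = (fun _ => F []) + ∑ c, MP_26ce3f_co.Jc c fun w => F (c :: w) - F w := by
      funext w
      simp only [Pi.add_apply, Finset.sum_apply]
      induction w with
      | nil => simp [MP_26ce3f_co.Jc]
      | cons a w ihw =>
        simp only [MP_26ce3f_co.Jc, Finset.sum_add_distrib, Finset.sum_ite_eq, Finset.mem_univ,
          if_true]
        linear_combination ihw
    rw [e]
    refine Submodule.add_mem _ (c0 _ _) (Submodule.sum_mem _ fun c _ => ?_)
    refine Submodule.span_induction (p := fun G _ => MP_26ce3f_co.Jc c G ∈ _) ?_ ?_ ?_ ?_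
      (ih (hF c))
    · rintro _ ⟨u, hu, rfl⟩
      refine Submodule.subset_span ⟨c :: u, by simpa using hu, funext fun w => ?_⟩
      induction w with
      | nil => simp [MP_26ce3f_co.Jc]
      | cons a w ihw => simp only [MP_26ce3f_co.Jc, ihw, occ_cons]; split_ifs <;> simp
    · convert Submodule.zero_mem _
      funext w
      induction w with
      | nil => rfl
      | cons a w ihw => simp [MP_26ce3f_co.Jc, ihw]
    · intro G H _ _ h1 h2
      convert Submodule.add_mem _ h1 h2
      funext w
      induction w with
      | nil => simp [MP_26ce3f_co.Jc]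
      | cons a w ihw =>
        simp only [MP_26ce3f_co.Jc, ihw, Pi.add_apply]; split_ifs <;> ring
    · intro z G _ h1
      convert Submodule.smul_mem _ z h1
      funext w
      induction w with
      | nil => simp [MP_26ce3f_co.Jc]
      | cons a w ihw =>
        simp only [MP_26ce3f_co.Jc, ihw, Pi.smul_apply, smul_eq_mul]; split_ifs <;> ring

theorem Lin.eqv [Fintype α] {d t : ℕ} {F : List α → ℚ} (hF : Lin d F) (hd : d ≤ t) {v w : List α}
    (h : Eqv t (ws v) (ws w)) : F v = F w := by
  refine Submodule.span_induction (p := fun G _ => G v = G w) ?_ rfl ?_ ?_ hF.span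
  · rintro _ ⟨u, hu, rfl⟩
    have := h u (hu.trans hd)
    simp only [ws_apply] at this
    beta_reduce
    exact_mod_cast this
  · intro G H _ _ h1 h2
    simp [h1, h2]
  · intro z G _ h1
    simp [h1]

theorem Jc_nonneg (c : α) {F : List α → ℚ} (hF : ∀ w, 0 ≤ F w) (w : List α) : 0 ≤ Jc c F w := by
  induction w with
  | nil => exact le_rfl
  | cons a w ih => simp only [Jc]; split_ifs <;> linarith [hF w]

theorem Jc_cons_eq_zero {c : α} {F : List α → ℚ} (hF : ∀ w, 0 ≤ F w) (a : α) (w : List α) :
    Jc c F (a :: w) = 0 ↔ Jc c F w = 0 ∧ (a = c → F w = 0) := by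
  have := Jc_nonneg c hF w
  have := hF w
  simp only [Jc]
  split_ifs with h
  · exact ⟨fun h1 => ⟨by linarith, fun _ => by linarith⟩, fun h1 => by rw [h1.1, h1.2 h]; simp⟩
  · simp [h]

theorem Jc_replicate {a c : α} (h : a ≠ c) (F : List α → ℚ) (n : ℕ) (w : List α) :
    Jc c F (List.replicate n a ++ w) = Jc c F w := by
  induction n with
  | zero => simp
  | succ n ih => simp [List.replicate_succ, Jc, ih, h]

omit [DecidableEq α]

/-- A guarded system: each guard belongs to a letter and is a linear form in the letter counts. -/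
structure GS (α G : Type) where
  x : G → α
  lam : G → α → ℤ

variable {G : Type} (S : GS α G)

/-- Runs, read from right to left, starting with the values `o` of the guards. -/
def GS.Valid (o : G → ℤ) : List α → Prop
  | [] => True
  | c :: w => GS.Valid o w ∧ ∀ g, S.x g = c → o g + wt (S.lam g) w = 0

theorem GS.valid_append (o : G → ℤ) (u v : List α) :
    S.Valid o (u ++ v) ↔ S.Valid o v ∧ S.Valid (fun g => o g + wt (S.lam g) v) u := by
  induction u with
  | nil => simp [GS.Valid]
  | cons c u ih =>
    simp only [List.cons_append, GS.Valid, ih, wt_append, and_assoc]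
    refine and_congr_right fun _ => and_congr_right fun _ => forall₂_congr fun g _ => ?_
    constructor <;> intro h <;> linarith

/-- Runs which start and end with all guards equal to zero. -/
def GS.Loop (w : List α) : Prop := S.Valid 0 w ∧ ∀ g, wt (S.lam g) w = 0

theorem GS.mon : Mon S.Loop := by
  refine ⟨⟨trivial, fun _ => rfl⟩, fun {u v} hu hv => ⟨(S.valid_append _ _ _).2 ⟨hv.1, ?_⟩,
    fun g => by simp [hu.2 g, hv.2 g]⟩⟩
  have : (fun g => (0 : G → ℤ) g + wt (S.lam g) v) = 0 := funext fun g => by simp [hv.2 g]
  rw [this]; exact hu.1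

theorem GS.valid_iff [DecidableEq α] (w : List α) :
    S.Valid 0 w ↔ ∀ g, Jc (S.x g) (fun v => (wt (S.lam g) v : ℚ) ^ 2) w = 0 := by
  induction w with
  | nil => simp [GS.Valid, Jc]
  | cons c w ih =>
    simp only [GS.Valid, ih, Jc_cons_eq_zero (fun _ => sq_nonneg _), forall_and]
    refine and_congr_right fun _ => forall_congr' fun g => ?_
    rw [@eq_comm _ c]
    simp

variable {A : Type} [DecidableEq A]

/-- The code `e` preserves the loops, as far as spectra up to degree `t` are concerned. -/
structure GS.Rigid (e : α → List A) (t : ℕ) : Prop where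
  inj : Function.Injective e
  len : ∃ l, 0 < l ∧ ∀ c, (e c).length = l
  rig : ∀ z W, S.Loop W → Eqv t (ws z) (ws (W.flatMap e)) → ∃ w, z = w.flatMap e ∧ S.Loop w

theorem GS.loop_of [DecidableEq α] [Fintype A] {e : α → List A} {t : ℕ}
    (h : ∀ g, ∃ F H : List A → ℚ, Lin t F ∧ Lin t H ∧ ∀ w : List α,
      F (w.flatMap e) = wt (S.lam g) w ∧
      H (w.flatMap e) = Jc (S.x g) (fun v => (wt (S.lam g) v : ℚ) ^ 2) w)
    {w W : List α} (hW : S.Loop W) (hw : Eqv t (ws (w.flatMap e)) (ws (W.flatMap e))) :
    S.Loop w := by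
  refine ⟨(S.valid_iff w).2 fun g => ?_, fun g => ?_⟩
  · obtain ⟨F, H, _, h2, h3⟩ := h g
    rw [← (h3 w).2, h2.eqv le_rfl hw, (h3 W).2]
    exact (S.valid_iff W).1 hW.1 g
  · obtain ⟨F, H, h1, _, h3⟩ := h g
    have := h1.eqv le_rfl hw
    rw [(h3 w).1, (h3 W).1, hW.2 g] at this
    exact_mod_cast this

theorem mem_of_eqv {t : ℕ} (ht : 1 ≤ t) {z W : List A} (h : Eqv t (ws z) (ws W)) {c : A}
    (hc : c ∈ z) : c ∈ W := by
  have := h [c] (by simpa using ht)
  have h1 := (occ_pos_iff z [c]).2 (List.singleton_sublist.2 hc)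
  simp only [ws_apply] at this
  exact List.singleton_sublist.1 ((occ_pos_iff W [c]).1 (by omega))

theorem GS.rigid_unary [Fintype A] {e : α → A} (he : Function.Injective e) {t : ℕ} (ht : 3 ≤ t) :
    S.Rigid (fun c => [e c]) t := by
  classical
  refine ⟨fun a b h => he (by simpa using h), ⟨1, Nat.one_pos, fun _ => rfl⟩, fun z W hW h => ?_⟩
  have fm : ∀ w : List α, w.flatMap (fun c => [e c]) = w.map e := fun w => by
    induction w <;> simp_all
  rcases map_or_out e z with ⟨w, rfl⟩ | ⟨c, hc, hc'⟩
  · refine ⟨w, (fm w).symm, S.loop_of (e := fun c => [e c]) (fun g => ?_) hW (by rwa [fm w])⟩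
    have h1 : ∀ w : List α, wt (Function.extend e (S.lam g) 0) (w.map e) = wt (S.lam g) w :=
      fun w => by induction w <;> simp_all [he.extend_apply]
    have l1 := Lin.wt (Function.extend e (S.lam g) 0)
    refine ⟨_, _, l1.mono (by omega), ((l1.mul l1).Jc (e (S.x g))).mono ht, fun w => ?_⟩
    rw [fm, h1]
    refine ⟨rfl, ?_⟩
    induction w with
    | nil => rfl
    | cons c w ih => simp only [List.map_cons, Jc, ih, h1, he.eq_iff, sq]
  · have := mem_of_eqv (by omega) h hc
    rw [fm] at this
    obtain ⟨a, _, rfl⟩ := List.mem_map.1 this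
    exact absurd rfl (hc' a)

section Binary
variable {a b : A} {K : ℕ} (idx : α ≃ Fin K)

/-- The block coding a letter. -/
def blk (a b : A) (idx : α ≃ Fin K) (c : α) : List A :=
  List.replicate (K - idx c) a ++ b :: List.replicate (idx c) a

/-- The position inside the current block. -/
def xi (a b : A) (K : ℕ) : List A → ℤ := wt fun c => if c = a then 1 else if c = b then -K else 0

theorem xi_flat (hab : a ≠ b) (n : ℕ) (w : List α) :
    xi a b K (List.replicate n a ++ w.flatMap (blk a b idx)) = n := by
  have : xi a b K (w.flatMap (blk a b idx)) = 0 := by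
    induction w with
    | nil => rfl
    | cons c w ih =>
      have := (idx c).2
      simp only [xi, blk, List.flatMap_cons, wt_append, wt_replicate, wt_cons] at ih ⊢
      simp only [ih, if_true, if_neg hab.symm]
      omega
  simp only [xi, wt_append, wt_replicate] at this ⊢
  simp [this]

theorem Jc_flat (hab : a ≠ b) (F : List A → ℚ) (c : α) (w : List α) :
    Jc b F ((c :: w).flatMap (blk a b idx)) = Jc b F (w.flatMap (blk a b idx)) +
      F (List.replicate (idx c) a ++ w.flatMap (blk a b idx)) := by
  simp only [List.flatMap_cons, blk, List.append_assoc, Jc_replicate hab, List.cons_append, Jc,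
    if_true]

theorem shape (hab : a ≠ b) (z : List A) (h1 : ∀ c ∈ z, c = a ∨ c = b)
    (h2 : Jc b (fun v => (∏ j ∈ Finset.range K, ((xi a b K v : ℚ) - j)) ^ 2) z = 0) :
    ∃ (w : List α) (m n : ℕ), List.replicate m a ++ z =
      List.replicate n a ++ w.flatMap (blk a b idx) ∧ (m = 0 ∨ n = 0) := by
  induction z with
  | nil => exact ⟨[], 0, 0, rfl, Or.inl rfl⟩
  | cons c z ih =>
    rw [Jc_cons_eq_zero (fun _ => sq_nonneg _)] at h2
    obtain ⟨w, m, n, e, hmn⟩ := ih (fun c hc => h1 c (List.mem_cons_of_mem _ hc)) h2.1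
    rcases h1 c List.mem_cons_self with rfl | rfl
    · cases m with
      | zero => exact ⟨w, 0, n + 1, by simpa [List.replicate_succ] using e, Or.inl rfl⟩
      | succ m =>
        refine ⟨w, m, n, ?_, Or.inr (by omega)⟩
        rw [← e, List.replicate_succ']; simp
    · have h3 := h2.2 rfl
      rw [sq_eq_zero_iff, Finset.prod_eq_zero_iff] at h3
      obtain ⟨j, hj, h3⟩ := h3
      have h4 : xi a c K z = j := by exact_mod_cast sub_eq_zero.1 h3
      have h5 := xi_flat idx hab n w
      rw [← e] at h5
      simp only [xi, wt_append, wt_replicate, if_true] at h4 h5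
      have hj' := Finset.mem_range.1 hj
      obtain rfl : m = 0 := by omega
      obtain rfl : n = j := by omega
      refine ⟨idx.symm ⟨n, hj'⟩ :: w, K - n, 0, ?_, Or.inr rfl⟩
      simp only [List.replicate_zero, List.nil_append] at e
      simp [blk, e]

theorem GS.rigid_binary [Fintype A] (hab : a ≠ b) {t : ℕ} (ht : 4 * K + 3 ≤ t) :
    S.Rigid (blk a b idx) t := by
  classical
  have : Fintype α := Fintype.ofEquiv _ idx.symm
  have lx : Lin 1 fun v => (xi a b K v : ℚ) := Lin.wt _
  refine ⟨fun c c' h => ?_, ⟨K + 1, by omega, fun c => ?_⟩, fun z W hW h => ?_⟩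
  · have h1 := congrArg (Jc b fun v => (xi a b K v : ℚ)) h
    have h2 : ∀ c, Jc b (fun v => (xi a b K v : ℚ)) (blk a b idx c) = ((idx c : ℕ) : ℚ) := by
      intro c
      have := Jc_flat idx hab (fun v => (xi a b K v : ℚ)) c []
      rw [xi_flat idx hab] at this
      simpa [Jc] using this
    rw [h2, h2] at h1
    exact idx.injective (Fin.ext (by exact_mod_cast h1))
  · have := (idx c).2
    simp [blk]; omega
  have lp : Lin K fun v => ∏ j ∈ Finset.range K, ((xi a b K v : ℚ) - j) := by
    simpa using Lin.prod (Finset.range K) (F := fun j v => (xi a b K v : ℚ) - j) fun j =>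
      (lx.add (Lin.const 1 (-(j : ℚ)))).of_eq fun w => by ring
  obtain ⟨w, m, n, e, hmn⟩ := shape idx hab z (fun c hc => by
      obtain ⟨d, _, hd⟩ := List.mem_flatMap.1 (mem_of_eqv (by omega) h hc)
      simp only [blk, List.mem_append, List.mem_replicate, List.mem_cons] at hd
      tauto) (by
      rw [(((lp.mul lp).of_eq fun w => (sq _).symm).Jc b).eqv (by omega) h]
      clear h hW
      induction W with
      | nil => rfl
      | cons c W ih =>
        rw [Jc_flat idx hab, ih, xi_flat idx hab,
          Finset.prod_eq_zero (Finset.mem_range.2 (idx c).2) (by simp)]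
        simp)
  have h4 := lx.eqv (by omega) h
  have h5 := xi_flat idx hab 0 W
  have h6 := xi_flat idx hab n w
  rw [← e] at h6
  simp only [List.replicate_zero, List.nil_append] at h5
  rw [h5] at h4
  have h7 : xi a b K z = 0 := by exact_mod_cast h4
  simp only [xi, wt_append, wt_replicate, if_true] at h6 h7
  obtain rfl : m = 0 := by omega
  obtain rfl : n = 0 := by omega
  simp only [List.replicate_zero, List.nil_append] at e
  subst e
  refine ⟨w, rfl, S.loop_of (fun g => ?_) hW h⟩
  let ind : α → List A → ℚ := fun c v =>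
    ∏ j ∈ Finset.univ.erase c, ((xi a b K v : ℚ) - (idx j : ℕ)) / (((idx c : ℕ) : ℚ) - (idx j : ℕ))
  have li : ∀ c, Lin K (ind c) := fun c =>
    (Lin.prod (Finset.univ.erase c) (F := fun j v => ((xi a b K v : ℚ) - (idx j : ℕ)) /
      (((idx c : ℕ) : ℚ) - (idx j : ℕ))) fun j =>
        ((lx.add (Lin.const 1 (-((idx j : ℕ) : ℚ)))).smul
          (((idx c : ℕ) : ℚ) - (idx j : ℕ))⁻¹).of_eq fun w => by ring).mono (by
      have := Fintype.card_congr idx
      rw [Fintype.card_fin] at this
      exact Finset.card_erase_le.trans (by simp [this]))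
  have hi : ∀ c d (w : List α), ind c (List.replicate (idx d) a ++ w.flatMap (blk a b idx)) =
      if d = c then 1 else 0 := fun c d w => by
    simp only [ind, xi_flat idx hab]
    split_ifs with hcd
    · subst hcd
      refine Finset.prod_eq_one fun j hj => div_self (sub_ne_zero.2 fun h0 => ?_)
      exact (Finset.mem_erase.1 hj).1 (idx.injective (Fin.ext (by exact_mod_cast h0.symm)))
    · exact Finset.prod_eq_zero (i := d) (by simp [hcd]) (by simp)
  let F : List A → ℚ := Jc b fun v => ∑ c, (S.lam g c : ℚ) * ind c v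
  have lF : Lin (K + 1) F := (Lin.sum _ fun c => (li c).smul _).Jc b
  have hF : ∀ w : List α, F (w.flatMap (blk a b idx)) = wt (S.lam g) w := fun w => by
    induction w with
    | nil => simp [F, Jc]
    | cons c w ih =>
      simp only [F] at ih ⊢
      rw [Jc_flat idx hab, ih]
      simp [hi, add_comm]
  have l2 := (li (S.x g)).mul lF
  refine ⟨F, _, lF.mono (by omega), ((l2.mul l2).Jc b).mono (by omega), fun w => ⟨hF w, ?_⟩⟩
  induction w with
  | nil => rfl
  | cons c w ih =>
    rw [Jc_flat idx hab, ih, hi]
    simp only [F, Jc_replicate hab] at hF ⊢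
    rw [hF]
    simp only [Jc]
    split_ifs <;> simp [sq]

end Binary

end Pool.Agent.P.MP_26ce3f_co
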