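import Pool.Agent.P.MP_26ce3f_co.PS.Space
import Pool.Agent.Lib.helper77.Raw

/-! Iterating a polynomial-time step in polynomial space; evaluation of game trees. -/

namespace Pool.Agent.P.MP_26ce3f_co

open Function Turing Relation Pool.Agent.Lib.helper21 Pool.Agent.Lib.helper77 Enc

/-- A run all of whose configurations but the last one have the property `P`. -/
def Sgm {C : Type} (f : C → Option C) (P : C → Prop) : C → C → Prop :=
  ReflTransGen fun a b => P a ∧ f a = some b

theorem Sgm.evals {C : Type} {f : C → Option C} {P : C → Prop} {a b : C} (h : Sgm f P a b) :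
    ∃ n, (flip bind f)^[n] (some a) = some b := by
  induction h using ReflTransGen.head_induction_on with
  | refl => exact ⟨0, rfl⟩
  | head h _ ih =>
    obtain ⟨n, hn⟩ := ih
    exact ⟨n + 1, iter_step _ _ _ _ n h.2 hn⟩

theorem Sgm.all {C : Type} {f : C → Option C} {P : C → Prop} {a b : C} (h : Sgm f P a b)
    (hb : f b = none) (hP : P b) : ∀ c, StateTransition.Reaches f a c → P c := by
  induction h using ReflTransGen.head_induction_on with
  | refl =>
    intro c hc
    rcases ReflTransGen.cases_head hc with rfl | ⟨d, hd, -⟩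
    · exact hP
    · simp [hb] at hd
  | head h _ ih =>
    intro c hc
    rcases ReflTransGen.cases_head hc with rfl | ⟨d, hd, h2⟩
    · exact h.1
    · rw [h.2] at hd
      obtain rfl := Option.some.inj hd
      exact ih c h2

variable {ι : Type} [DecidableEq ι]

theorem step_len {Λ : Type} (mk : List (Prog ι) → Λ) (val : Λ → List (Prog ι))
    {a b : TM2.Cfg (fun _ : ι => Bool) Λ (Option Bool)}
    (h : TM2.step (fun l => stmt mk (val l)) a = some b) (r : ι) :
    (b.stk r).length ≤ (a.stk r).length + 1 := by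
  obtain ⟨_ | l, v, S⟩ := a
  · simp at h
  obtain rfl := Option.some.inj h
  have u : ∀ (r' : ι) (w : List Bool), w.length ≤ (S r').length + 1 →
      (update S r' w r).length ≤ (S r).length + 1 := fun r' w hw => by
    by_cases e : r = r'
    · subst e; simpa using hw
    · rw [update_of_ne e]; omega
  show (TM2.Cfg.stk (TM2.stepAux (stmt mk (val l)) v S) r).length ≤ (S r).length + 1
  rcases val l with _ | ⟨_ | _ | _ | _ | _, k⟩ <;> simp only [stmt, TM2.stepAux]
  all_goals first | omega | exact u _ _ (by simp; omega) | exact u _ _ (by simp)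

/-- The program `p` started on `s` stops on `t`, and all registers have length at most `M`. -/
def RunS (p : Prog ι) (s t : St ι) (M : ℕ) : Prop :=
  ∀ (Λ : Type) (mk : List (Prog ι) → Λ) (val : Λ → List (Prog ι)) (L : List (List (Prog ι))),
    (∀ k ∈ L, val (mk k) = k) → ∀ (k : List (Prog ι)) (v : Option Bool),
    (∀ x ∈ reach p k, x ∈ L) → ∃ v', Sgm (TM2.step fun l => stmt mk (val l))
      (fun c => ∀ r, (c.stk r).length ≤ M) ⟨some (mk (p :: k)), v, s⟩ ⟨some (mk k), v', t⟩

theorem Run.toS {p : Prog ι} {s t : St ι} {n M : ℕ} (h : Run p s t n)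
    (hM : ∀ r, (s r).length + n ≤ M) : RunS p s t M := by
  intro Λ mk val L hL k v hk
  obtain ⟨m, hm, v', e⟩ := simulate mk val L hL h k v hk
  refine ⟨v', ?_⟩
  have key : ∀ (m : ℕ) (a b : TM2.Cfg (fun _ : ι => Bool) Λ (Option Bool)),
      (flip bind (TM2.step fun l => stmt mk (val l)))^[m] (some a) = some b →
      (∀ r, (a.stk r).length + m ≤ M) →
      Sgm (TM2.step fun l => stmt mk (val l)) (fun c => ∀ r, (c.stk r).length ≤ M) a b := by
    intro m
    induction m with
    | zero =>
      intro a b h _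
      obtain rfl := Option.some.inj h
      exact ReflTransGen.refl
    | succ m ih =>
      intro a b h ha
      rw [iterate_succ_apply] at h
      cases e : TM2.step (fun l => stmt mk (val l)) a with
      | none =>
        have h2 : flip bind (TM2.step fun l => stmt mk (val l)) (some a) = none := e
        rw [h2, iterate_fixed rfl] at h
        cases h
      | some c =>
        have h2 : flip bind (TM2.step fun l => stmt mk (val l)) (some a) = some c := e
        rw [h2] at h
        exact ReflTransGen.head ⟨fun r => by have := ha r; omega, e⟩ (ih c b h fun r => by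
          have := ha r; have := step_len mk val e r; omega)
  exact key m _ _ e fun r => by have := hM r; dsimp only; omega

theorem RunS.seq {p q : Prog ι} {s t u : St ι} {M : ℕ} (h1 : RunS p s t M) (h2 : RunS q t u M)
    (hM : ∀ r, (s r).length ≤ M) : RunS (.seq p q) s u M := by
  intro Λ mk val L hL k v hk
  obtain ⟨v1, e1⟩ := h1 Λ mk val L hL (q :: k) v fun x hx => hk x (by simp [reach, hx])
  obtain ⟨v2, e2⟩ := h2 Λ mk val L hL k v1 fun x hx => hk x (by simp [reach, hx])
  exact ⟨v2, ReflTransGen.head ⟨hM, by simp [hL _ (hk _ (self_mem_reach _ _)), stmt]⟩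
    (e1.trans e2)⟩

theorem RunS.loopC {r : ι} {pb : Bool → Prog ι} {s t u : St ι} {M : ℕ} {b : Bool} {l : List Bool}
    (hs : s r = b :: l) (h1 : RunS (pb b) (update s r l) t M) (h2 : RunS (.loop r pb) t u M)
    (hM : ∀ r, (s r).length ≤ M) : RunS (.loop r pb) s u M := by
  intro Λ mk val L hL k v hk
  obtain ⟨v1, e1⟩ := h1 Λ mk val L hL (.loop r pb :: k) (some b) fun x hx => hk x (by
    cases b <;> simp [reach, hx])
  obtain ⟨v2, e2⟩ := h2 Λ mk val L hL k v1 hk
  exact ⟨v2, ReflTransGen.head ⟨hM, by simp [hL _ (hk _ (self_mem_reach _ _)), stmt, hs]⟩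
    (e1.trans e2)⟩

theorem RunS.toTM [Fintype ι] {p : Prog (Option ι)} {x y : List Bool} {M : ℕ}
    (h : RunS p (st x) (st y) M) (hy : y.length ≤ M) :
    Nonempty (TM2Outputs (machine p) x (some y)) ∧ ∀ c, StateTransition.Reaches (machine p).step
      (initList (machine p) x) c → ∀ k, (c.stk k).length ≤ M := by
  obtain ⟨v, e⟩ := h _ (mkLab p) Subtype.val ([] :: reach p []) (mkLab_val p) [] none
    fun x hx => List.mem_cons_of_mem _ hx
  have hi : initList (machine p) x = ⟨some (mkLab p [p]), none, st x⟩ := by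
    unfold initList
    congr 1
    funext k
    cases k <;> rfl
  have hh : haltList (machine p) y = ⟨none, none, st y⟩ := by
    unfold haltList
    congr 1
    funext k
    cases k <;> rfl
  have hl : ∀ r : Option ι, (st y r).length ≤ M := fun r => by cases r <;> simp [st, hy]
  have e2 := ReflTransGen.tail e (c := ⟨none, none, st y⟩)
    ⟨hl, by simp [mkLab_val p [] List.mem_cons_self, stmt]⟩
  obtain ⟨n, hn⟩ := Sgm.evals e2
  refine ⟨⟨⟨n, ?_⟩⟩, ?_⟩
  · rw [hi, Option.map_some, hh]; exact hn
  · rw [hi]; exact Sgm.all e2 rfl hl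

theorem rl_dec : Rl (N487b59b3.bitEncode : List Bool → List Bool) enc := by
  let step : Bool × Bool × List Bool → Bool → Bool × Bool × List Bool := fun s b =>
    cond s.1 (false, true, b :: s.2.2) (!s.2.1, false, s.2.2)
  have h1 : PT fun y : List Bool => (y.foldl step (false, false, [])).2.2.reverse :=
    (PT.foldl_add (f := fun _ => step) (by fun_prop) PT.id (PT.const _) (fun _ => 4) (Bd.const _ _)
      fun a ⟨b1, b2, l⟩ x => by cases b1 <;> simp [step]; omega).snd.snd.reverse
  have h2 : ∀ x l : List Bool, (x.flatMap fun b => [true, b, false]).foldl step (false, false, l) =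
      (false, false, x.reverse ++ l) := fun x => by
    induction x with
    | nil => intro l; rfl
    | cons b x ih => intro l; simp [step, ih]
  refine (Rl.reindex (h1.comp PT.ofRaw) fun x => Raw.mk (N487b59b3.bitEncode x)).congr fun x => ?_
  simp only [bitEncode_list, h2, List.append_nil, List.reverse_reverse]

theorem space_loop {σ : Type} [Enc σ] {init : List Bool → σ} {go out : σ → Bool} {step : σ → σ}
    (hi : PT init) (hg : PT go) (hs : PT step) (ho : PT out) {L : List Bool → Bool}
    {B : List Bool → ℕ} (hB : Bd sz B) (h : ∀ x, ∃ s, ReflTransGen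
      (fun a b => go a = true ∧ sz a ≤ B x ∧ step a = b) (init x) s ∧ go s = false ∧
      sz s ≤ B x ∧ out s = L x) : L ∈ PSPACE := by
  obtain ⟨ι1, _, _, p1, T1, hT1, hp1⟩ := Rl.comp rl_dec (Rl.consBit (hg.comp hi) hi)
  obtain ⟨ι2, _, _, p2, T2, ⟨q2, hT2⟩, hp2⟩ := Rl.consBit (hg.comp hs) hs
  obtain ⟨ι3, _, _, p3, T3, ⟨q3, hT3⟩, hp3⟩ := ho
  let μ := ι1 ⊕ ι2 ⊕ ι3
  let body : Bool → Prog (Option (μ ⊕ Fin 3)) := fun _ => .case none .skip fun b =>
    cond b (.seq (p2.map (Option.map (Sum.inl ∘ Sum.inr ∘ Sum.inl))) (.push (rg 0) true)) .skip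
  let P : Prog (Option (μ ⊕ Fin 3)) := .seq (p1.map (Option.map (Sum.inl ∘ Sum.inl)))
    (.seq (.push (rg 0) true) (.seq (.loop (rg 0) body)
      (p3.map (Option.map (Sum.inl ∘ Sum.inr ∘ Sum.inr)))))
  let M : List Bool → ℕ := fun x => (N487b59b3.bitEncode x).length + 2 * T1 x + B x +
    q2.eval (B x) + q3.eval (B x) + 9
  have s4 : ∀ (w a : List Bool) (n : ℕ) (r : Option (μ ⊕ Fin 3)), w.length ≤ n → a.length ≤ n →
      (S4 w a [] [] r).length ≤ n := fun w a n r h1 h2 => by
    rcases r with _ | _ | j
    · exact h1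
    · exact Nat.zero_le _
    · fin_cases j <;> simp [S4, h2]
  have key : ∀ x, RunS P (st (N487b59b3.bitEncode x)) (st [L x]) (M x) := fun x => by
    obtain ⟨s, h1, h2, h3, h4⟩ := h x
    have lp : ∀ a, ReflTransGen (fun a b => go a = true ∧ sz a ≤ B x ∧ step a = b) a s →
        RunS (.loop (rg 0) body) (S4 (go a :: enc a) [true] [] []) (S4 (enc s) [] [] []) (M x) := by
      intro a ha
      induction ha using ReflTransGen.head_induction_on with
      | refl =>
        rw [h2]
        refine Run.toS (Run.loopC (l := []) (b := true) (t := S4 (enc s) [] [] []) (m := 2)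
          rfl (Run.caseC (l := enc s) (b := false) rfl ((Run.skip _).cast rfl ?_ le_rfl))
          (Run.loopN rfl)) fun r => ?_
        · simp
        have := s4 (false :: enc s) [true] (B x + 1) r (Nat.succ_le_succ h3) (by simp)
        simp only [M]; omega
      | @head a b hab _ ih =>
        obtain ⟨g1, g2, rfl⟩ := hab
        have e1 := (hp2 a).lift (κ := μ ⊕ Fin 3) (f := Sum.inl ∘ Sum.inr ∘ Sum.inl)
          (Sum.inl_injective.comp (Sum.inr_injective.comp Sum.inl_injective))
          (S4 (enc a) [] [] []) (fun _ => rfl) rfl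
        have hT' : T2 a ≤ q2.eval (B x) := (hT2 _).trans (eval_mono q2 g2)
        rw [g1]
        refine RunS.loopC (l := []) (b := true) rfl (Run.toS (n := T2 a + 1 + 1 + 1)
          (Run.caseC (l := enc a) (b := true) rfl (((e1.cast (by simp) rfl le_rfl).seq
            (Run.push _ _ _)).cast rfl (by simp) le_rfl)) fun r => ?_) ih fun r => ?_
        · have := s4 (true :: enc a) [] (B x + 1) r (Nat.succ_le_succ g2) (by simp)
          simp only [M, S4_up0]; omega
        · have := s4 (true :: enc a) [true] (B x + 1) r (Nat.succ_le_succ g2) (by simp)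
          simp only [M]; omega
    have l1 := (hp1 x).length_le none
    have b1 : ∀ r : Option (μ ⊕ Fin 3), (st (N487b59b3.bitEncode x) r).length ≤
        (N487b59b3.bitEncode x).length := fun r => by cases r <;> simp [st]
    have b2 := fun (a : List Bool) (ha : a.length ≤ 1) r => s4 (go (init x) :: enc (init x)) a
      ((N487b59b3.bitEncode x).length + T1 x + 1) r (l1.trans (Nat.le_succ _)) (by omega)
    refine RunS.seq (Run.toS ((hp1 x).lift_st (Sum.inl_injective.comp Sum.inl_injective))
      fun r => ?_) (RunS.seq (t := S4 (go (init x) :: enc (init x)) [true] [] [])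
        (Run.toS ((Run.push _ _ _).cast rfl (by simp [st_eq_S4]) le_rfl) fun r => ?_)
        (RunS.seq (lp _ h1) (Run.toS (((hp3 s).lift_st (Sum.inl_injective.comp
          (Sum.inr_injective.comp Sum.inr_injective))).cast (st_eq_S4 _) (by rw [← h4]; rfl) le_rfl)
          fun r => ?_) fun r => ?_) fun r => ?_) fun r => ?_
    · have := b1 r; simp only [M]; omega
    · have := b2 [] (by simp) r; simp only [M, st_eq_S4]; omega
    · have := s4 (enc s) [] (B x) r h3 (by simp)
      have := (hT3 s).trans (eval_mono q3 h3)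
      simp only [M]; omega
    · have := b2 [true] (by simp) r; simp only [M]; omega
    · have := b2 [] (by simp) r; simp only [M, st_eq_S4]; omega
    · have := b1 r; simp only [M]; omega
  have hl : Bd List.length fun x : List Bool => (N487b59b3.bitEncode x).length :=
    ((Bd.const _ 3).mul (Bd.self _)).mono fun x => by
      rw [bitEncode_list]; simp [List.length_flatMap, mul_comm]
  have hz : Bd List.length B := Bd.trans ((((Bd.self _).mul (Bd.const _ 4)).add
    (Bd.const _ 1)).mono fun x => sz_list_le x 1 fun _ _ => le_rfl) hB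
  obtain ⟨q, hq⟩ : Bd List.length M := ((((hl.add ((Bd.const _ 2).mul (hl.trans hT1))).add hz).add
    (hz.poly q2)).add (hz.poly q3)).add (Bd.const _ 9)
  have e1 : ∀ x : List Bool, List.map (Equiv.refl Bool).invFun x = x := fun x => List.map_id _
  have hm := fun x => (key x).toTM (by simp [M])
  refine ⟨⟨⟨machine P, Equiv.refl _, Equiv.refl _⟩, fun x => ?_⟩, q, fun x c hc k => ?_⟩
  · exact (e1 _).symm ▸ (e1 _).symm ▸ (hm x).1.some
  · exact ((hm x).2 c (e1 (N487b59b3.bitEncode x) ▸ hc) k).trans (hq x)

section Game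
variable {X : Type} [Enc X] (op leaf : X → Bool) (ch : X → List X)

/-- Value of a game tree of given depth. -/
def gval : ℕ → X → Bool
  | 0, x => leaf x
  | d + 1, x => cond (op x) ((ch x).all (gval d)) ((ch x).any (gval d))

/-- Conjunction or disjunction. -/
def cmb (o a b : Bool) : Bool := cond o (a && b) (a || b)

/-- One step of the depth-first evaluation. -/
def gstep (s : List (Bool × List X × Bool) × ℕ) : List (Bool × List X × Bool) × ℕ :=
  lcase s.1 s fun f r => lcase f.2.1
    (lcase r s fun f' r' => ((f'.1, f'.2.1, cmb f'.1 f'.2.2 f.2.2) :: r', s.2 + 1))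
    fun x l => cond (decide (s.2 = 0)) ((f.1, l, cmb f.1 f.2.2 (leaf x)) :: r, s.2)
      ((op x, ch x, op x) :: (f.1, l, f.2.2) :: r, s.2 - 1)

/-- The evaluation goes on. -/
def ggo (s : List (Bool × List X × Bool) × ℕ) : Bool :=
  lcase s.1 false fun f r => !(f.2.1.isEmpty && r.isEmpty)

variable {op leaf ch}

theorem game_run (Q : X → Prop) (hQ : ∀ x, Q x → ∀ y ∈ ch x, Q y) (F D : ℕ)
    (hF : ∀ x, Q x → sz (ch x) ≤ F) (d : ℕ) : ∀ (l : List X) (o a : Bool)
    (r : List (Bool × List X × Bool)), (∀ x ∈ l, Q x) → sz l ≤ F → (∀ f ∈ r, sz f ≤ 2 * F + 5) →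
    r.length + d ≤ D → ReflTransGen (fun s s' => ggo s = true ∧
      sz s ≤ 2 * ((D + 1) * (4 * F + 12) + 1) + D + 1 ∧ gstep op leaf ch s = s')
      ((o, l, a) :: r, d)
      ((o, [], cmb o a (cond o (l.all (gval op leaf ch d)) (l.any (gval op leaf ch d)))) :: r, d) := by
  have hsz : ∀ (s : List (Bool × List X × Bool)) (d : ℕ), (∀ f ∈ s, sz f ≤ 2 * F + 5) →
      s.length + d ≤ D + 1 → 1 ≤ s.length →
      sz (s, d) ≤ 2 * ((D + 1) * (4 * F + 12) + 1) + D + 1 := fun s d h1 h2 h3 => by
    have := sz_list_le s _ h1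
    have : s.length * (2 * (2 * F + 5) + 2) ≤ (D + 1) * (4 * F + 12) :=
      Nat.mul_le_mul (by omega) (by omega)
    simp only [sz_pair, sz_nat]; omega
  have hc : ∀ (o a : Bool) (f : X → Bool) (x : X) (l : List X),
      cmb o a (cond o ((x :: l).all f) ((x :: l).any f)) =
        cmb o (cmb o a (f x)) (cond o (l.all f) (l.any f)) := fun o a f x l => by
    cases o <;> simp [cmb, Bool.and_assoc, Bool.or_assoc]
  induction d with
  | zero =>
    intro l
    induction l with
    | nil => intro o a r _ _ _ _; cases o <;> cases a <;> exact ReflTransGen.refl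
    | cons x l ih =>
      intro o a r h1 h2 h3 h4
      refine ReflTransGen.head ⟨rfl, hsz _ _ (List.forall_mem_cons.2 ⟨by simp at h2 ⊢; omega, h3⟩)
        (by simp; omega) (by simp), rfl⟩ ?_
      rw [hc]
      exact ih o (cmb o a (leaf x)) r (fun y hy => h1 y (by simp [hy])) (by simp at h2; omega)
        h3 h4
  | succ d ihd =>
    intro l
    induction l with
    | nil => intro o a r _ _ _ _; cases o <;> cases a <;> exact ReflTransGen.refl
    | cons x l ih =>
      intro o a r h1 h2 h3 h4
      have h5 : ∀ f ∈ (o, l, a) :: r, sz f ≤ 2 * F + 5 :=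
        List.forall_mem_cons.2 ⟨by simp at h2 ⊢; omega, h3⟩
      refine ReflTransGen.head ⟨rfl, hsz _ _ (List.forall_mem_cons.2 ⟨by simp at h2 ⊢; omega, h3⟩)
        (by simp; omega) (by simp), rfl⟩ ?_
      refine (ihd (ch x) (op x) (op x) ((o, l, a) :: r) (hQ x (h1 x (by simp)))
        (hF x (h1 x (by simp))) h5 (by simp; omega)).trans (ReflTransGen.head ⟨rfl, hsz _ _
          (List.forall_mem_cons.2 ⟨by simp at h2 ⊢; omega, h5⟩) (by simp; omega) (by simp), rfl⟩ ?_)
      have e : cmb (op x) (op x) (cond (op x) ((ch x).all (gval op leaf ch d))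
          ((ch x).any (gval op leaf ch d))) = gval op leaf ch (d + 1) x := by
        simp only [gval]; cases op x <;> simp [cmb]
      rw [hc, e]
      exact ih o (cmb o a (gval op leaf ch (d + 1) x)) r (fun y hy => h1 y (by simp [hy]))
        (by simp at h2; omega) h3 h4

theorem game_space (h1 : PT op) (h2 : PT leaf) (h3 : PT ch) {x0 : List Bool → X}
    {D : List Bool → ℕ} (h4 : PT x0) (h5 : PT D) (Q : List Bool → X → Prop) (hQ0 : ∀ y, Q y (x0 y))
    (hQ : ∀ y x, Q y x → ∀ x' ∈ ch x, Q y x') {B : List Bool → ℕ} (hB : Bd sz B)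
    (hB' : ∀ y x, Q y x → sz x ≤ B y) : (fun y => gval op leaf ch (D y) (x0 y)) ∈ PSPACE := by
  obtain ⟨q, hq⟩ := h3.bd
  let F : List Bool → ℕ := fun y => q.eval (B y) + 2 * B y + 3
  have hF : Bd sz F := ((hB.poly q).add ((Bd.const _ _).mul hB)).add (Bd.const _ _)
  refine space_loop (init := fun y => ([(false, [x0 y], false)], D y)) (go := ggo)
    (step := gstep op leaf ch) (out := fun s => (s.1.headD (false, [], false)).2.2) (by fun_prop)
    (by unfold ggo; fun_prop) (by unfold gstep cmb; fun_prop) (by fun_prop)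
    (B := fun y => 2 * ((D y + 1) * (4 * F y + 12) + 1) + D y + 1)
    (((((Bd.const _ _).mul (((h5.bdNat.add (Bd.const _ _)).mul (((Bd.const _ _).mul hF).add
      (Bd.const _ _))).add (Bd.const _ _))).add h5.bdNat).add (Bd.const _ _)))
    fun y => ⟨_, game_run (Q y) (hQ y) (F y) (D y) (fun x hx => ?_) (D y) [x0 y] false false []
      (by simpa using hQ0 y) ?_ (by simp) (by simp), rfl, ?_, by simp [cmb]⟩
  · have : sz (ch x) ≤ _ := (hq x).trans (eval_mono q (hB' y x hx))
    simp only [F]; omega
  · have := hB' y _ (hQ0 y)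
    simp [F]; omega
  · have : 1 * 16 ≤ (D y + 1) * (4 * F y + 12) :=
      Nat.mul_le_mul (by omega) (by simp only [F]; omega)
    simp; omega

end Game

end Pool.Agent.P.MP_26ce3f_co
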