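import Pool.Agent.P.MP_26ce3f_co.PS.Reg
import Pool.Agent.P.MP_26ce3f_co.PS.Space
import Pool.Agent.P.MP_26ce3f_co.Hard

/-! The shift register simulates space-bounded machines. -/

namespace Pool.Agent.P.MP_26ce3f_co

open Function Turing Turing.TM2 Pool.Agent.Lib.helper21 Pool.Agent.Lib.helper77

/-- The number with digits `d 0, …, d (n - 1)`. -/
def win (D : ℕ) (d : ℕ → ℕ) : ℕ → ℕ
  | 0 => 0
  | n + 1 => win D d n * D + d n

theorem win_add (D : ℕ) (d : ℕ → ℕ) (m n : ℕ) :
    win D d (m + n) = win D d m * D ^ n + win D (fun i => d (m + i)) n := by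
  induction n with
  | zero => simp [win]
  | succ n ih => rw [← add_assoc, win, ih, win]; ring

theorem win_lt {D : ℕ} {d : ℕ → ℕ} (h : ∀ i, d i < D) (n : ℕ) : win D d n < D ^ n := by
  induction n with
  | zero => simp [win]
  | succ n ih =>
    have := h n
    rw [win, pow_succ]; nlinarith

theorem win_sum (D : ℕ) (d : ℕ → ℕ) (n : ℕ) :
    (win D d n : ℤ) = ((List.range n).map fun i => (d i : ℤ) * (D : ℤ) ^ (n - (i + 1))).sum := by
  induction n with
  | zero => simp [win]
  | succ n ih =>
    rw [win, List.range_succ, List.map_append, List.sum_append]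
    push_cast
    rw [ih, ← List.sum_map_mul_right]
    simp only [List.map_cons, List.map_nil, List.sum_cons, List.sum_nil, Nat.sub_self, pow_zero,
      mul_one, add_zero, add_left_inj]
    congr 1
    refine List.map_congr_left fun i hi => ?_
    rw [show n - i = n - (i + 1) + 1 by have := List.mem_range.1 hi; omega]; ring

theorem iter_stop {f out W : ℕ → ℕ} {S : ℕ → Prop} (h1 : ∀ m, out (W m) = 0 ↔ S m)
    (h2 : ∀ m, ¬ S m → f (W m) = W (m + 1)) : (∃ m, out (f^[m] (W 0)) = 0) ↔ ∃ m, S m := by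
  classical
  have h : ∀ m, (∀ j < m, ¬ S j) → f^[m] (W 0) = W m := fun m => by
    induction m with
    | zero => exact fun _ => rfl
    | succ m ih =>
      intro hm
      rw [iterate_succ_apply', ih fun j hj => hm j (by omega), h2 m (hm m (by omega))]
  constructor
  · rintro ⟨m, hm⟩
    by_contra h3
    rw [h m fun j _ hj => h3 ⟨j, hj⟩, h1] at hm
    exact h3 ⟨m, hm⟩
  · intro h3
    exact ⟨Nat.find h3, by rw [h _ fun j hj => Nat.find_min h3 hj, h1]; exact Nat.find_spec h3⟩

theorem sr_sim {C : Type} {Gs : Set C} (hG : Gs.Finite) (c0 : C) (F : C → C → C → C → C)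
    (S : C → Prop) : ∃ (D T U : ℕ) (c : C → ℕ), ∀ (n : ℕ) (a : ℕ → C), (∀ j, a j ∈ Gs) →
      (∀ j, a (j + (n + 3) + 1) = F (a j) (a (j + 1)) (a (j + 2)) (a (j + (n + 3)))) →
      (SR ![D, D ^ (n + 1), D ^ (n + 3), T, U, win D (fun i => c (a i)) (n + 4)] ↔
        ∃ j, S (a (j + 1))) := by
  classical
  let vals := hG.toFinset.toList
  let D := vals.length + 1
  let c : C → ℕ := fun x => vals.idxOf x + 1
  let dec : ℕ → C := fun i => vals.getD (i - 1) c0
  have hv : ∀ x ∈ Gs, x ∈ vals := fun x hx => by simpa [vals] using hx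
  have hd : ∀ x ∈ Gs, dec (c x) = x := fun x hx => by
    have := List.idxOf_lt_length_iff.2 (hv x hx)
    simp only [dec, c, Nat.add_sub_cancel, List.getD_eq_getElem _ _ this, List.getElem_idxOf]
  have hc : ∀ x ∈ Gs, c x < D := fun x hx => Nat.succ_lt_succ (List.idxOf_lt_length_iff.2 (hv x hx))
  let tb : ℕ → ℕ := fun i => if S (dec (i / D / D % D)) then 0 else
    c (F (dec (i / D / D / D)) (dec (i / D / D % D)) (dec (i / D % D)) (dec (i % D)))
  let l := (List.range (D ^ 4)).map tb
  refine ⟨D, (Nat.unbeta l).unpair.1, (Nat.unbeta l).unpair.2, c, fun n a ha hF => ?_⟩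
  have hD : 0 < D := Nat.succ_pos _
  let W : ℕ → ℕ := fun j => win D (fun i => c (a (j + i))) (n + 4)
  have lt : ∀ j n, win D (fun i => c (a (j + i))) n < D ^ n := fun j =>
    win_lt fun i => hc _ (ha _)
  have dm : ∀ x y, y < D → (x * D + y) / D = x ∧ (x * D + y) % D = y := fun x y h =>
    ⟨(divmod_eq rfl h).1.symm, (divmod_eq rfl h).2.symm⟩
  have ho : ∀ j, srOut ![D, D ^ (n + 1), D ^ (n + 3), (Nat.unbeta l).unpair.1,
      (Nat.unbeta l).unpair.2, W 0] (W j) =
      if S (a (j + 1)) then 0 else c (a (j + (n + 3) + 1)) := fun j => by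
    have e1 : W j / D ^ (n + 1) = win D (fun i => c (a (j + i))) 3 := by
      refine (divmod_eq (r := win D (fun i => c (a (j + 3 + i))) (n + 1)) ?_ (lt _ _)).1.symm
      simp only [W, add_assoc]
      rw [← win_add D (fun i => c (a (j + i))) 3, show n + 4 = 3 + (n + 1) by omega]
    have e2 : W j % D = c (a (j + (n + 3))) := (dm _ _ (hc _ (ha _))).2
    have e3 : win D (fun i => c (a (j + i))) 3 * D + c (a (j + (n + 3))) < l.length := by
      have := lt j 3
      have := hc _ (ha (j + (n + 3)))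
      simp only [l, List.length_map, List.length_range]
      rw [pow_succ D 3]; nlinarith
    have e4 := Nat.beta_unbeta_coe l ⟨_, e3⟩
    simp only [srOut, Matrix.cons_val, e1, e2]
    rw [← add_assoc]
    refine e4.trans ?_
    simp only [l, Fin.getElem_fin, List.getElem_map, List.getElem_range, tb, win,
      dm _ _ (hc _ (ha _)), zero_mul, zero_add, hd _ (ha _), add_zero, hF]
  have key := iter_stop (W := W) (S := fun j => S (a (j + 1)))
    (out := srOut ![D, D ^ (n + 1), D ^ (n + 3), (Nat.unbeta l).unpair.1,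
      (Nat.unbeta l).unpair.2, W 0])
    (f := srStep ![D, D ^ (n + 1), D ^ (n + 3), (Nat.unbeta l).unpair.1,
      (Nat.unbeta l).unpair.2, W 0]) (fun j => by rw [ho]; simp [c]) fun j hj => by
    have e1 : W j % D ^ (n + 3) = win D (fun i => c (a (j + 1 + i))) (n + 3) := by
      refine (divmod_eq (q := win D (fun i => c (a (j + i))) 1) ?_ (lt _ _)).2.symm
      simp only [W, add_assoc]
      rw [← win_add D (fun i => c (a (j + i))) 1, show n + 4 = 1 + (n + 3) by omega]
    rw [srStep, ho, if_neg hj]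
    simp only [Matrix.cons_val, e1]
    rw [show j + (n + 3) + 1 = j + 1 + (n + 3) by omega]; rfl
  have e0 : win D (fun i => c (a i)) (n + 4) = W 0 := by simp only [W, zero_add]
  rw [e0, ← key]
  exact ⟨fun h => h.2.2.2, fun h => ⟨hD, pow_pos hD _, pow_pos hD _, h⟩⟩

section
variable {K : Type} [DecidableEq K] {Γ : K → Type} {Λ σ : Type} (M : Λ → Stmt Γ Λ σ)

theorem space_run (D : ℕ) (hD : ∀ l, depth (M l) ≤ D) (s n : ℕ) : ∀ c c' : Cfg Γ Λ σ,
    (flip bind (step M))^[n] (some c) = some c' → c'.l = none →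
    (∀ c1, StateTransition.Reaches (step M) c c1 → ∀ k, (c1.stk k).length ≤ s) →
    ∀ i k, (((mstep M)^[i] (conv M c)).2 k).length ≤ s + D := by
  induction n with
  | zero =>
    intro c c' h h0 hs i k
    obtain rfl : c = c' := by simpa using h
    rw [run_halt M (d := 0) rfl (by simp [conv, h0]) (Nat.zero_le i)]
    exact (hs c Relation.ReflTransGen.refl k).trans (Nat.le_add_right _ _)
  | succ n ih =>
    rintro ⟨l, v, S⟩ c' h h0 hs i k
    rw [iterate_succ_apply] at h
    cases l with
    | none =>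
      have : ∀ n, (flip bind (step M))^[n] none = none := fun n => iterate_fixed rfl n
      exact absurd ((this n).symm.trans h) (by simp)
    | some l =>
      obtain ⟨d, hd, e⟩ := sim_stmt M (M l) v S
      rcases le_total i d with h1 | h1
      · have := length_run M (conv M ⟨some l, v, S⟩) i k
        have h2 : ((conv M ⟨some l, v, S⟩).2 k).length ≤ s := hs _ Relation.ReflTransGen.refl k
        have := hD l
        omega
      · obtain ⟨j, rfl⟩ := Nat.exists_eq_add_of_le' h1
        rw [iterate_add_apply]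
        exact e ▸ ih _ c' h h0 (fun c1 h1 => hs c1 (Relation.ReflTransGen.head rfl h1)) j k

/-- A cell, with flags for the first and last column. -/
def cellF (c : MC Γ Λ σ) (R j : ℕ) : Bool × Bool × Dm Γ Λ σ :=
  (decide (j = 0), decide (j + 1 = R), cellOf c j)

/-- The new column. -/
def ncol (x y z : Bool × Bool × Dm Γ Λ σ) : Col Γ := fun k =>
  match act y.2.2.1 k with
  | none => y.2.2.2.2 k
  | some none => cond y.2.1 none (z.2.2.2.2 k)
  | some (some g) => cond y.1 (some g) (x.2.2.2.2 k)

/-- The new cell. -/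
def ncell (x y z e : Bool × Bool × Dm Γ Λ σ) : Bool × Bool × Dm Γ Λ σ :=
  (y.1, y.2.1, nxt M y.2.2.1 y.2.2.2.1, cond y.1 (ncol x y z) e.2.2.2.1, ncol x y z)

theorem ncell_eq (c : MC Γ Λ σ) {R j : ℕ} (hR : ∀ k, (c.2 k).length ≤ R)
    {x z e : Bool × Bool × Dm Γ Λ σ} (hx : j ≠ 0 → x = cellF c R (j - 1))
    (hz : j + 1 ≠ R → z = cellF c R (j + 1)) (he : j ≠ 0 → e = cellF (mstep M c) R (j - 1)) :
    ncell M x (cellF c R j) z e = cellF (mstep M c) R j := by
  have h : ncol x (cellF c R j) z = fun k => ((mstep M c).2 k)[j]? := by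
    funext k
    simp only [ncol, cellF, cellOf, mstep]
    rcases act c.1 k with _ | _ | g
    · rfl
    · by_cases h1 : j + 1 = R
      · have := hR k
        simp only [h1, decide_true, cond_true, app, List.getElem?_tail]
        exact (List.getElem?_eq_none (by omega)).symm
      · simp [hz h1, h1, app, cellF, cellOf]
    · cases j with
      | zero => rfl
      | succ j => simp [hx, app, cellF, cellOf]
  rw [ncell, h]
  cases j with
  | zero => simp [cellF, cellOf, mstep, List.head?_eq_getElem?]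
  | succ j => rw [he (by omega)]; simp [cellF, cellOf, mstep]

theorem stream_rec (c : MC Γ Λ σ) (n : ℕ) (h : ∀ i k, (((mstep M)^[i] c).2 k).length ≤ n + 3)
    (a : ℕ → Bool × Bool × Dm Γ Λ σ)
    (ha : ∀ j, a (j + 1) = cellF ((mstep M)^[j / (n + 3)] c) (n + 3) (j % (n + 3))) (j : ℕ) :
    a (j + (n + 3) + 1) = ncell M (a j) (a (j + 1)) (a (j + 2)) (a (j + (n + 3))) := by
  have hb : ∀ i r, r < n + 3 → a (i * (n + 3) + r + 1) = cellF ((mstep M)^[i] c) (n + 3) r :=
    fun i r hr => by rw [ha, ← (divmod_eq rfl hr).1, ← (divmod_eq rfl hr).2]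
  obtain ⟨i, r, hr, rfl⟩ : ∃ i r, r < n + 3 ∧ j = i * (n + 3) + r :=
    ⟨_, _, Nat.mod_lt _ (by omega), (Nat.div_add_mod' _ _).symm⟩
  rw [hb i r hr, show i * (n + 3) + r + (n + 3) + 1 = (i + 1) * (n + 3) + r + 1 by ring,
    hb _ r hr, iterate_succ_apply']
  refine (ncell_eq M _ (h i) (fun h0 => ?_) (fun h0 => ?_) fun h0 => ?_).symm
  · rw [← hb i _ (by omega)]; congr 1; omega
  · rw [← hb i _ (by omega)]; rfl
  · rw [← iterate_succ_apply' (mstep M), ← hb _ _ (by omega)]; congr 1
    rw [Nat.succ_mul]; omega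

end

theorem PT.bcase {α β : Type} [Enc α] [Enc β] {b : α → Bool} {f : Bool → α → β} (hb : PT b)
    (hf : ∀ v, PT (f v)) : PT fun a => f (b a) a :=
  (hb.cond (hf true) (hf false)).of_eq fun a => by cases b a <;> rfl

theorem PT.b6 {α β : Type} [Enc α] [Enc β] (g : Bool → Bool → Bool → Bool → Bool → Bool → β)
    {b1 b2 b3 b4 b5 b6 : α → Bool} (h1 : PT b1) (h2 : PT b2) (h3 : PT b3) (h4 : PT b4)
    (h5 : PT b5) (h6 : PT b6) : PT fun a => g (b1 a) (b2 a) (b3 a) (b4 a) (b5 a) (b6 a) :=
  PT.bcase (f := fun c1 a => g c1 (b2 a) (b3 a) (b4 a) (b5 a) (b6 a)) h1 fun c1 =>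
    PT.bcase (f := fun c2 a => g c1 c2 (b3 a) (b4 a) (b5 a) (b6 a)) h2 fun c2 =>
    PT.bcase (f := fun c3 a => g c1 c2 c3 (b4 a) (b5 a) (b6 a)) h3 fun c3 =>
    PT.bcase (f := fun c4 a => g c1 c2 c3 c4 (b5 a) (b6 a)) h4 fun c4 =>
    PT.bcase (f := fun c5 a => g c1 c2 c3 c4 c5 (b6 a)) h5 fun c5 =>
    PT.bcase (f := fun c6 _ => g c1 c2 c3 c4 c5 c6) h6 fun _ => PT.const _

theorem sr_hard (L : List Bool → Bool) (hL : L ∈ PSPACE) : ∃ P : List Bool → Fin 6 → ℕ,
    (∀ i, PT fun x => (P x i : ℤ)) ∧ ∀ x, L x = true ↔ SR (P x) := by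
  obtain ⟨⟨⟨tm, ein, eout⟩, hT⟩, p, hp⟩ := hL
  have := tm.kFin
  have := tm.ΛFin
  have := tm.σFin
  have := tm.Γk₀Fin
  let G : Set (Σ k, tm.Γ k) := (⋃ l, pushes (tm.m l)) ∪ Set.range (Sigma.mk tm.k₀)
  have hG : G.Finite := (Set.finite_iUnion fun l => pushes_finite _).union (Set.finite_range _)
  have hfin := (Set.finite_univ (α := Bool)).prod ((Set.finite_univ (α := Bool)).prod
    (good_finite tm.m hG))
  let c : List Bool → MC tm.Γ tm.Λ tm.σ := fun y => conv tm.m (initList tm (y.map ein.symm))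
  obtain ⟨D, T, U, cd, hs⟩ := sr_sim hfin (cellF (c []) 0 0) (ncell tm.m)
    fun e => e.2.2.1.1 = none ∧ e.2.2.2.1 tm.k₁ = some (eout.symm true)
  let d := Finset.univ.sup fun l => depth (tm.m l)
  have hd : ∀ l, depth (tm.m l) ≤ d := fun l =>
    Finset.le_sup (f := fun l => depth (tm.m l)) (Finset.mem_univ l)
  let y : List Bool → List Bool := fun x => x.flatMap fun b => [true, b, false]
  let n : List Bool → ℕ := fun x => p.eval x.length + d
  have hy : PT y := by fun_prop
  have hn : PT n := (PT.poly (by fun_prop) p).add (PT.const d)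
  let a : List Bool → ℕ → Bool × Bool × Dm tm.Γ tm.Λ tm.σ := fun x j =>
    cellF ((mstep tm.m)^[(j - 1) / (n x + 3)] (c (y x))) (n x + 3) ((j - 1) % (n x + 3))
  have hc2 : ∀ y k, k ≠ tm.k₀ → (c y).2 k = [] := fun y k hk => dif_neg hk
  have hc3 : ∀ y, (c y).2 tm.k₀ = y.map ein.symm := fun y => dif_pos rfl
  refine ⟨fun x => ![D, D ^ (n x + 1), D ^ (n x + 3), T, U, win D (fun i => cd (a x i)) (n x + 4)],
    fun i => ?_, fun x => ?_⟩
  · have hP : ∀ e, PT fun x => ((D ^ (n x + e) : ℕ) : ℤ) := fun e =>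
      ((PT.const (D : ℤ)).intPow (hn.add (PT.const e))).of_eq fun x => by simp
    fin_cases i
    · exact PT.const (D : ℤ)
    · exact hP 1
    · exact hP 3
    · exact PT.const (T : ℤ)
    · exact PT.const (U : ℤ)
    let o : List Bool → ℕ → Col tm.Γ := fun y j k => ((c y).2 k)[j]?
    have ho : ∀ y j, o y j = o (cond (decide (j < y.length)) [y.getD j false] []) 0 :=
      fun y j => funext fun k => by
        by_cases hk : k = tm.k₀
        · subst hk
          by_cases hj : j < y.length <;> simp [o, hc3, hj]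
        · simp [o, hc2 _ k hk]
    let g : Bool → Bool → Bool → Bool → Bool → Bool → ℤ := fun b1 b2 b3 b4 b5 b6 =>
      cd (b1, b2, (c []).1, o (cond b3 [b4] []) 0, o (cond b5 [b6] []) 0)
    have hg : PT fun q : List Bool × ℕ => g (decide (q.2 - 1 = 0)) (decide (q.2 - 1 + 1 = n q.1 + 3))
        (decide (0 < (y q.1).length)) ((y q.1).getD 0 false) (decide (q.2 - 1 < (y q.1).length))
        ((y q.1).getD (q.2 - 1) false) :=
      PT.b6 g (by fun_prop) (by fun_prop) (by fun_prop) (by fun_prop) (by fun_prop) (by fun_prop)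
    have hq : PT fun q : List Bool × ℕ => (D : ℤ) ^ (n q.1 + 4 - (q.2 + 1)) :=
      (PT.const (D : ℤ)).intPow (by fun_prop)
    have hr : PT fun x => List.range (n x + 4) := by fun_prop
    have hm := PT.map (g := fun x i =>
      g (decide (i - 1 = 0)) (decide (i - 1 + 1 = n x + 3)) (decide (0 < (y x).length))
        ((y x).getD 0 false) (decide (i - 1 < (y x).length)) ((y x).getD (i - 1) false) *
        (D : ℤ) ^ (n x + 4 - (i + 1))) hr (hg.intMul hq)
    show PT fun x => (win D (fun i => cd (a x i)) (n x + 4) : ℤ)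
    refine hm.intSum.of_eq fun x => ?_
    refine Eq.trans ?_ (win_sum D (fun i => cd (a x i)) (n x + 4)).symm
    congr 1
    refine List.map_congr_left fun i hi => ?_
    have hi' : i - 1 < n x + 3 := by have := List.mem_range.1 hi; omega
    simp only [g, ← ho, a, Nat.div_eq_of_lt hi', Nat.mod_eq_of_lt hi', iterate_zero, id, cellF,
      cellOf, List.head?_eq_getElem?]
    rfl
  · obtain ⟨m, hm⟩ := hT x
    have hp := hp x
    dsimp only at hm hp
    rw [bitEncode_list] at hm hp
    have h1 := space_run tm.m d hd _ m _ _ hm rfl hp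
    obtain ⟨m', -, e1⟩ := sim_run tm.m d hd m _ _ hm
    have e2 : ∀ i, ((mstep tm.m)^[i] (c (y x))).1.1 = none → (mstep tm.m)^[i] (c (y x)) =
        conv tm.m (haltList tm [eout.symm (L x)]) := fun i hi =>
      (run_halt tm.m rfl hi (le_max_left i m')).symm.trans
        (run_halt tm.m e1 rfl (le_max_right i m'))
    have e3 : ((conv tm.m (haltList tm [eout.symm (L x)])).2 tm.k₁) = [eout.symm (L x)] :=
      dif_pos rfl
    rw [hs (n x) (a x) (fun j => ?_) (stream_rec tm.m (c (y x)) (n x)
      (fun i k => (h1 i k).trans (Nat.le_add_right _ 3)) (a x) fun j => rfl)]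
    · constructor
      · intro hx
        refine ⟨m' * (n x + 3), ?_⟩
        have e4 : (mstep tm.m)^[m'] (c (y x)) = conv tm.m (haltList tm [eout.symm (L x)]) := e1
        simp only [a, Nat.add_sub_cancel, Nat.mul_div_cancel _ (Nat.succ_pos _), cellF, cellOf,
          e4, e3]
        exact ⟨rfl, by rw [hx]; rfl⟩
      · rintro ⟨j, h2, h3⟩
        simp only [a, cellF, cellOf] at h2 h3
        rw [e2 _ h2, e3] at h3
        simpa using h3
    · obtain ⟨g1, g2⟩ := good_run tm.m G
        (fun l => (Set.subset_iUnion (fun l => pushes (tm.m l)) l).trans Set.subset_union_left)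
        (c (y x)) (by
          rintro _ ⟨⟩
          exact ⟨⟨_, stmts₁_self⟩,
            (Set.subset_iUnion (fun l => pushes (tm.m l)) _).trans Set.subset_union_left⟩)
        (fun k z hz => by
          by_cases hk : k = tm.k₀
          · subst hk; exact Or.inr ⟨z, rfl⟩
          · rw [hc2 _ k hk] at hz; simp at hz) ((j - 1) / (n x + 3))
      exact ⟨trivial, trivial, g1, fun k z hz => g2 k z (List.mem_of_mem_head? hz),
        fun k z hz => g2 k z (List.mem_of_getElem? hz)⟩

/-- Transfer of a reduction to a predicate expressed by spectra. -/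
theorem Expr.reduce {ι : Type} {φ : (ι → ℕ) → Prop} {k t : ℕ} (h : Expr φ (Fin k) t)
    {P : List Bool → ι → ℕ} (hP : ∀ i, PT fun x => (P x i : ℤ)) :
    ∃ f : List Bool → List ℕ, (PT fun x => N487b59b3.bitEncode (f x)) ∧
      ∀ x, φ (P x) ↔ ∃ w : List (Fin k), spec t w = f x := by
  obtain ⟨G, hG, hG'⟩ := h
  have hz : ∀ l : List (List (Fin k)), PT fun x => l.map (G (P x)) := fun l => by
    induction l with
    | nil => exact PT.const []
    | cons u l ih => exact ((hG u).pt hP).cons ih
  have hb : PT fun z : ℤ => z.natAbs.bits :=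
    PT.ofRaw.comp (g := fun z : ℤ => Raw.mk z.natAbs.bits) (PT.absB PT.id)
  refine ⟨fun x => cond (((words k t).map (G (P x))).any isNeg) []
    (((words k t).map (G (P x))).map Int.natAbs), (PT.of_eq
      (f := fun x => cond (((words k t).map (G (P x))).any isNeg) []
        (((words k t).map (G (P x))).flatMap fun z =>
          (z.natAbs.bits.flatMap fun b => [true, b]) ++ [false])) ?_ fun x => ?_),
    fun x => ⟨fun hx => ?_, ?_⟩⟩
  · have h1 : PT fun l : List ℤ => cond (l.any isNeg) [] (l.flatMap fun z =>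
        (z.natAbs.bits.flatMap fun b => [true, b]) ++ [false]) :=
      PT.cond (by fun_prop) (PT.const _) (PT.flatMap PT.id (PT.append (PT.flatMap
        (hb.comp (g := fun p : List ℤ × ℤ => p.2) (by fun_prop)) (by fun_prop)) (PT.const _)))
    exact h1.comp (hz (words k t))
  · beta_reduce
    cases ((words k t).map (G (P x))).any isNeg
    · show _ = ((List.map N487b59b3.bitEncode _).map N487b59b3.delimit).flatten
      simp only [cond_false, List.map_map, List.flatMap_def]
      congr 1
      refine List.map_congr_left fun u _ => ?_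
      simp only [Function.comp_apply, delimit_eq, List.flatMap_def]
      rw [← encodeNat_eq]; rfl
    · rfl
  · obtain ⟨w, hw⟩ := (hG' (P x)).1 hx
    have e : (words k t).map (G (P x)) = (words k t).map (ws w) :=
      List.map_congr_left fun u hu => (hw u (mem_words.1 hu).le).symm
    refine ⟨w, ?_⟩
    beta_reduce
    rw [e, List.any_eq_false.2 (by simp [isNeg, ws_apply])]
    simp [spec, ws_apply]
  · rintro ⟨w, hw⟩
    beta_reduce at hw
    refine (hG' (P x)).2 ⟨w, fun u hu => ?_⟩
    cases hn : ((words k t).map (G (P x))).any isNeg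
    · rw [hn, cond_false, spec, List.map_map, List.map_inj_left] at hw
      have h1 := hw u (mem_words.2 hu)
      have h2 := List.any_eq_false.1 hn _ (List.mem_map_of_mem (mem_words.2 hu))
      simp only [isNeg, decide_eq_true_eq, Function.comp_apply] at h1 h2
      rw [ws_apply, h1]; omega
    · rw [hn, cond_true, spec, List.map_eq_nil_iff] at hw
      exact absurd (mem_words.2 hu) (by simp [hw])

end Pool.Agent.P.MP_26ce3f_co
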