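import Pool.Agent.P.MP_26ce3f_co.PS.Loop
import Pool.Agent.P.MP_26ce3f_co.PS.Lang
import Pool.Agent.P.MP_26ce3f_co.PS.TM

/-! Membership in the set of spectra is decidable in polynomial space. -/

namespace Pool.Agent.P.MP_26ce3f_co

open Pool.Agent.Lib.helper21 Pool.Agent.Lib.helper77

section
variable {α β γ : Type} [Enc α] [Enc β]

theorem PT.mapC {f : α → γ → β} (h : ∀ u, PT fun x => f x u) (l : List γ) :
    PT fun x => l.map (f x) := by
  induction l with
  | nil => exact PT.const []
  | cons u l ih => exact (h u).cons ih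

theorem PT.allC {f : α → γ → Bool} (h : ∀ u, PT fun x => f x u) (l : List γ) :
    PT fun x => l.all (f x) := by
  induction l with
  | nil => exact PT.const true
  | cons u l ih => exact (h u).and ih

theorem PT.anyC {f : α → γ → Bool} (h : ∀ u, PT fun x => f x u) (l : List γ) :
    PT fun x => l.any (f x) := by
  induction l with
  | nil => exact PT.const false
  | cons u l ih => exact (h u).or ih

theorem PT.serMul {f g : α → Ser γ} (hf : ∀ u, PT fun x => f x u) (hg : ∀ u, PT fun x => g x u)
    (u : List γ) : PT fun x => (f x * g x) u := by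
  induction u generalizing f with
  | nil => exact (hf []).intMul (hg [])
  | cons a u ih =>
    exact ((hf []).intMul (hg _)).intAdd (ih (f := fun x => Ser.der a (f x)) fun v => hf (a :: v))

theorem PT.bitsEq {f g : α → List Bool} (hf : PT f) (hg : PT g) :
    PT fun x => decide (f x = g x) := by
  have h : PT fun x => (decide ((f x).length = (g x).length) && (List.range (f x).length).all
      fun i => !xor ((f x).getD i false) ((g x).getD i false)) := by fun_prop
  refine h.of_eq fun x => ?_
  rw [Bool.eq_iff_iff]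
  simp only [Bool.and_eq_true, decide_eq_true_eq, List.all_eq_true, List.mem_range]
  refine ⟨fun ⟨h1, h2⟩ => List.ext_getElem h1 fun i h3 h4 => ?_, fun e => by simp [e]⟩
  simpa [h3, h4] using h2 i h3

end

/-- Code of a list of integers. -/
def encZ (l : List ℤ) : List Bool :=
  l.flatMap fun z => (z.natAbs.bits.flatMap fun b => [true, b]) ++ [false]

theorem pt_encZ : PT encZ := by
  have hb : PT fun z : ℤ => z.natAbs.bits :=
    PT.ofRaw.comp (g := fun z : ℤ => Raw.mk z.natAbs.bits) (PT.absB PT.id)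
  exact PT.flatMap PT.id (PT.append (PT.flatMap
    (hb.comp (g := fun p : List ℤ × ℤ => p.2) (by fun_prop)) (by fun_prop)) (PT.const _))

theorem encZ_eq (l : List ℤ) : encZ l = N487b59b3.bitEncode (l.map Int.natAbs) := by
  show _ = ((List.map N487b59b3.bitEncode _).map N487b59b3.delimit).flatten
  simp only [encZ, List.map_map, List.flatMap_def]
  congr 1
  refine List.map_congr_left fun u _ => ?_
  simp only [Function.comp_apply, delimit_eq, List.flatMap_def]
  rw [← encodeNat_eq]; rfl

theorem spec_enc {k t : ℕ} (w : List (Fin k)) :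
    N487b59b3.bitEncode (spec t w) = encZ ((words k t).map (ws w)) := by
  rw [encZ_eq]; simp [spec, ws_apply, Function.comp_def]

theorem le_choose_add (n t : ℕ) : n ≤ n.choose (t + 1) + t := by
  induction n with
  | zero => omega
  | succ n ih =>
    rcases Nat.lt_or_ge n t with h | h
    · omega
    · have := Nat.choose_pos h
      rw [Nat.choose_succ_succ']; omega

theorem count_le {k t : ℕ} (ht : 1 ≤ t) (w : List (Fin k)) (a : Fin k) :
    w.count a ≤ 2 ^ (N487b59b3.bitEncode (spec t w)).length + t := by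
  obtain ⟨s, rfl⟩ := Nat.exists_eq_add_of_le' ht
  have h1 := le_choose_add (w.count a) s
  have h2 : (w.count a).choose (s + 1) < 2 ^ (N487b59b3.bitEncode (spec (s + 1) w)).length := by
    rw [← Nat.size_le, ← Nat.size_eq_bits_len, ← occ_replicate, spec_enc]
    have := (List.sublist_flatten_of_mem (List.mem_map_of_mem (f := fun z : ℤ =>
      (z.natAbs.bits.flatMap fun b => [true, b]) ++ [false]) (List.mem_map_of_mem (f := ws w)
      (mem_words.2 (List.length_replicate (n := s + 1) (a := a)))))).length_le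
    simp only [ws_apply, Int.natAbs_natCast, List.length_append, List.length_flatMap,
      List.length_cons, List.length_nil, List.map_const', List.sum_replicate, smul_eq_mul] at this
    refine le_trans ?_ this
    omega
  omega

theorem length_le_two_pow {k t : ℕ} (ht : 1 ≤ t) (w : List (Fin k)) :
    w.length ≤ 2 ^ ((N487b59b3.bitEncode (spec t w)).length + k + t + 1) := by
  have h1 := Multiset.sum_count_eq_card (s := Finset.univ) (m := (w : Multiset (Fin k)))
    fun _ _ => Finset.mem_univ _
  have h2 := Finset.sum_le_card_nsmul Finset.univ (fun a => Multiset.count a (w : Multiset (Fin k)))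
    _ fun a _ => by simpa using count_le ht w a
  generalize (N487b59b3.bitEncode (spec t w)).length = y at h2 ⊢
  rw [h1] at h2
  simp only [Multiset.coe_card, Finset.card_univ, Fintype.card_fin, smul_eq_mul] at h2
  have h3 := (Nat.lt_two_pow_self (n := k)).le
  have h4 := (Nat.lt_two_pow_self (n := t)).le
  have h5 : 2 ^ y + t ≤ 2 ^ y * 2 ^ t * 2 := by
    nlinarith [Nat.one_le_two_pow (n := y), Nat.one_le_two_pow (n := t)]
  refine h2.trans ((Nat.mul_le_mul h3 h5).trans (le_of_eq ?_))
  ring

variable (k t : ℕ)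

/-- All words of length at most `t`. -/
def allW : List (List (Fin k)) := (List.range (t + 1)).flatMap (words k)

/-- The series with a given list of coefficients. -/
def sv (v : List ℤ) : Ser (Fin k) := fun u => v.getD ((allW k t).idxOf u) 0

/-- A vector of coefficients for two series. -/
def vec (f : ℕ → ℤ) : List ℤ := (List.range ((allW k t).length + (allW k t).length)).map f

/-- Nodes of the game. -/
abbrev Nd := List Bool × List ℤ × Bool × List ℤ × ℕ × ℕ

/-- The test. -/
def tst (x : Nd) : Bool :=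
  cond x.2.2.1 (decide (encZ ((words k t).map (sv k t x.2.2.2.1)) = x.1))
    ((allW k t).all fun u => decide (sv k t x.2.1 u =
      (sv k t x.2.2.2.1 * sv k t (x.2.2.2.1.drop (allW k t).length)) u))

/-- A fresh node. -/
def nd (v : List ℤ) (m : ℕ) : Nd := ([], v, false, vec k t fun _ => 0, m, m)

/-- Universal nodes. -/
def gop (x : Nd) : Bool := decide (x.2.2.2.2.1 = 0) && tst k t x

/-- Children. -/
def gch (x : Nd) : List Nd :=
  cond (decide (x.2.2.2.2.1 = 0)) (cond (tst k t x) (nd k t x.2.2.2.1 x.2.2.2.2.2 ::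
    cond x.2.2.1 [] [nd k t (x.2.2.2.1.drop (allW k t).length) x.2.2.2.2.2]) [])
    ((words 2 ((allW k t).length + (allW k t).length)).map fun b => (x.1, x.2.1, x.2.2.1,
      vec k t fun i => 2 * x.2.2.2.1.getD i 0 + ((b.getD i 0).val : ℤ), x.2.2.2.2.1 - 1,
      x.2.2.2.2.2))

/-- Leaves. -/
def glf (x : Nd) : Bool := ([] :: (List.finRange k).map fun a => [a]).any fun w =>
  (allW k t).all fun u => decide (sv k t x.2.1 u = ws w u)

variable {k t}

theorem mem_allW {u : List (Fin k)} : u ∈ allW k t ↔ u.length ≤ t := by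
  simp [allW, mem_words, Nat.lt_succ_iff]

theorem vec_congr {f g : ℕ → ℤ} (h : ∀ i < (allW k t).length + (allW k t).length, f i = g i) :
    vec k t f = vec k t g := List.map_congr_left fun i hi => h i (List.mem_range.1 hi)

theorem vec_getD (f : ℕ → ℤ) {i : ℕ} (h : i < (allW k t).length + (allW k t).length) :
    (vec k t f).getD i 0 = f i := by simp [vec, h]

theorem or_levels (c d : ℕ) (y : List Bool) (g : List ℤ) (r : Bool) (m : ℕ) : ∀ f : ℕ → ℤ,
    gval (gop k t) (glf k t) (gch k t) (d + c) (y, g, r, vec k t f, c, m) = true ↔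
      ∃ ρ : ℕ → ℕ, (∀ i, ρ i < 2 ^ c) ∧ gval (gop k t) (glf k t) (gch k t) d
        (y, g, r, vec k t fun i => 2 ^ c * f i + ρ i, 0, m) = true := by
  induction c with
  | zero =>
    refine fun f => ⟨fun h => ⟨fun _ => 0, by simp, by simpa using h⟩, ?_⟩
    rintro ⟨ρ, h1, h2⟩
    have : ∀ i, ρ i = 0 := fun i => by simpa using h1 i
    simpa [this] using h2
  | succ c ih =>
    intro f
    rw [← add_assoc, gval]
    simp only [gop, gch, Nat.succ_ne_zero, decide_false, Bool.false_and, cond_false, List.any_map,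
      List.any_eq_true, Function.comp_apply, Nat.add_sub_cancel, ih, mem_words]
    constructor
    · rintro ⟨b, -, ρ, h1, h2⟩
      refine ⟨fun i => 2 ^ c * (b.getD i 0).val + ρ i, fun i => ?_, ?_⟩
      · have := h1 i
        have := Nat.mul_le_mul_left (2 ^ c) (Nat.le_of_lt_succ (b.getD i 0).2)
        beta_reduce; omega
      · rw [← h2, vec_congr fun i hi => ?_]
        rw [vec_getD _ hi]; push_cast; ring
    · rintro ⟨ρ, h1, h2⟩
      have h3 : ∀ i, ρ i / 2 ^ c < 2 := fun i => Nat.div_lt_of_lt_mul (h1 i)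
      refine ⟨(List.range ((allW k t).length + (allW k t).length)).map fun i => ⟨_, h3 i⟩,
        by simp, fun i => ρ i % 2 ^ c,
        fun i => Nat.mod_lt _ (by positivity), ?_⟩
      rw [← h2, vec_congr fun i hi => ?_]
      have := congrArg (Nat.cast (R := ℤ)) (Nat.div_add_mod (ρ i) (2 ^ c))
      rw [vec_getD _ hi, ← this]
      simp [hi]; ring

theorem exists_vec {J m : ℕ} (hm : (2 ^ J) ^ t < 2 ^ m) {w w' : List (Fin k)}
    (hw : w.length ≤ 2 ^ J) (hw' : w'.length ≤ 2 ^ J) : ∃ ρ : ℕ → ℕ, (∀ i, ρ i < 2 ^ m) ∧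
      Eqv t (sv k t (vec k t fun i => ρ i)) (ws w) ∧
      Eqv t (sv k t ((vec k t fun i => ρ i).drop (allW k t).length)) (ws w') := by
  have hb : ∀ (w : List (Fin k)) (i : ℕ), w.length ≤ 2 ^ J →
      occ w ((allW k t).getD i []) < 2 ^ m := fun w i hw => by
    refine (occ_le_pow _ _).trans_lt (((Nat.pow_le_pow_left hw _).trans
      (Nat.pow_le_pow_right (by positivity) ?_)).trans_lt hm)
    rcases Nat.lt_or_ge i (allW k t).length with h | h
    · rw [List.getD_eq_getElem _ _ h]; exact mem_allW.1 (List.getElem_mem _)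
    · rw [List.getD_eq_default _ _ h]; simp
  refine ⟨fun i => if i < (allW k t).length then occ w ((allW k t).getD i []) else
    occ w' ((allW k t).getD (i - (allW k t).length) []), fun i => ?_, fun u hu => ?_,
    fun u hu => ?_⟩
  · beta_reduce; split_ifs <;> exact hb _ _ (by assumption)
  all_goals have h := List.idxOf_lt_length_iff.2 (mem_allW.2 hu)
  · rw [sv, vec_getD _ (by omega)]
    beta_reduce
    rw [if_pos h, List.getD_eq_getElem _ _ h, List.getElem_idxOf]; rfl
  · rw [sv, List.getD_eq_getElem?_getD, List.getElem?_drop, ← List.getD_eq_getElem?_getD,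
      vec_getD _ (by omega)]
    beta_reduce
    rw [if_neg (by omega), Nat.add_sub_cancel_left, List.getD_eq_getElem _ _ h,
      List.getElem_idxOf]; rfl

theorem gval_nd {J m : ℕ} (hm : (2 ^ J) ^ t < 2 ^ m) (j : ℕ) (hj : j ≤ J) : ∀ g : List ℤ,
    gval (gop k t) (glf k t) (gch k t) (j * (m + 1)) (nd k t g m) = true ↔
      ∃ w, w.length ≤ 2 ^ j ∧ Eqv t (sv k t g) (ws w) := by
  induction j with
  | zero =>
    intro g
    simp only [zero_mul, gval, glf, List.any_eq_true, List.all_eq_true, mem_allW,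
      decide_eq_true_eq, nd]
    refine exists_congr fun w => and_congr_left' ?_
    rcases w with _ | ⟨a, _ | _⟩ <;> simp
  | succ j ih =>
    intro g
    rw [show (j + 1) * (m + 1) = j * (m + 1) + 1 + m by ring, nd, or_levels]
    have key : ∀ v, gval (gop k t) (glf k t) (gch k t) (j * (m + 1) + 1) ([], g, false, v, 0, m) =
        true ↔ Eqv t (sv k t g) (sv k t v * sv k t (v.drop (allW k t).length)) ∧
          (∃ w, w.length ≤ 2 ^ j ∧ Eqv t (sv k t v) (ws w)) ∧
          ∃ w, w.length ≤ 2 ^ j ∧ Eqv t (sv k t (v.drop (allW k t).length)) (ws w) := fun v => by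
      rw [← ih (by omega), ← ih (by omega), gval]
      have : tst k t ([], g, false, v, 0, m) = true ↔
          Eqv t (sv k t g) (sv k t v * sv k t (v.drop (allW k t).length)) := by
        simp [tst, mem_allW, Eqv]
      rw [← this]
      cases h : tst k t ([], g, false, v, 0, m) <;> simp [gop, gch, h]
    simp only [key, mul_zero, zero_add]
    constructor
    · rintro ⟨ρ, -, h1, ⟨w, h2, h3⟩, w', h4, h5⟩
      exact ⟨w ++ w', by rw [List.length_append]; omega, ws_append w w' ▸ h1.trans (h3.mul h5)⟩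
    · rintro ⟨w, h1, h2⟩
      have h3 : 2 ^ j ≤ 2 ^ J := Nat.pow_le_pow_right (by omega) (by omega)
      have h4 : (w.take (2 ^ j)).length ≤ 2 ^ j := List.length_take_le _ _
      have h5 : (w.drop (2 ^ j)).length ≤ 2 ^ j := by rw [List.length_drop]; omega
      obtain ⟨ρ, h6, h7, h8⟩ := exists_vec hm (h4.trans h3) (h5.trans h3)
      refine ⟨ρ, h6, h2.trans ?_, ⟨_, h4, h7⟩, _, h5, h8⟩
      have := (h7.mul h8).symm
      rwa [← ws_append, List.take_append_drop] at this

theorem gval_root {J m : ℕ} (hm : (2 ^ J) ^ t < 2 ^ m) (y : List Bool) :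
    gval (gop k t) (glf k t) (gch k t) (J * (m + 1) + 1 + m)
      (y, [], true, vec k t fun _ => 0, m, m) = true ↔
      ∃ w : List (Fin k), w.length ≤ 2 ^ J ∧ N487b59b3.bitEncode (spec t w) = y := by
  have key : ∀ v, gval (gop k t) (glf k t) (gch k t) (J * (m + 1) + 1) (y, [], true, v, 0, m) =
      true ↔ encZ ((words k t).map (sv k t v)) = y ∧
        ∃ w, w.length ≤ 2 ^ J ∧ Eqv t (sv k t v) (ws w) := fun v => by
    rw [← gval_nd hm J le_rfl, gval]
    have : tst k t (y, [], true, v, 0, m) = true ↔ encZ ((words k t).map (sv k t v)) = y := by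
      simp [tst]
    rw [← this]
    cases h : tst k t (y, [], true, v, 0, m) <;> simp [gop, gch, h]
  have e : ∀ {v w}, Eqv t (sv k t v) (ws w) → (words k t).map (sv k t v) = (words k t).map (ws w) :=
    fun h => List.map_congr_left fun u hu => h u (mem_words.1 hu).le
  simp only [or_levels, key, mul_zero, zero_add, spec_enc]
  constructor
  · rintro ⟨ρ, -, h1, w, h2, h3⟩
    exact ⟨w, h2, e h3 ▸ h1⟩
  · rintro ⟨w, h1, h2⟩
    obtain ⟨ρ, h3, h4, -⟩ := exists_vec hm h1 h1
    exact ⟨ρ, h3, e h4 ▸ h2, w, h1, h4⟩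

theorem spec_pspace (k : ℕ) (ht : 1 ≤ t) : specLang k t ∈ PSPACE := by
  let J : List Bool → ℕ := fun y => y.length + k + t + 1
  let m : List Bool → ℕ := fun y => J y * t + 1
  let n := (allW k t).length + (allW k t).length
  have hJ : PT J := by fun_prop
  have hm : PT m := by fun_prop
  have hs : ∀ {f : Nd → List ℤ}, PT f → ∀ u, PT fun x => sv k t (f x) u := fun hf u =>
    hf.getD (PT.const _) (PT.const _)
  have ht' : PT (tst k t) := PT.cond (by fun_prop)
    (PT.bitsEq (pt_encZ.comp (PT.mapC (hs (by fun_prop)) _)) (by fun_prop))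
    (PT.allC (fun u => (hs (by fun_prop) u).intEq
      (PT.serMul (hs (by fun_prop)) (hs (by fun_prop)) u)) _)
  let Sm : ℕ → List ℤ → Prop := fun e v => v.length ≤ n ∧ ∀ z ∈ v, z.natAbs < 2 ^ e
  have h0 : Sm 0 (vec k t fun _ => 0) := ⟨by simp [vec, n], by simp [vec]⟩
  have hz : ∀ e e' v, Sm e v → e ≤ e' → sz v ≤ n * (2 * (e' + 1) + 2) + 1 := fun e e' v h he =>
    (sz_list_le v (e' + 1) fun z hz => by
      have := Nat.size_le.2 (h.2 z hz)
      rw [sz_int]; omega).trans (Nat.succ_le_succ (Nat.mul_le_mul_right _ h.1))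
  have h := game_space (op := gop k t) (leaf := glf k t) (ch := gch k t)
    (x0 := fun y => (y, [], true, vec k t fun _ => 0, m y, m y))
    (D := fun y => J y * (m y + 1) + 1 + m y) (by unfold gop; fun_prop)
    (PT.anyC (fun w => PT.allC (fun u => (hs (by fun_prop) u).intEq (PT.const _)) _) _)
    (PT.cond (by fun_prop) (by unfold nd; fun_prop) (PT.mapC (fun b => PT.pair (by fun_prop)
      (PT.pair (by fun_prop) (PT.pair (by fun_prop) (PT.pair (PT.mapC (fun i => by fun_prop) _)
      (by fun_prop))))) _)) (by fun_prop) (by fun_prop)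
    (fun y x => x.1.length ≤ y.length ∧ x.2.2.2.2.2 = m y ∧ x.2.2.2.2.1 ≤ m y ∧ Sm (m y) x.2.1 ∧
      Sm (m y - x.2.2.2.2.1) x.2.2.2.1)
    (fun y => ⟨le_rfl, rfl, le_rfl, ⟨Nat.zero_le _, by simp⟩, by simpa using h0⟩) ?_
    (B := fun y => 8 * y.length + 4 * (n * (2 * (m y + 1) + 2)) + 3 * m y + 20)
    (PT.bdNat (by fun_prop)) ?_
  · convert h using 1
    funext y
    rw [Bool.eq_iff_iff, gval_root (by
      rw [← pow_mul]; exact Nat.pow_lt_pow_right (by omega) (Nat.lt_succ_self _))]
    simp only [specLang, decide_eq_true_eq]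
    exact exists_congr fun w => ⟨fun h => ⟨by subst h; exact length_le_two_pow ht w, h⟩, And.right⟩
  · rintro y ⟨y', g, r, v, c, _⟩ ⟨h1, rfl, h2, h3, h4⟩ x' hx
    rcases c with _ | c
    · have h6 : x' = nd k t v (m y) ∨ x' = nd k t (v.drop (allW k t).length) (m y) := by
        revert hx
        simp only [gch]
        cases tst k t (y', g, r, v, 0, m y) <;> cases r <;> simp; tauto
      rcases h6 with rfl | rfl
      · exact ⟨Nat.zero_le _, rfl, le_rfl, h4, by simpa [nd] using h0⟩
      · exact ⟨Nat.zero_le _, rfl, le_rfl, ⟨by have := h4.1; simp [nd] at this ⊢; omega,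
          fun z hz => h4.2 z (List.mem_of_mem_drop hz)⟩, by simpa [nd] using h0⟩
    · simp only [gch, Nat.succ_ne_zero, decide_false, cond_false, List.mem_map] at hx
      obtain ⟨b, -, rfl⟩ := hx
      dsimp only at h2 h4 ⊢
      refine ⟨h1, rfl, by omega, h3, by simp [vec, n], fun z hz => ?_⟩
      obtain ⟨i, -, rfl⟩ := List.mem_map.1 hz
      have h5 : (v.getD i 0).natAbs < 2 ^ (m y - (c + 1)) := by
        rcases Nat.lt_or_ge i v.length with h | h
        · rw [List.getD_eq_getElem _ _ h]; exact h4.2 _ (List.getElem_mem _)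
        · rw [List.getD_eq_default _ _ h]; simp
      have := (b.getD i 0).2
      rw [show m y - (c + 1 - 1) = m y - (c + 1) + 1 by omega, pow_succ]; omega
  · rintro y ⟨y', g, r, v, c, _⟩ ⟨h1, rfl, h2, h3, h4⟩
    have := hz _ _ _ h3 le_rfl
    have := hz _ (m y) _ h4 (Nat.sub_le _ _)
    have := sz_list_le y' 1 fun _ _ => le_rfl
    simp only [sz_pair, sz_nat, sz_bool] at *; omega

theorem Expr.reduce' {ι : Type} {φ : (ι → ℕ) → Prop} {k t : ℕ} (h : Expr φ (Fin k) t)
    {P : List Bool → ι → ℕ} (hP : ∀ i, PT fun x => (P x i : ℤ)) {L : List Bool → Bool}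
    (hL : ∀ x, L x = true ↔ φ (P x)) : ∃ f : List Bool → List Bool, N68a2faeb.IsPolyTime f ∧
      ∀ x, L x = specLang k t (f x) := by
  obtain ⟨f, hf, hf'⟩ := h.reduce hP
  refine ⟨fun x => N487b59b3.bitEncode (f x), toPrelude ((hf.flatMap
    (g := fun _ b => [true, b, false]) (by fun_prop)).of_eq fun x => (bitEncode_list _).symm),
    fun x => ?_⟩
  rw [Bool.eq_iff_iff, hL, hf']
  simp only [specLang, decide_eq_true_eq, N487b59b3.bitEncode_injective.eq_iff]

theorem pspace_complete : ∃ N : ℕ, ∀ k t : ℕ, 2 ≤ k → 3 ≤ t → N ≤ k + t →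
    specLang k t ∈ PSPACE ∧ ∀ L ∈ PSPACE, ∃ f : List Bool → List Bool,
      N68a2faeb.IsPolyTime f ∧ ∀ x, L x = specLang k t (f x) := by
  obtain ⟨N, h⟩ := sr_large
  refine ⟨N, fun k t hk ht hN => ⟨spec_pspace k (by omega), fun L hL => ?_⟩⟩
  obtain ⟨P, hP, hP'⟩ := sr_hard L hL
  exact (h k t hk ht hN).reduce' hP hP'

end Pool.Agent.P.MP_26ce3f_co
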