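import Pool.Agent.P.MP_26ce3f_co.PS.Dio
import Pool.Agent.P.MP_26ce3f_co.Tame

/-! No quantifier-free characterisation in all but finitely many cases. -/

namespace Pool.Agent.P.MP_26ce3f_co

open Function

theorem sq_large : Large fun p : Unit → ℕ => ∃ r, r * r = p () := by
  have v := Nice.var (ι := Unit) ()
  refine dio_large (V := Fin 6) [1, 2, 3] [(1, 1, 2, true), (2, 3, 0, false)] (w := 4) (w' := 5)
    (by decide) 3 (fun p => ![p (), 1, 1, 1, 1, 1]) (fun r => ?_) (fun p => p () + 1) (fun _ => 1)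
    ((v.add (Nice.const 1)).of_eq fun p => by push_cast; rfl) (Nice.const 1) ?_ ?_
  · fin_cases r <;> first | exact v | exact Nice.const 1
  · rintro p ⟨r, hr⟩
    have := Nat.le_mul_self r
    refine ⟨1, le_rfl, fun i => if i = 0 then ![p (), 1, 1, 1, 1, 1] else ![p (), r, p (), 0, 1, 1],
      rfl, rfl, fun i hi => ?_⟩
    obtain rfl : i = 0 := by omega
    refine ⟨fun x => by fin_cases x <;> simp, ![p (), r, p (), 0, 1, 1],
      fun x => by fin_cases x <;> simp; omega, fun x hx => ?_, by simp [Holds, hr], ?_⟩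
    · fin_cases x <;> first | rfl | exact absurd (by decide) hx
    · funext x; fin_cases x <;> rfl
  · intro p w hw
    have key : w 0 = p () ∧ (w 3 = 0 → ∃ r, r * r = p ()) := by
      induction hw with
      | refl => exact ⟨rfl, fun h => by simp at h⟩
      | tail _ h ih =>
        obtain ⟨v1, -, k1, k2, rfl⟩ := h
        have e0 := ih.1
        rw [← k1 _ (by decide)] at e0
        simp only [List.forall_mem_cons, Holds, cond_true, cond_false] at k2
        rw [update_of_ne (by decide), update_of_ne (by decide)]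
        exact ⟨e0, fun h => ⟨v1 1, by omega⟩⟩
    exact key.2

theorem Expr.not_qf {ι : Type} {ψ : (ι → ℕ) → Prop} {k t : ℕ} (h : Expr ψ (Fin k) t)
    {P : ℕ → ι → ℕ} (hP : ∀ i, PE fun n => (P n i : ℤ)) (hψ : ∀ n, ψ (P n) ↔ ∃ r, r * r = n) :
    ¬ ∃ φ : (List (Fin k) → ℤ) → Prop, IsQF {u | u.length ≤ t} φ ∧
      (∀ w : List (Fin k), φ fun u => occ w u) ∧
      ∀ c : List (Fin k) → ℕ, (φ fun u => c u) →
        ∃ w : List (Fin k), ∀ u : List (Fin k), u.length = t → occ w u = c u := by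
  rintro ⟨φ, hφ, h1, h2⟩
  obtain ⟨G, hG, hG'⟩ := h
  have hsq : ∀ r, ∃ w, Eqv t (ws w) (G (P (r * r))) := fun r => (hG' _).1 ((hψ _).2 ⟨r, rfl⟩)
  have hpos : ∀ u : List (Fin k), u.length ≤ t → Ev fun n => 0 ≤ G (P n) u := by
    intro u hu
    rcases ((hG u).pe hP).sign with h | h | h
    · exact h.mono fun n hn => hn.ge
    · exact h.mono fun n hn => hn.le
    · obtain ⟨r, hr⟩ := h.exists_sq
      obtain ⟨w, hw⟩ := hsq r
      rw [← hw u hu, ws_apply] at hr
      omega
  have habs : ∀ u, PE fun n => ((G (P n) u).natAbs : ℤ) := by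
    intro u
    have := (hG u).pe hP
    rcases this.sign with h | h | h
    · exact this.congr (h.mono fun n hn => by omega)
    · exact this.congr (h.mono fun n hn => by omega)
    · exact this.neg.congr (h.mono fun n hn => by omega)
  rcases hφ.ev (c := fun n u => ((G (P n) u).natAbs : ℤ)) habs with h | h
  · obtain ⟨n, ⟨h3, h4⟩, h5⟩ := (h.and (Ev.forall_list (words k t)
      fun u hu => hpos u (mem_words.1 hu).le)).exists_not_sq
    obtain ⟨w, hw⟩ := h2 _ h3
    exact h5 ((hψ n).1 ((hG' (P n)).2 ⟨w, fun u hu => by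
      have := h4 u (mem_words.2 hu)
      rw [ws_apply, hw u hu]; omega⟩))
  · obtain ⟨r, hr⟩ := h.exists_sq
    obtain ⟨w, hw⟩ := hsq r
    refine hr ((hφ.congr fun u hu => ?_).1 (h1 w))
    rw [← hw u hu, ws_apply]; simp

theorem not_qf_all : ∃ N : ℕ, ∀ k t : ℕ, 2 ≤ k → 2 ≤ t → N ≤ k + t →
    ¬ ∃ φ : (List (Fin k) → ℤ) → Prop, IsQF {u | u.length ≤ t} φ ∧
      (∀ w : List (Fin k), φ fun u => occ w u) ∧
      ∀ c : List (Fin k) → ℕ, (φ fun u => c u) →
        ∃ w : List (Fin k), ∀ u : List (Fin k), u.length = t → occ w u = c u := by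
  obtain ⟨N, h⟩ := sq_large
  obtain ⟨k0, h2⟩ := not_qf 2 le_rfl
  refine ⟨N + k0 + 2, fun k t hk ht hN => ?_⟩
  rcases ht.eq_or_lt with rfl | ht
  · exact h2 k (by omega)
  · exact (h k t hk ht (by omega)).not_qf (P := fun n _ => n)
      (fun _ => ⟨Polynomial.X, Ev.of_forall (by simp)⟩) fun n => Iff.rfl

end Pool.Agent.P.MP_26ce3f_co
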