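import Pool.Agent.P.MP_26ce3f_co.PS.Dio

/-! A universal shift register. -/

namespace Pool.Agent.P.MP_26ce3f_co

open Function

/-- The new digit. The parameters are `(D, E, P, T₁, T₂, W₀)`. -/
def srOut (p : Fin 6 → ℕ) (W : ℕ) : ℕ := p 3 % ((W / p 1 * p 0 + (W % p 0 + 1)) * p 4 + 1)

/-- One step of the register. -/
def srStep (p : Fin 6 → ℕ) (W : ℕ) : ℕ := W % p 2 * p 0 + srOut p W

/-- The register eventually produces the digit zero. -/
def SR (p : Fin 6 → ℕ) : Prop :=
  0 < p 0 ∧ 0 < p 1 ∧ 0 < p 2 ∧ ∃ m, srOut p ((srStep p)^[m] (p 5)) = 0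

/-- Variables of the Diophantine description of a step. -/
inductive Vr
  | D | E | P | T | U | W | one | a | W' | u | uE | r | r1 | s1 | q | qD | l | l1 | s2 | uD | i
  | iU | c | z | zc | s3 | h | hP | m | m1 | s4 | mD
  deriving DecidableEq, Fintype

/-- The values of the variables. -/
def vrVal (p : Fin 6 → ℕ) (W : ℕ) : Vr → ℕ
  | .D => p 0 | .E => p 1 | .P => p 2 | .T => p 3 | .U => p 4 | .W => W | .one => 1
  | .a => srOut p W | .W' => srStep p W
  | .u => W / p 1 | .uE => W / p 1 * p 1 | .r => W % p 1 | .r1 => W % p 1 + 1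
  | .s1 => p 1 - (W % p 1 + 1)
  | .q => W / p 0 | .qD => W / p 0 * p 0 | .l => W % p 0 | .l1 => W % p 0 + 1
  | .s2 => p 0 - (W % p 0 + 1)
  | .uD => W / p 1 * p 0 | .i => W / p 1 * p 0 + (W % p 0 + 1)
  | .iU => (W / p 1 * p 0 + (W % p 0 + 1)) * p 4
  | .c => (W / p 1 * p 0 + (W % p 0 + 1)) * p 4 + 1
  | .z => p 3 / ((W / p 1 * p 0 + (W % p 0 + 1)) * p 4 + 1)
  | .zc => p 3 / ((W / p 1 * p 0 + (W % p 0 + 1)) * p 4 + 1) *
      ((W / p 1 * p 0 + (W % p 0 + 1)) * p 4 + 1)
  | .s3 => (W / p 1 * p 0 + (W % p 0 + 1)) * p 4 - srOut p W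
  | .h => W / p 2 | .hP => W / p 2 * p 2 | .m => W % p 2 | .m1 => W % p 2 + 1
  | .s4 => p 2 - (W % p 2 + 1) | .mD => W % p 2 * p 0

/-- The initial values. -/
def vrInit (p : Fin 6 → ℕ) : Vr → ℕ
  | .D => p 0 | .E => p 1 | .P => p 2 | .T => p 3 | .U => p 4 | .W => p 5 | _ => 1

/-- The guessed variables. -/
def vrG : List Vr := [.a, .W', .u, .uE, .r, .r1, .s1, .q, .qD, .l, .l1, .s2, .uD, .i, .iU, .c, .z,
  .zc, .s3, .h, .hP, .m, .m1, .s4, .mD]

/-- The constraints. -/
def vrC : List (Vr × Vr × Vr × Bool) :=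
  [(.u, .E, .uE, true), (.uE, .r, .W, false), (.r, .one, .r1, false), (.r1, .s1, .E, false),
   (.q, .D, .qD, true), (.qD, .l, .W, false), (.l, .one, .l1, false), (.l1, .s2, .D, false),
   (.h, .P, .hP, true), (.hP, .m, .W, false), (.m, .one, .m1, false), (.m1, .s4, .P, false),
   (.u, .D, .uD, true), (.uD, .l1, .i, false), (.i, .U, .iU, true), (.iU, .one, .c, false),
   (.z, .c, .zc, true), (.zc, .a, .T, false), (.a, .s3, .iU, false),
   (.m, .D, .mD, true), (.mD, .a, .W', false)]

theorem exists_lt_iter {f : ℕ → ℕ} {Q : ℕ → Prop} {x X : ℕ} (hx : ∀ i, f^[i] x < X)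
    (h : ∃ m, Q (f^[m] x)) : ∃ m < X, Q (f^[m] x) := by
  classical
  refine ⟨Nat.find h, ?_, Nat.find_spec h⟩
  have key : ∀ i j, i < j → j ≤ Nat.find h → f^[i] x ≠ f^[j] x := fun i j hij hj e => by
    refine Nat.find_min h (m := Nat.find h - j + i) (by omega) ?_
    have := Nat.find_spec h
    rw [← Nat.sub_add_cancel hj, iterate_add_apply, ← e, ← iterate_add_apply] at this
    exact this
  have := Finset.card_le_card_of_injOn (s := Finset.range (Nat.find h + 1)) (t := Finset.range X)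
    (fun i => f^[i] x) (fun i _ => by simpa using hx i) fun i hi j hj e => by
      simp only [Finset.coe_range, Set.mem_Iio] at hi hj
      rcases lt_trichotomy i j with h1 | h1 | h1
      · exact absurd e (key i j h1 (by omega))
      · exact h1
      · exact absurd e.symm (key j i h1 (by omega))
  rw [Finset.card_range, Finset.card_range] at this; omega

theorem divmod_eq {x y q r : ℕ} (h : x = q * y + r) (hr : r < y) : q = x / y ∧ r = x % y := by
  have := (Nat.div_mod_unique (a := x) (b := y) (c := r) (d := q) (by omega)).2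
    ⟨by rw [h]; ring, hr⟩
  exact ⟨this.1.symm, this.2.symm⟩

theorem sr_large : Large SR := by
  have v := fun i : Fin 6 => Nice.var (ι := Fin 6) i
  let X : (Fin 6 → ℕ) → ℕ := fun p => p 5 + p 2 * p 0 + p 3 + p 4 + p 0 + p 1 + p 2 + 1
  have hX : Nice fun p => (X p : ℤ) := ((((((((v 5).add ((v 2).mul (v 0))).add (v 3)).add
    (v 4)).add (v 0)).add (v 1)).add (v 2)).add (Nice.const 1)).of_eq fun p => by
      simp only [X]; push_cast; rfl
  refine dio_large vrG vrC (w := .W) (w' := .W') (by decide) .a vrInit (fun r => ?_)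
    (fun p => 3 * X p ^ 3) X (((Nice.const 3).mul (hX.pow 3)).of_eq fun p => by push_cast; rfl) hX
    ?_ ?_
  · cases r <;> first | exact v _ | exact Nice.const 1
  · rintro p ⟨h0, h1, h2, h⟩
    have st : ∀ W, srStep p W ≤ p 2 * p 0 + p 3 := fun W =>
      add_le_add (Nat.mul_le_mul_right _ (Nat.mod_lt _ h2).le) (Nat.mod_le _ _)
    have hW : ∀ i, (srStep p)^[i] (p 5) < X p := fun i => by
      cases i with
      | zero => simp only [X, iterate_zero, id]; omega
      | succ i =>
        rw [iterate_succ_apply']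
        have := st ((srStep p)^[i] (p 5))
        simp only [X]; omega
    obtain ⟨m, hm, hm'⟩ := exists_lt_iter (Q := fun W => srOut p W = 0) hW h
    have x1 : 1 ≤ X p := by simp only [X]; omega
    have x2 : X p ≤ X p ^ 2 := Nat.le_self_pow (by omega) _
    have x3 : X p ^ 2 ≤ X p ^ 3 := Nat.pow_le_pow_right x1 (by omega)
    have bd : ∀ W < X p, ∀ r, vrVal p W r ≤ 3 * X p ^ 3 := fun W hW r => by
      have a0 : p 0 ≤ X p := by simp only [X]; omega
      have a4 : p 4 ≤ X p := by simp only [X]; omega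
      have b1 := Nat.div_le_self W (p 1)
      have b2 := Nat.div_mul_le_self W (p 1)
      have b3 := Nat.mod_lt W h1
      have b4 := Nat.div_le_self W (p 0)
      have b5 := Nat.div_mul_le_self W (p 0)
      have b6 := Nat.mod_lt W h0
      have b7 := Nat.div_le_self W (p 2)
      have b8 := Nat.div_mul_le_self W (p 2)
      have b9 := Nat.mod_lt W h2
      have c1 : W / p 1 * p 0 ≤ X p ^ 2 := by
        rw [sq]; exact Nat.mul_le_mul (by omega) a0
      have c2 : (W / p 1 * p 0 + (W % p 0 + 1)) * p 4 ≤ 2 * X p ^ 3 :=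
        (Nat.mul_le_mul (show _ ≤ 2 * X p ^ 2 by omega) a4).trans (le_of_eq (by ring))
      have c3 := Nat.div_le_self (p 3) ((W / p 1 * p 0 + (W % p 0 + 1)) * p 4 + 1)
      have c4 := Nat.div_mul_le_self (p 3) ((W / p 1 * p 0 + (W % p 0 + 1)) * p 4 + 1)
      have c5 : srOut p W ≤ p 3 := Nat.mod_le _ _
      have c6 := st W
      have c7 : W % p 2 * p 0 ≤ p 2 * p 0 := Nat.mul_le_mul_right _ b9.le
      have c8 : p 5 + p 2 * p 0 + p 3 + p 4 + p 0 + p 1 + p 2 + 1 = X p := rfl
      cases r <;> simp only [vrVal] <;> omega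
    refine ⟨m + 1, hm, fun i => Nat.casesOn i (vrInit p) fun j =>
      update (vrVal p ((srStep p)^[j] (p 5))) .W ((srStep p)^[j + 1] (p 5)), rfl, hm', fun i _ =>
        ⟨fun r => ?_, vrVal p ((srStep p)^[i] (p 5)), bd _ (hW i), fun r hr => ?_, ?_, ?_⟩⟩
    · cases i with
      | zero =>
        have c8 : p 5 + p 2 * p 0 + p 3 + p 4 + p 0 + p 1 + p 2 + 1 = X p := rfl
        show vrInit p r ≤ _
        cases r <;> simp only [vrInit] <;> omega
      | succ j =>
        show update (vrVal p ((srStep p)^[j] (p 5))) .W ((srStep p)^[j + 1] (p 5)) r ≤ _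
        by_cases hr : r = .W
        · subst hr
          have := hW (j + 1)
          simp only [update_self]; omega
        · simp only [update_of_ne hr]
          exact bd _ (hW j) r
    · cases i <;> cases r <;> first | rfl | exact absurd (by decide) hr
    · generalize (srStep p)^[i] (p 5) = W
      have b3 := Nat.mod_lt W h1
      have b6 := Nat.mod_lt W h0
      have b9 := Nat.mod_lt W h2
      have c5 : srOut p W < (W / p 1 * p 0 + (W % p 0 + 1)) * p 4 + 1 :=
        Nat.mod_lt _ (Nat.succ_pos _)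
      have d1 := Nat.div_add_mod' W (p 1)
      have d2 := Nat.div_add_mod' W (p 0)
      have d3 := Nat.div_add_mod' W (p 2)
      have d4 : _ + srOut p W = _ :=
        Nat.div_add_mod' (p 3) ((W / p 1 * p 0 + (W % p 0 + 1)) * p 4 + 1)
      simp only [vrC, List.forall_mem_cons, Holds, vrVal, cond_true, cond_false, srStep, true_and]
      refine ⟨by omega, by omega, by omega, by omega, by omega, by omega, by omega, by omega,
        by simp⟩
    · simp only [iterate_succ_apply']; rfl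
  · intro p w hw
    have key : w .D = p 0 ∧ w .E = p 1 ∧ w .P = p 2 ∧ w .T = p 3 ∧ w .U = p 4 ∧ w .one = 1 ∧
        (∃ m, w .W = (srStep p)^[m] (p 5)) ∧ (w .a = 0 → SR p) := by
      induction hw with
      | refl => exact ⟨rfl, rfl, rfl, rfl, rfl, rfl, ⟨0, rfl⟩, fun h => by simp [vrInit] at h⟩
      | tail _ h ih =>
        obtain ⟨e0, e1, e2, e3, e4, e5, ⟨m, e6⟩, -⟩ := ih
        obtain ⟨v1, -, k1, k2, rfl⟩ := h
        rw [← k1 _ (by decide)] at e0 e1 e2 e3 e4 e5 e6
        simp only [vrC, List.forall_mem_cons, Holds, cond_true, cond_false, e0, e1, e2, e3, e4,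
          e5] at k2
        obtain ⟨a1, a2, a3, a4, b1, b2, b3, b4, c1, c2, c3, c4, d1, d2, d3, d4, f1, f2, f3, g1,
          g2, -⟩ := k2
        obtain ⟨u1, -⟩ := divmod_eq (a1 ▸ a2) (by omega)
        obtain ⟨-, u2⟩ := divmod_eq (b1 ▸ b2) (by omega)
        obtain ⟨-, u3⟩ := divmod_eq (c1 ▸ c2) (by omega)
        obtain ⟨-, u4⟩ := divmod_eq (f1 ▸ f2) (by omega)
        have u5 : v1 .a = srOut p (v1 .W) := by
          rw [u4, d4, d3, d2, d1, b3, u1, u2]; rfl
        refine ⟨e0, e1, e2, e3, e4, e5, ⟨m + 1, ?_⟩, fun h =>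
          ⟨by omega, by omega, by omega, m, ?_⟩⟩
        · rw [update_self, iterate_succ_apply', ← e6, g2, g1, u3, u5]; rfl
        · rw [← e6, ← u5]; exact h
    exact key.2.2.2.2.2.2.2

end Pool.Agent.P.MP_26ce3f_co
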